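import Pool.Agent.Lib.MP_bb1b7e_an.Spec

set_option linter.all false

/-!
# The strong spherical maximal function: the `T T*` lemma (module BL)
-/

namespace Pool.Agent.MP_bb1b7e

open MeasureTheory
open scoped ENNReal NNReal

namespace BL

theorem mul_le_sq (a b : ℝ≥0∞) : a * b ≤ a ^ 2 + b ^ 2 := by
  rcases le_total a b with h | h
  · calc a * b ≤ b * b := mul_le_mul_left h b
      _ = b ^ 2 := (sq b).symm
      _ ≤ a ^ 2 + b ^ 2 := le_add_self
  · calc a * b ≤ a * a := mul_le_mul_right h a
      _ = a ^ 2 := (sq a).symm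
      _ ≤ a ^ 2 + b ^ 2 := le_self_add

theorem two_mul_le (a b : ℝ≥0∞) : 2 * (a * b) ≤ a ^ 2 + b ^ 2 := by
  rcases eq_or_ne a ∞ with rfl | ha
  · simp
  rcases eq_or_ne b ∞ with rfl | hb
  · simp
  lift a to ℝ≥0 using ha
  lift b to ℝ≥0 using hb
  norm_cast
  have := two_mul_le_add_sq (a : ℝ) b
  rw [← NNReal.coe_le_coe]
  push_cast
  linarith

theorem enorm_conj (z : ℂ) : ‖(starRingEnd ℂ) z‖ₑ = ‖z‖ₑ := by
  rw [← ofReal_norm_eq_enorm, ← ofReal_norm_eq_enorm, Complex.norm_conj]

/-- the square of the `L²` norm as the norm of an integral -/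
theorem lintegral_sq_eq {X : Type*} [MeasurableSpace X] {μ : Measure X} {h : X → ℂ}
    (hi : Integrable (fun x => (starRingEnd ℂ) (h x) * h x) μ) :
    ∫⁻ x, ‖h x‖ₑ ^ 2 ∂μ = ‖∫ x, (starRingEnd ℂ) (h x) * h x ∂μ‖ₑ := by
  have h1 : ∀ x, (starRingEnd ℂ) (h x) * h x = ((‖h x‖ ^ 2 : ℝ) : ℂ) := by
    intro x
    rw [Complex.conj_mul']
    push_cast
    rfl
  have h2 : Integrable (fun x => ‖h x‖ ^ 2) μ := by
    have := hi.norm
    refine this.congr (Filter.Eventually.of_forall fun x => ?_)
    simp only [h1]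
    rw [Complex.norm_real, Real.norm_of_nonneg (by positivity)]
  simp only [h1]
  have h3 : ∫ x, ((‖h x‖ ^ 2 : ℝ) : ℂ) ∂μ = ((∫ x, ‖h x‖ ^ 2 ∂μ : ℝ) : ℂ) := integral_ofReal
  rw [h3, ← ofReal_norm_eq_enorm, Complex.norm_real,
    Real.norm_of_nonneg (integral_nonneg fun x => by positivity),
    ofReal_integral_eq_lintegral_ofReal h2 (Filter.Eventually.of_forall fun x => by positivity)]
  refine lintegral_congr fun x => ?_
  rw [ENNReal.ofReal_pow (norm_nonneg _), ofReal_norm_eq_enorm]

section tt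

variable {X Z : Type*} [MeasurableSpace X] [MeasurableSpace Z] {μ : Measure X} {ν : Measure Z}
  [SFinite μ] [SFinite ν]

/-- the abstract `T T*` estimate -/
theorem tt_star (k : X → Z → ℂ) (hk : Measurable (Function.uncurry k))
    (d : X → Z → ℝ≥0∞) (hd : Measurable (Function.uncurry d)) (hkd : ∀ x z, ‖k x z‖ₑ ≤ d x z)
    (C₁ : ℝ≥0∞) (hC₁ : C₁ ≠ ∞) (h1 : ∀ x, ∫⁻ z, d x z ∂ν ≤ C₁) (h2 : ∀ z, ∫⁻ x, d x z ∂μ ≤ C₁)
    (κ : X → X → ℝ≥0∞) (hκ : Measurable (Function.uncurry κ)) (C₂ : ℝ≥0∞)
    (h3 : ∀ x, ∫⁻ x', κ x x' ∂μ ≤ C₂) (h4 : ∀ x', ∫⁻ x, κ x x' ∂μ ≤ C₂)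
    (hc : ∀ x x', ‖∫ z, (starRingEnd ℂ) (k x z) * k x' z ∂ν‖ₑ ≤ κ x x')
    (f : Z → ℂ) (hf : Measurable f) (hf2 : ∫⁻ z, ‖f z‖ₑ ^ 2 ∂ν < ∞)
    (h : X → ℂ) (hh : ∀ x, h x = ∫ z, k x z * f z ∂ν) (hh2 : ∫⁻ x, ‖h x‖ₑ ^ 2 ∂μ < ∞) :
    ∫⁻ x, ‖h x‖ₑ ^ 2 ∂μ ≤ C₂ * ∫⁻ z, ‖f z‖ₑ ^ 2 ∂ν := by
  set N := ∫⁻ x, ‖h x‖ₑ ^ 2 ∂μ with hN
  set Fn := ∫⁻ z, ‖f z‖ₑ ^ 2 ∂ν with hFn
  have hhm : Measurable h := by
    have : h = fun x => ∫ z, k x z * f z ∂ν := funext hh
    rw [this]
    have hm : Measurable (Function.uncurry fun x z => k x z * f z) :=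
      hk.mul (hf.comp measurable_snd)
    exact (hm.stronglyMeasurable.integral_prod_right).measurable
  have hdx : ∀ x, Measurable (d x) := fun x => hd.comp measurable_prodMk_left
  have hdz : ∀ z, Measurable fun x => d x z := fun z => hd.comp measurable_prodMk_right
  have hκx : ∀ x, Measurable (κ x) := fun x => hκ.comp measurable_prodMk_left
  have hκz : ∀ z, Measurable fun x => κ x z := fun z => hκ.comp measurable_prodMk_right
  let g : Z → ℂ := fun z => ∫ x, (starRingEnd ℂ) (h x) * k x z ∂μ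
  have hgm : Measurable g := by
    have hm : Measurable (Function.uncurry fun z x => (starRingEnd ℂ) (h x) * k x z) :=
      (Complex.continuous_conj.measurable.comp (hhm.comp measurable_snd)).mul
        (hk.comp measurable_swap)
    exact (hm.stronglyMeasurable.integral_prod_right).measurable
  -- first Fubini
  have hF1 : Integrable (Function.uncurry fun x z => (starRingEnd ℂ) (h x) * k x z * f z)
      (μ.prod ν) := by
    refine ⟨((Complex.continuous_conj.measurable.comp (hhm.comp measurable_fst)).mul hk |>.mul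
      (hf.comp measurable_snd)).aestronglyMeasurable, ?_⟩
    rw [HasFiniteIntegral]
    calc ∫⁻ p, ‖(Function.uncurry fun x z => (starRingEnd ℂ) (h x) * k x z * f z) p‖ₑ ∂(μ.prod ν)
        ≤ ∫⁻ p, (‖h p.1‖ₑ ^ 2 * d p.1 p.2 + ‖f p.2‖ₑ ^ 2 * d p.1 p.2) ∂(μ.prod ν) := by
          refine lintegral_mono fun p => ?_
          rcases p with ⟨x, z⟩
          simp only [Function.uncurry]
          rw [enorm_mul, enorm_mul, enorm_conj]
          calc ‖h x‖ₑ * ‖k x z‖ₑ * ‖f z‖ₑ = (‖h x‖ₑ * ‖f z‖ₑ) * ‖k x z‖ₑ := by ring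
            _ ≤ (‖h x‖ₑ ^ 2 + ‖f z‖ₑ ^ 2) * d x z := by
              gcongr
              · exact mul_le_sq _ _
              · exact hkd x z
            _ = _ := by ring
      _ = ∫⁻ p, ‖h p.1‖ₑ ^ 2 * d p.1 p.2 ∂(μ.prod ν) + ∫⁻ p, ‖f p.2‖ₑ ^ 2 * d p.1 p.2 ∂(μ.prod ν) := by
          rw [lintegral_add_left]
          exact ((hhm.comp measurable_fst).enorm.pow_const 2).mul hd
      _ ≤ C₁ * N + C₁ * Fn := by
          gcongr
          · have m1 : AEMeasurable (fun p : X × Z => ‖h p.1‖ₑ ^ 2 * d p.1 p.2) (μ.prod ν) :=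
              (((hhm.comp measurable_fst).enorm.pow_const 2).mul hd).aemeasurable
            rw [lintegral_prod _ m1]
            calc ∫⁻ x, ∫⁻ z, ‖h x‖ₑ ^ 2 * d x z ∂ν ∂μ = ∫⁻ x, ‖h x‖ₑ ^ 2 * ∫⁻ z, d x z ∂ν ∂μ := by
                  refine lintegral_congr fun x => ?_
                  rw [lintegral_const_mul _ (hdx x)]
              _ ≤ ∫⁻ x, ‖h x‖ₑ ^ 2 * C₁ ∂μ := by
                  refine lintegral_mono fun x => ?_
                  gcongr
                  exact h1 x
              _ = C₁ * N := by rw [lintegral_mul_const _ (hhm.enorm.pow_const 2), mul_comm]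
          · have m1 : AEMeasurable (fun p : X × Z => ‖f p.2‖ₑ ^ 2 * d p.1 p.2) (μ.prod ν) :=
              (((hf.comp measurable_snd).enorm.pow_const 2).mul hd).aemeasurable
            rw [lintegral_prod_symm _ m1]
            calc ∫⁻ z, ∫⁻ x, ‖f z‖ₑ ^ 2 * d x z ∂μ ∂ν = ∫⁻ z, ‖f z‖ₑ ^ 2 * ∫⁻ x, d x z ∂μ ∂ν := by
                  refine lintegral_congr fun z => ?_
                  rw [lintegral_const_mul _ (hdz z)]
              _ ≤ ∫⁻ z, ‖f z‖ₑ ^ 2 * C₁ ∂ν := by
                  refine lintegral_mono fun z => ?_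
                  gcongr
                  exact h2 z
              _ = C₁ * Fn := by rw [lintegral_mul_const _ (hf.enorm.pow_const 2), mul_comm]
      _ < ∞ := by
          refine ENNReal.add_lt_top.2 ⟨?_, ?_⟩
          · exact ENNReal.mul_lt_top hC₁.lt_top hh2
          · exact ENNReal.mul_lt_top hC₁.lt_top hf2
  have e1 : ∫ x, (starRingEnd ℂ) (h x) * h x ∂μ = ∫ z, g z * f z ∂ν := by
    have h5 : ∀ x, (starRingEnd ℂ) (h x) * h x = ∫ z, (starRingEnd ℂ) (h x) * k x z * f z ∂ν := by
      intro x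
      calc (starRingEnd ℂ) (h x) * h x = (starRingEnd ℂ) (h x) * ∫ z, k x z * f z ∂ν := by
            rw [← hh x]
        _ = ∫ z, (starRingEnd ℂ) (h x) * k x z * f z ∂ν := by
            rw [← integral_const_mul]
            simp only [mul_assoc]
    simp only [h5]
    rw [integral_integral_swap hF1]
    refine integral_congr_ae (Filter.Eventually.of_forall fun z => ?_)
    simp only [g]
    rw [← integral_mul_const]
  have hint : Integrable (fun x => (starRingEnd ℂ) (h x) * h x) μ := by
    refine ⟨((Complex.continuous_conj.measurable.comp hhm).mul hhm).aestronglyMeasurable, ?_⟩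
    rw [HasFiniteIntegral]
    refine lt_of_le_of_lt (lintegral_mono fun x => ?_) hh2
    rw [enorm_mul, enorm_conj, sq]
  have e2 : N = ‖∫ z, g z * f z ∂ν‖ₑ := by
    rw [hN, lintegral_sq_eq hint, e1]
  -- second Fubini
  set Gn := ∫⁻ z, ‖g z‖ₑ ^ 2 ∂ν with hGn
  let F2 : (X × X) → Z → ℂ := fun p z => ((starRingEnd ℂ) (h p.1) * k p.1 z) *
    (h p.2 * (starRingEnd ℂ) (k p.2 z))
  have mk1 : Measurable fun q : (X × X) × Z => k q.1.1 q.2 :=
    hk.comp ((measurable_fst.comp measurable_fst).prodMk measurable_snd)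
  have mk2 : Measurable fun q : (X × X) × Z => k q.1.2 q.2 :=
    hk.comp ((measurable_snd.comp measurable_fst).prodMk measurable_snd)
  have md1 : Measurable fun q : (X × X) × Z => d q.1.1 q.2 :=
    hd.comp ((measurable_fst.comp measurable_fst).prodMk measurable_snd)
  have md2 : Measurable fun q : (X × X) × Z => d q.1.2 q.2 :=
    hd.comp ((measurable_snd.comp measurable_fst).prodMk measurable_snd)
  have mh1 : Measurable fun q : (X × X) × Z => h q.1.1 :=
    hhm.comp (measurable_fst.comp measurable_fst)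
  have mh2 : Measurable fun q : (X × X) × Z => h q.1.2 :=
    hhm.comp (measurable_snd.comp measurable_fst)
  have hF2 : Integrable (Function.uncurry F2) ((μ.prod μ).prod ν) := by
    refine ⟨(((Complex.continuous_conj.measurable.comp mh1).mul mk1).mul
      (mh2.mul (Complex.continuous_conj.measurable.comp mk2))).aestronglyMeasurable, ?_⟩
    rw [HasFiniteIntegral]
    calc ∫⁻ q, ‖Function.uncurry F2 q‖ₑ ∂((μ.prod μ).prod ν)
        ≤ ∫⁻ q : (X × X) × Z, (‖h q.1.1‖ₑ ^ 2 * (d q.1.1 q.2 * d q.1.2 q.2) +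
            ‖h q.1.2‖ₑ ^ 2 * (d q.1.1 q.2 * d q.1.2 q.2)) ∂((μ.prod μ).prod ν) := by
          refine lintegral_mono fun q => ?_
          rcases q with ⟨⟨x, x'⟩, z⟩
          simp only [Function.uncurry, F2]
          rw [enorm_mul, enorm_mul, enorm_mul, enorm_conj, enorm_conj]
          calc ‖h x‖ₑ * ‖k x z‖ₑ * (‖h x'‖ₑ * ‖k x' z‖ₑ)
              = (‖h x‖ₑ * ‖h x'‖ₑ) * (‖k x z‖ₑ * ‖k x' z‖ₑ) := by ring
            _ ≤ (‖h x‖ₑ ^ 2 + ‖h x'‖ₑ ^ 2) * (d x z * d x' z) := by
              gcongr
              · exact mul_le_sq _ _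
              · exact hkd x z
              · exact hkd x' z
            _ = _ := by ring
      _ = ∫⁻ q : (X × X) × Z, ‖h q.1.1‖ₑ ^ 2 * (d q.1.1 q.2 * d q.1.2 q.2) ∂((μ.prod μ).prod ν) +
          ∫⁻ q : (X × X) × Z, ‖h q.1.2‖ₑ ^ 2 * (d q.1.1 q.2 * d q.1.2 q.2) ∂((μ.prod μ).prod ν) := by
          rw [lintegral_add_left]
          exact (mh1.enorm.pow_const 2).mul (md1.mul md2)
      _ ≤ C₁ * C₁ * N + C₁ * C₁ * N := by
          gcongr
          · have m1 : AEMeasurable (fun q : (X × X) × Z => ‖h q.1.1‖ₑ ^ 2 *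
                (d q.1.1 q.2 * d q.1.2 q.2)) ((μ.prod μ).prod ν) :=
              ((mh1.enorm.pow_const 2).mul (md1.mul md2)).aemeasurable
            rw [lintegral_prod _ m1]
            have hm : Measurable fun p : X × X => ∫⁻ z, d p.1 z * d p.2 z ∂ν :=
              (md1.mul md2).lintegral_prod_right'
            calc ∫⁻ p : X × X, ∫⁻ z, ‖h p.1‖ₑ ^ 2 * (d p.1 z * d p.2 z) ∂ν ∂(μ.prod μ)
                = ∫⁻ p : X × X, ‖h p.1‖ₑ ^ 2 * ∫⁻ z, d p.1 z * d p.2 z ∂ν ∂(μ.prod μ) := by
                  refine lintegral_congr fun p => ?_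
                  rw [lintegral_const_mul]
                  exact (hd.comp measurable_prodMk_left).mul (hd.comp measurable_prodMk_left)
              _ = ∫⁻ x, ∫⁻ x', ‖h x‖ₑ ^ 2 * ∫⁻ z, d x z * d x' z ∂ν ∂μ ∂μ := by
                  rw [lintegral_prod]
                  exact (((hhm.comp measurable_fst).enorm.pow_const 2).mul hm).aemeasurable
              _ = ∫⁻ x, ‖h x‖ₑ ^ 2 * ∫⁻ x', ∫⁻ z, d x z * d x' z ∂ν ∂μ ∂μ := by
                  refine lintegral_congr fun x => ?_
                  rw [lintegral_const_mul]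
                  exact hm.comp measurable_prodMk_left
              _ ≤ ∫⁻ x, ‖h x‖ₑ ^ 2 * (C₁ * C₁) ∂μ := by
                  refine lintegral_mono fun x => ?_
                  gcongr
                  rw [lintegral_lintegral_swap]
                  · calc ∫⁻ z, ∫⁻ x', d x z * d x' z ∂μ ∂ν = ∫⁻ z, d x z * ∫⁻ x', d x' z ∂μ ∂ν := by
                          refine lintegral_congr fun z => ?_
                          rw [lintegral_const_mul]
                          exact hd.comp measurable_prodMk_right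
                      _ ≤ ∫⁻ z, d x z * C₁ ∂ν := by
                          refine lintegral_mono fun z => ?_
                          gcongr
                          exact h2 z
                      _ = (∫⁻ z, d x z ∂ν) * C₁ := by
                          rw [lintegral_mul_const]
                          exact hd.comp measurable_prodMk_left
                      _ ≤ C₁ * C₁ := by
                          gcongr
                          exact h1 x
                  · exact ((hd.comp (measurable_const.prodMk measurable_snd)).mul hd).aemeasurable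
              _ = C₁ * C₁ * N := by rw [lintegral_mul_const _ (hhm.enorm.pow_const 2), mul_comm]
          · have m1 : AEMeasurable (fun q : (X × X) × Z => ‖h q.1.2‖ₑ ^ 2 *
                (d q.1.1 q.2 * d q.1.2 q.2)) ((μ.prod μ).prod ν) :=
              ((mh2.enorm.pow_const 2).mul (md1.mul md2)).aemeasurable
            rw [lintegral_prod _ m1]
            have hm : Measurable fun p : X × X => ∫⁻ z, d p.1 z * d p.2 z ∂ν :=
              (md1.mul md2).lintegral_prod_right'
            calc ∫⁻ p : X × X, ∫⁻ z, ‖h p.2‖ₑ ^ 2 * (d p.1 z * d p.2 z) ∂ν ∂(μ.prod μ)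
                = ∫⁻ p : X × X, ‖h p.2‖ₑ ^ 2 * ∫⁻ z, d p.1 z * d p.2 z ∂ν ∂(μ.prod μ) := by
                  refine lintegral_congr fun p => ?_
                  rw [lintegral_const_mul]
                  exact (hd.comp measurable_prodMk_left).mul (hd.comp measurable_prodMk_left)
              _ = ∫⁻ x', ∫⁻ x, ‖h x'‖ₑ ^ 2 * ∫⁻ z, d x z * d x' z ∂ν ∂μ ∂μ := by
                  rw [lintegral_prod_symm]
                  exact (((hhm.comp measurable_snd).enorm.pow_const 2).mul hm).aemeasurable
              _ = ∫⁻ x', ‖h x'‖ₑ ^ 2 * ∫⁻ x, ∫⁻ z, d x z * d x' z ∂ν ∂μ ∂μ := by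
                  refine lintegral_congr fun x' => ?_
                  rw [lintegral_const_mul]
                  exact hm.comp measurable_prodMk_right
              _ ≤ ∫⁻ x', ‖h x'‖ₑ ^ 2 * (C₁ * C₁) ∂μ := by
                  refine lintegral_mono fun x' => ?_
                  gcongr
                  rw [lintegral_lintegral_swap]
                  · calc ∫⁻ z, ∫⁻ x, d x z * d x' z ∂μ ∂ν = ∫⁻ z, (∫⁻ x, d x z ∂μ) * d x' z ∂ν := by
                          refine lintegral_congr fun z => ?_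
                          rw [lintegral_mul_const]
                          exact hd.comp measurable_prodMk_right
                      _ ≤ ∫⁻ z, C₁ * d x' z ∂ν := by
                          refine lintegral_mono fun z => ?_
                          gcongr
                          exact h2 z
                      _ = C₁ * ∫⁻ z, d x' z ∂ν := by
                          rw [lintegral_const_mul]
                          exact hd.comp measurable_prodMk_left
                      _ ≤ C₁ * C₁ := by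
                          gcongr
                          exact h1 x'
                  · exact (hd.mul (hd.comp (measurable_const.prodMk measurable_snd))).aemeasurable
              _ = C₁ * C₁ * N := by rw [lintegral_mul_const _ (hhm.enorm.pow_const 2), mul_comm]
      _ < ∞ := by
          have : C₁ * C₁ * N < ∞ :=
            ENNReal.mul_lt_top (ENNReal.mul_lt_top hC₁.lt_top hC₁.lt_top) hh2
          exact ENNReal.add_lt_top.2 ⟨this, this⟩
  have e3 : ∀ z, ∫ p, F2 p z ∂(μ.prod μ) = (starRingEnd ℂ) (g z) * g z := by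
    intro z
    have : (starRingEnd ℂ) (g z) = ∫ x, h x * (starRingEnd ℂ) (k x z) ∂μ := by
      simp only [g]
      rw [← integral_conj]
      simp
    rw [this, mul_comm]
    exact integral_prod_mul (fun x => (starRingEnd ℂ) (h x) * k x z)
      (fun x => h x * (starRingEnd ℂ) (k x z))
  have hgint : Integrable (fun z => (starRingEnd ℂ) (g z) * g z) ν := by
    have := hF2.integral_prod_right
    refine this.congr (Filter.Eventually.of_forall fun z => ?_)
    exact e3 z
  have e4 : Gn ≤ C₂ * N := by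
    have e5 : Gn = ‖∫ p : X × X, ∫ z, F2 p z ∂ν ∂(μ.prod μ)‖ₑ := by
      rw [hGn, lintegral_sq_eq hgint, integral_integral_swap hF2]
      congr 1
      refine integral_congr_ae (Filter.Eventually.of_forall fun z => ?_)
      exact (e3 z).symm
    have e6 : 2 * Gn ≤ 2 * (C₂ * N) := by
      rw [e5]
      calc 2 * ‖∫ p : X × X, ∫ z, F2 p z ∂ν ∂(μ.prod μ)‖ₑ
          ≤ 2 * ∫⁻ p : X × X, ‖∫ z, F2 p z ∂ν‖ₑ ∂(μ.prod μ) := by
            gcongr
            exact enorm_integral_le_lintegral_enorm _
        _ ≤ 2 * ∫⁻ p : X × X, ‖h p.1‖ₑ * ‖h p.2‖ₑ * κ p.2 p.1 ∂(μ.prod μ) := by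
            gcongr with p
            have : ∫ z, F2 p z ∂ν = ((starRingEnd ℂ) (h p.1) * h p.2) *
                ∫ z, (starRingEnd ℂ) (k p.2 z) * k p.1 z ∂ν := by
              rw [← integral_const_mul]
              refine integral_congr_ae (Filter.Eventually.of_forall fun z => ?_)
              simp only [F2]
              ring
            rw [this, enorm_mul, enorm_mul, enorm_conj]
            gcongr
            exact hc _ _
        _ = ∫⁻ p : X × X, 2 * (‖h p.1‖ₑ * ‖h p.2‖ₑ) * κ p.2 p.1 ∂(μ.prod μ) := by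
            rw [← lintegral_const_mul']
            · simp only [mul_assoc]
            · norm_num
        _ ≤ ∫⁻ p : X × X, (‖h p.1‖ₑ ^ 2 * κ p.2 p.1 + ‖h p.2‖ₑ ^ 2 * κ p.2 p.1) ∂(μ.prod μ) := by
            refine lintegral_mono fun p => ?_
            rw [← add_mul]
            gcongr
            exact two_mul_le _ _
        _ = ∫⁻ p : X × X, ‖h p.1‖ₑ ^ 2 * κ p.2 p.1 ∂(μ.prod μ) +
            ∫⁻ p : X × X, ‖h p.2‖ₑ ^ 2 * κ p.2 p.1 ∂(μ.prod μ) := by
            rw [lintegral_add_left]
            exact ((hhm.comp measurable_fst).enorm.pow_const 2).mul (hκ.comp measurable_swap)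
        _ ≤ C₂ * N + C₂ * N := by
            gcongr
            · have m1 : AEMeasurable (fun p : X × X => ‖h p.1‖ₑ ^ 2 * κ p.2 p.1) (μ.prod μ) :=
                (((hhm.comp measurable_fst).enorm.pow_const 2).mul
                (hκ.comp measurable_swap)).aemeasurable
              rw [lintegral_prod _ m1]
              calc ∫⁻ x, ∫⁻ x', ‖h x‖ₑ ^ 2 * κ x' x ∂μ ∂μ = ∫⁻ x, ‖h x‖ₑ ^ 2 * ∫⁻ x', κ x' x ∂μ ∂μ := by
                    refine lintegral_congr fun x => ?_
                    rw [lintegral_const_mul]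
                    exact hκ.comp measurable_prodMk_right
                _ ≤ ∫⁻ x, ‖h x‖ₑ ^ 2 * C₂ ∂μ := by
                    refine lintegral_mono fun x => ?_
                    gcongr
                    exact h4 x
                _ = C₂ * N := by rw [lintegral_mul_const _ (hhm.enorm.pow_const 2), mul_comm]
            · have m1 : AEMeasurable (fun p : X × X => ‖h p.2‖ₑ ^ 2 * κ p.2 p.1) (μ.prod μ) :=
                (((hhm.comp measurable_snd).enorm.pow_const 2).mul
                (hκ.comp measurable_swap)).aemeasurable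
              rw [lintegral_prod_symm _ m1]
              calc ∫⁻ x', ∫⁻ x, ‖h x'‖ₑ ^ 2 * κ x' x ∂μ ∂μ = ∫⁻ x', ‖h x'‖ₑ ^ 2 * ∫⁻ x, κ x' x ∂μ ∂μ := by
                    refine lintegral_congr fun x' => ?_
                    rw [lintegral_const_mul]
                    exact hκ.comp measurable_prodMk_left
                _ ≤ ∫⁻ x', ‖h x'‖ₑ ^ 2 * C₂ ∂μ := by
                    refine lintegral_mono fun x' => ?_
                    gcongr
                    exact h3 x'
                _ = C₂ * N := by rw [lintegral_mul_const _ (hhm.enorm.pow_const 2), mul_comm]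
        _ = 2 * (C₂ * N) := by ring
    exact (ENNReal.mul_le_mul_iff_right (by norm_num) (by norm_num)).1 e6
  -- Cauchy-Schwarz
  have e7 : N ≤ Gn ^ (1 / 2 : ℝ) * Fn ^ (1 / 2 : ℝ) := by
    rw [e2]
    calc ‖∫ z, g z * f z ∂ν‖ₑ ≤ ∫⁻ z, ‖g z * f z‖ₑ ∂ν := enorm_integral_le_lintegral_enorm _
      _ = ∫⁻ z, ((fun z => ‖g z‖ₑ) * (fun z => ‖f z‖ₑ)) z ∂ν := by
          refine lintegral_congr fun z => ?_
          rw [enorm_mul]; rfl
      _ ≤ (∫⁻ z, ‖g z‖ₑ ^ (2 : ℝ) ∂ν) ^ (1 / 2 : ℝ) * (∫⁻ z, ‖f z‖ₑ ^ (2 : ℝ) ∂ν) ^ (1 / 2 : ℝ) :=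
          ENNReal.lintegral_mul_le_Lp_mul_Lq ν Real.HolderConjugate.two_two
            hgm.enorm.aemeasurable hf.enorm.aemeasurable
      _ = _ := by
          simp only [hGn, hFn, ENNReal.rpow_two]
  have e8 : N * N ≤ (C₂ * Fn) * N := by
    calc N * N ≤ (Gn ^ (1 / 2 : ℝ) * Fn ^ (1 / 2 : ℝ)) * (Gn ^ (1 / 2 : ℝ) * Fn ^ (1 / 2 : ℝ)) := by
          gcongr
      _ = (Gn ^ (1 / 2 : ℝ) * Gn ^ (1 / 2 : ℝ)) * (Fn ^ (1 / 2 : ℝ) * Fn ^ (1 / 2 : ℝ)) := by ring
      _ = Gn * Fn := by
          rw [← ENNReal.rpow_add_of_nonneg _ _ (by norm_num) (by norm_num),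
            ← ENNReal.rpow_add_of_nonneg _ _ (by norm_num) (by norm_num)]
          norm_num
      _ ≤ (C₂ * N) * Fn := by gcongr
      _ = _ := by ring
  rcases eq_or_ne N 0 with h0 | h0
  · rw [h0]; exact bot_le
  · exact (ENNReal.mul_le_mul_iff_left h0 hh2.ne).1 e8

end tt

end BL

/-- Module BL. -/
theorem specBL : SpecBL := by
  intro ι _ A _ Γ D K hΓ hD hΓD hK hcor f hf hfB hf2
  obtain ⟨B, hB⟩ := hfB
  rcases isEmpty_or_nonempty A with hA | hA
  · simp
  obtain ⟨e, he⟩ := exists_surjective_nat A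
  classical
  -- the functions
  let u : ℕ → (ι → ℝ) → ℂ := fun n x => ∫ y, Γ (e n) y * f (x - y)
  have hum : ∀ n, Measurable (u n) := by
    intro n
    have hm : Measurable (Function.uncurry fun x y : ι → ℝ => Γ (e n) y * f (x - y)) := by
      apply Continuous.measurable
      exact ((hΓ (e n)).comp continuous_snd).mul (hf.comp (continuous_fst.sub continuous_snd))
    exact (hm.stronglyMeasurable.integral_prod_right).measurable
  -- the majorant
  let δ : (ι → ℝ) → ℝ≥0∞ := fun y => ⨆ n, ‖Γ (e n) y‖ₑ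
  have hδm : Measurable δ := Measurable.iSup fun n => (hΓ (e n)).measurable.enorm
  have hδD : ∀ y, δ y ≤ ‖D y‖ₑ := by
    intro y
    refine iSup_le fun n => ?_
    rw [← ofReal_norm_eq_enorm, ← ofReal_norm_eq_enorm]
    apply ENNReal.ofReal_le_ofReal
    exact (hΓD (e n) y).trans (le_abs_self _)
  let C₁ : ℝ≥0∞ := ∫⁻ y, δ y
  have hC₁ : C₁ < ∞ := lt_of_le_of_lt (lintegral_mono hδD) hD.2
  have hub : ∀ n x, ‖u n x‖ₑ ≤ C₁ * ENNReal.ofReal B := by
    intro n x
    calc ‖u n x‖ₑ ≤ ∫⁻ y, ‖Γ (e n) y * f (x - y)‖ₑ := enorm_integral_le_lintegral_enorm _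
      _ ≤ ∫⁻ y, δ y * ENNReal.ofReal B := by
          refine lintegral_mono fun y => ?_
          rw [enorm_mul]
          gcongr
          · exact le_iSup (fun n => ‖Γ (e n) y‖ₑ) n
          · rw [← ofReal_norm_eq_enorm]
            exact ENNReal.ofReal_le_ofReal (hB _)
      _ = C₁ * ENNReal.ofReal B := lintegral_mul_const _ hδm
  -- finite suprema
  let v : ℕ → (ι → ℝ) → ℝ≥0∞ := fun n x => (Finset.range (n + 1)).sup fun m => ‖u m x‖ₑ
  have hvm : ∀ n, Measurable (v n) := by
    intro n
    have : v n = fun x => ⨆ m ∈ Finset.range (n + 1), ‖u m x‖ₑ := by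
      funext x
      simp only [v, Finset.sup_eq_iSup]
    rw [this]
    exact Measurable.iSup fun m => Measurable.iSup fun _ => (hum m).enorm
  let Q : ℕ → Set (ι → ℝ) := fun n => Metric.closedBall 0 n
  have hQm : ∀ n, MeasurableSet (Q n) := fun n => Metric.isClosed_closedBall.measurableSet
  have key : ∀ n, ∫⁻ x, (Q n).indicator (fun x => v n x ^ 2) x ≤
      (∫⁻ w, K w) * ∫⁻ x, ‖f x‖ₑ ^ 2 := by
    intro n
    let p : (ι → ℝ) → ℕ → Prop := fun x m => m ≤ n ∧ v n x ≤ ‖u m x‖ₑ
    have hp : ∀ x, ∃ m, p x m := by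
      intro x
      obtain ⟨m, hm, hm2⟩ := Finset.exists_mem_eq_sup (Finset.range (n + 1)) ⟨0, by simp⟩
        (fun m => ‖u m x‖ₑ)
      exact ⟨m, by simpa [Nat.lt_succ_iff] using hm, hm2.le⟩
    let a : (ι → ℝ) → ℕ := fun x => Nat.find (hp x)
    have ha : Measurable a := by
      refine measurable_find hp fun m => ?_
      simp only [p]
      exact (MeasurableSet.const _).inter (measurableSet_le (hvm n) (hum m).enorm)
    have hav : ∀ x, v n x ≤ ‖u (a x) x‖ₑ := fun x => (Nat.find_spec (hp x)).2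
    let k : (ι → ℝ) → (ι → ℝ) → ℂ := fun x z => if x ∈ Q n then Γ (e (a x)) (x - z) else 0
    have hkm : Measurable (Function.uncurry k) := by
      have h1 : Measurable fun q : ℕ × (ι → ℝ) => Γ (e q.1) q.2 :=
        measurable_from_prod_countable_right fun m => (hΓ (e m)).measurable
      have h2 : Measurable fun q : (ι → ℝ) × (ι → ℝ) => Γ (e (a q.1)) (q.1 - q.2) :=
        h1.comp ((ha.comp measurable_fst).prodMk (measurable_fst.sub measurable_snd))
      exact Measurable.ite (measurable_fst (hQm n)) h2 measurable_const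
    let h : (ι → ℝ) → ℂ := fun x => if x ∈ Q n then u (a x) x else 0
    have hh : ∀ x, h x = ∫ z, k x z * f z := by
      intro x
      by_cases hx : x ∈ Q n
      · simp only [h, k, if_pos hx, u]
        have := integral_sub_left_eq_self (fun y => Γ (e (a x)) y * f (x - y)) volume x
        rw [← this]
        simp only [sub_sub_cancel]
      · simp [h, k, if_neg hx]
    have hkd : ∀ x z, ‖k x z‖ₑ ≤ δ (x - z) := by
      intro x z
      by_cases hx : x ∈ Q n
      · simp only [k, if_pos hx]
        exact le_iSup (fun n => ‖Γ (e n) (x - z)‖ₑ) (a x)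
      · simp [k, if_neg hx]
    have hh2 : ∫⁻ x, ‖h x‖ₑ ^ 2 < ∞ := by
      calc ∫⁻ x, ‖h x‖ₑ ^ 2 ≤ ∫⁻ x, (Q n).indicator (fun _ => (C₁ * ENNReal.ofReal B) ^ 2) x := by
            refine lintegral_mono fun x => ?_
            by_cases hx : x ∈ Q n
            · simp only [h, if_pos hx, Set.indicator_of_mem hx]
              gcongr
              exact hub _ _
            · simp [h, if_neg hx]
        _ = (C₁ * ENNReal.ofReal B) ^ 2 * volume (Q n) := by
            rw [lintegral_indicator (hQm n), setLIntegral_const]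
        _ < ∞ := by
            apply ENNReal.mul_lt_top
            · exact ENNReal.pow_lt_top (ENNReal.mul_lt_top hC₁ ENNReal.ofReal_lt_top)
            · exact measure_closedBall_lt_top
    have hcc : ∀ x x', ‖∫ z, (starRingEnd ℂ) (k x z) * k x' z‖ₑ ≤ K (x' - x) := by
      intro x x'
      by_cases hx : x ∈ Q n
      · by_cases hx' : x' ∈ Q n
        · simp only [k, if_pos hx, if_pos hx']
          have := integral_sub_left_eq_self
            (fun y => (starRingEnd ℂ) (Γ (e (a x)) y) * Γ (e (a x')) (y + (x' - x))) volume x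
          have h2 : ∀ z : ι → ℝ, x - z + (x' - x) = x' - z := fun z => by abel
          simp only [h2] at this
          rw [this]
          exact hcor _ _ _
        · simp [k, if_neg hx']
      · simp [k, if_neg hx]
    have hmain := BL.tt_star (μ := volume) (ν := volume) k hkm (fun x z => δ (x - z))
      (hδm.comp (measurable_fst.sub measurable_snd)) hkd C₁ hC₁.ne
      (fun x => (lintegral_sub_left_eq_self δ x).le)
      (fun z => (lintegral_sub_right_eq_self δ z).le)
      (fun x x' => K (x' - x)) (hK.comp (measurable_snd.sub measurable_fst)) (∫⁻ w, K w)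
      (fun x => (lintegral_sub_right_eq_self K x).le)
      (fun x' => (lintegral_sub_left_eq_self K x').le)
      hcc f hf.measurable hf2 h hh hh2
    refine le_trans (lintegral_mono fun x => ?_) hmain
    by_cases hx : x ∈ Q n
    · simp only [Set.indicator_of_mem hx, h, if_pos hx]
      gcongr
      exact hav x
    · simp [Set.indicator_of_notMem hx]
  -- monotone convergence
  have hle : ∀ x, (⨆ a, ‖∫ y, Γ a y * f (x - y)‖ₑ) ^ 2 ≤
      ⨆ n, (Q n).indicator (fun x => v n x ^ 2) x := by
    intro x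
    have h1 : (⨆ a, ‖∫ y, Γ a y * f (x - y)‖ₑ) = ⨆ n, ‖u n x‖ₑ :=
      (he.iSup_comp (g := fun a => ‖∫ y, Γ a y * f (x - y)‖ₑ)).symm
    rw [h1, ENNReal.iSup_pow]
    refine iSup_le fun m => ?_
    obtain ⟨N, hN⟩ := exists_nat_ge (dist x 0)
    refine le_trans ?_ (le_iSup _ (max m N))
    have hx : x ∈ Q (max m N) := by
      simp only [Q, Metric.mem_closedBall]
      exact hN.trans (by exact_mod_cast le_max_right m N)
    rw [Set.indicator_of_mem hx]
    gcongr
    exact Finset.le_sup (f := fun m => ‖u m x‖ₑ)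
      (Finset.mem_range.2 (Nat.lt_succ_of_le (le_max_left m N)))
  refine (lintegral_mono hle).trans ?_
  rw [lintegral_iSup]
  · exact iSup_le key
  · exact fun n => ((hvm n).pow_const 2).indicator (hQm n)
  · intro n m hnm x
    change (Q n).indicator (fun x => v n x ^ 2) x ≤ (Q m).indicator (fun x => v m x ^ 2) x
    by_cases hx : x ∈ Q n
    · have hx' : x ∈ Q m := Metric.closedBall_subset_closedBall (by exact_mod_cast hnm) hx
      rw [Set.indicator_of_mem hx, Set.indicator_of_mem hx']
      gcongr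
      exact Finset.sup_mono (Finset.range_mono (by omega))
    · rw [Set.indicator_of_notMem hx]; exact bot_le

end Pool.Agent.MP_bb1b7e
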