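import Mathlib

/-!
# Layer cake formulas for the modules MARC and BIG
-/

namespace Pool.Agent.MP_bb1b7e.LC

open MeasureTheory Set
open scoped ENNReal NNReal

variable {α : Type*} [MeasurableSpace α]

theorem lc_le (μ : Measure α) {f : α → ℝ≥0∞} (hf : Measurable f) (hfin : ∀ᵐ x ∂μ, f x < ∞) {p : ℝ}
    (hp : 0 < p) :
    ∫⁻ x, f x ^ p ∂μ ≤ ENNReal.ofReal p *
      ∫⁻ t in Ioi (0 : ℝ), μ {x | ENNReal.ofReal t < f x} * ENNReal.ofReal (t ^ (p - 1)) := by
  have h1 : ∫⁻ x, f x ^ p ∂μ = ∫⁻ x, ENNReal.ofReal ((f x).toReal ^ p) ∂μ := by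
    refine lintegral_congr_ae ?_
    filter_upwards [hfin] with x hx
    rw [← ENNReal.ofReal_rpow_of_nonneg ENNReal.toReal_nonneg hp.le, ENNReal.ofReal_toReal hx.ne]
  rw [h1, lintegral_rpow_eq_lintegral_meas_lt_mul μ
    (Filter.Eventually.of_forall fun x => ENNReal.toReal_nonneg) hf.ennreal_toReal.aemeasurable hp]
  gcongr ENNReal.ofReal p * ?_
  refine setLIntegral_mono' measurableSet_Ioi fun t ht => ?_
  have hsub : {a | t < (f a).toReal} ⊆ {x | ENNReal.ofReal t < f x} := by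
    intro x hx
    have hx' : t < (f x).toReal := hx
    show ENNReal.ofReal t < f x
    by_cases htop : f x = ∞
    · rw [htop] at hx'
      simp only [ENNReal.toReal_top] at hx'
      exact absurd hx' (not_lt.2 (le_of_lt ht))
    · exact (ENNReal.ofReal_lt_iff_lt_toReal (le_of_lt ht) htop).2 hx'
  have := measure_mono (μ := μ) hsub
  gcongr

theorem head {a s : ℝ} (ha : 0 ≤ a) (hs : 0 < s) :
    ∫⁻ t in Ioo 0 a, ENNReal.ofReal (t ^ (s - 1)) = ENNReal.ofReal (a ^ s / s) := by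
  have hs1 : -1 < s - 1 := by linarith
  have hint : IntervalIntegrable (fun t : ℝ => t ^ (s - 1)) volume 0 a :=
    intervalIntegral.intervalIntegrable_rpow' hs1
  have hint' : IntegrableOn (fun t : ℝ => t ^ (s - 1)) (Ioo 0 a) volume :=
    ((intervalIntegrable_iff_integrableOn_Ioc_of_le ha).1 hint).mono_set Ioo_subset_Ioc_self
  have hnn : 0 ≤ᵐ[volume.restrict (Ioo 0 a)] fun t : ℝ => t ^ (s - 1) := by
    filter_upwards [self_mem_ae_restrict measurableSet_Ioo] with t ht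
    exact Real.rpow_nonneg ht.1.le _
  rw [← ofReal_integral_eq_lintegral_ofReal hint' hnn, ← integral_Ioc_eq_integral_Ioo,
    ← intervalIntegral.integral_of_le ha, integral_rpow (Or.inl hs1)]
  congr 1
  rw [Real.zero_rpow (by linarith)]
  simp

theorem tail {a s : ℝ} (ha : 0 < a) (hs : 0 < s) :
    ∫⁻ t in Ioi a, ENNReal.ofReal (t ^ (-s - 1)) = ENNReal.ofReal (a ^ (-s) / s) := by
  have hs1 : -s - 1 < -1 := by linarith
  have hint := integrableOn_Ioi_rpow_of_lt hs1 ha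
  have hnn : 0 ≤ᵐ[volume.restrict (Ioi a)] fun t : ℝ => t ^ (-s - 1) := by
    filter_upwards [self_mem_ae_restrict measurableSet_Ioi] with t ht
    exact Real.rpow_nonneg (ha.trans ht).le _
  rw [← ofReal_integral_eq_lintegral_ofReal hint hnn, integral_Ioi_rpow_of_lt hs1 ha]
  congr 1
  rw [show -s - 1 + 1 = -s by ring]
  field_simp

/-- The contribution of the large values. -/
theorem upper {q p β y : ℝ} (hq : 0 < q) (hqp : q < p) (hβ : 0 < β) (hy : 0 ≤ y) :
    ∫⁻ t in Ioi (0 : ℝ), ENNReal.ofReal (t ^ (p - q - 1)) * ENNReal.ofReal (max (y - β * t) 0) ^ q ≤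
      ENNReal.ofReal (β ^ (q - p) / (p - q)) * ENNReal.ofReal y ^ p := by
  have h1 : ∀ t ∈ Ioi (0 : ℝ), ENNReal.ofReal (t ^ (p - q - 1)) *
      ENNReal.ofReal (max (y - β * t) 0) ^ q ≤
      (Ioo 0 (y / β)).indicator (fun t => ENNReal.ofReal (t ^ (p - q - 1)) * ENNReal.ofReal y ^ q)
        t := by
    intro t ht
    by_cases hty : t < y / β
    · rw [indicator_of_mem (show t ∈ Ioo 0 (y / β) from ⟨ht, hty⟩)]
      have : max (y - β * t) 0 ≤ y := max_le (by nlinarith [mem_Ioi.1 ht]) hy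
      gcongr
    · have h2 : y - β * t ≤ 0 := by
        push Not at hty
        have := (div_le_iff₀ hβ).1 hty
        nlinarith
      rw [max_eq_right h2, ENNReal.ofReal_zero, ENNReal.zero_rpow_of_pos hq, mul_zero]
      exact zero_le
  refine (setLIntegral_mono' measurableSet_Ioi h1).trans ?_
  rw [lintegral_indicator measurableSet_Ioo, Measure.restrict_restrict measurableSet_Ioo]
  have hinter : Ioo 0 (y / β) ∩ Ioi 0 = Ioo 0 (y / β) := by
    ext t
    simp only [mem_inter_iff, mem_Ioo, mem_Ioi]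
    tauto
  rw [hinter, lintegral_mul_const' _ _ (ENNReal.rpow_ne_top_of_nonneg hq.le ENNReal.ofReal_ne_top),
    head (div_nonneg hy hβ.le) (by linarith), ENNReal.ofReal_rpow_of_nonneg hy hq.le,
    ENNReal.ofReal_rpow_of_nonneg hy (by linarith), ← ENNReal.ofReal_mul, ← ENNReal.ofReal_mul]
  · apply le_of_eq
    congr 1
    rcases hy.eq_or_lt with h0 | h0
    · rw [← h0, zero_div, Real.zero_rpow (by linarith), Real.zero_rpow hq.ne',
        Real.zero_rpow (by linarith)]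
      simp
    · rw [Real.div_rpow hy hβ.le, show q - p = -(p - q) by ring, Real.rpow_neg hβ.le,
        show y ^ p = y ^ (p - q) * y ^ q by rw [← Real.rpow_add h0]; congr 1; ring]
      field_simp
  · have : 0 < p - q := by linarith
    positivity
  · have : 0 < p - q := by linarith
    positivity

/-- The contribution of the small values. -/
theorem lower {p β y : ℝ} (hp : 0 < p) (hp2 : p < 2) (hβ : 0 < β) (hy : 0 ≤ y) :
    ∫⁻ t in Ioi (0 : ℝ), ENNReal.ofReal (t ^ (p - 3)) * ENNReal.ofReal (min y (β * t)) ^ (2 : ℝ) ≤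
      ENNReal.ofReal (β ^ (2 - p) * (1 / p + 1 / (2 - p))) * ENNReal.ofReal y ^ p := by
  rcases hy.eq_or_lt with h0 | h0
  · have : ∀ t ∈ Ioi (0 : ℝ), ENNReal.ofReal (t ^ (p - 3)) *
        ENNReal.ofReal (min y (β * t)) ^ (2 : ℝ) ≤ 0 := by
      intro t ht
      rw [← h0, min_eq_left (mul_nonneg hβ.le (le_of_lt ht))]
      simp
    refine (setLIntegral_mono' measurableSet_Ioi this).trans ?_
    simp
  set a := y / β with ha
  have ha0 : 0 < a := div_pos h0 hβ
  have hsplit : Ioi (0 : ℝ) ⊆ Ioo 0 a ∪ ({a} ∪ Ioi a) := by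
    intro t ht
    rcases lt_trichotomy t a with h | h | h
    · exact Or.inl ⟨ht, h⟩
    · exact Or.inr (Or.inl h)
    · exact Or.inr (Or.inr h)
  have hA : ∫⁻ t in Ioo 0 a, ENNReal.ofReal (t ^ (p - 3)) *
      ENNReal.ofReal (min y (β * t)) ^ (2 : ℝ) ≤ ENNReal.ofReal (β ^ (2 - p) / p * y ^ p) := by
    have h1 : ∀ t ∈ Ioo 0 a, ENNReal.ofReal (t ^ (p - 3)) *
        ENNReal.ofReal (min y (β * t)) ^ (2 : ℝ) ≤
        ENNReal.ofReal (β ^ 2) * ENNReal.ofReal (t ^ (p - 1)) := by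
      intro t ht
      have ht0 : 0 < t := ht.1
      have h2 : min y (β * t) ≤ β * t := min_le_right _ _
      calc ENNReal.ofReal (t ^ (p - 3)) * ENNReal.ofReal (min y (β * t)) ^ (2 : ℝ)
          ≤ ENNReal.ofReal (t ^ (p - 3)) * ENNReal.ofReal (β * t) ^ (2 : ℝ) := by gcongr
        _ = ENNReal.ofReal (β ^ 2) * ENNReal.ofReal (t ^ (p - 1)) := by
            rw [ENNReal.ofReal_rpow_of_nonneg (by positivity) (by norm_num),
              ← ENNReal.ofReal_mul (by positivity), ← ENNReal.ofReal_mul (by positivity)]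
            congr 1
            rw [show p - 1 = (p - 3) + 2 by ring, Real.rpow_add ht0]
            norm_num
            ring
    refine (setLIntegral_mono' measurableSet_Ioo h1).trans ?_
    rw [lintegral_const_mul' _ _ ENNReal.ofReal_ne_top, head ha0.le hp,
      ← ENNReal.ofReal_mul (by positivity)]
    apply le_of_eq
    congr 1
    rw [ha, Real.div_rpow h0.le hβ.le, Real.rpow_sub hβ]
    norm_num
    field_simp
  have hB : ∫⁻ t in Ioi a, ENNReal.ofReal (t ^ (p - 3)) *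
      ENNReal.ofReal (min y (β * t)) ^ (2 : ℝ) ≤
      ENNReal.ofReal (β ^ (2 - p) / (2 - p) * y ^ p) := by
    have h1 : ∀ t ∈ Ioi a, ENNReal.ofReal (t ^ (p - 3)) *
        ENNReal.ofReal (min y (β * t)) ^ (2 : ℝ) ≤
        ENNReal.ofReal (y ^ 2) * ENNReal.ofReal (t ^ (-(2 - p) - 1)) := by
      intro t ht
      have ht0 : 0 < t := ha0.trans ht
      have h2 : min y (β * t) ≤ y := min_le_left _ _
      calc ENNReal.ofReal (t ^ (p - 3)) * ENNReal.ofReal (min y (β * t)) ^ (2 : ℝ)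
          ≤ ENNReal.ofReal (t ^ (p - 3)) * ENNReal.ofReal y ^ (2 : ℝ) := by gcongr
        _ = ENNReal.ofReal (y ^ 2) * ENNReal.ofReal (t ^ (-(2 - p) - 1)) := by
            rw [ENNReal.ofReal_rpow_of_nonneg (by positivity) (by norm_num), mul_comm]
            norm_num
            congr 2
            ring_nf
    refine (setLIntegral_mono' measurableSet_Ioi h1).trans ?_
    rw [lintegral_const_mul' _ _ ENNReal.ofReal_ne_top, tail ha0 (by linarith),
      ← ENNReal.ofReal_mul (by positivity)]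
    apply le_of_eq
    congr 1
    have h2p : 2 - p ≠ 0 := by linarith
    rw [ha, Real.div_rpow h0.le hβ.le, Real.rpow_neg h0.le, Real.rpow_neg hβ.le,
      show y ^ p = y ^ (2 - (2 - p)) by congr 1; ring, Real.rpow_sub h0]
    norm_num
    field_simp
  have hpt : ∫⁻ t in ({a} : Set ℝ), ENNReal.ofReal (t ^ (p - 3)) *
      ENNReal.ofReal (min y (β * t)) ^ (2 : ℝ) = 0 := by
    rw [Measure.restrict_singleton]
    simp
  calc ∫⁻ t in Ioi (0 : ℝ), ENNReal.ofReal (t ^ (p - 3)) *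
        ENNReal.ofReal (min y (β * t)) ^ (2 : ℝ)
      ≤ ∫⁻ t in Ioo 0 a ∪ ({a} ∪ Ioi a), ENNReal.ofReal (t ^ (p - 3)) *
        ENNReal.ofReal (min y (β * t)) ^ (2 : ℝ) := lintegral_mono_set hsplit
    _ ≤ (∫⁻ t in Ioo 0 a, ENNReal.ofReal (t ^ (p - 3)) *
          ENNReal.ofReal (min y (β * t)) ^ (2 : ℝ)) +
        ((∫⁻ t in ({a} : Set ℝ), ENNReal.ofReal (t ^ (p - 3)) *
          ENNReal.ofReal (min y (β * t)) ^ (2 : ℝ)) +
        ∫⁻ t in Ioi a, ENNReal.ofReal (t ^ (p - 3)) *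
          ENNReal.ofReal (min y (β * t)) ^ (2 : ℝ)) := by
        refine (lintegral_union_le _ _ _).trans ?_
        gcongr
        exact lintegral_union_le _ _ _
    _ ≤ ENNReal.ofReal (β ^ (2 - p) / p * y ^ p) +
        (0 + ENNReal.ofReal (β ^ (2 - p) / (2 - p) * y ^ p)) := by
        rw [hpt]
        gcongr
    _ = ENNReal.ofReal (β ^ (2 - p) * (1 / p + 1 / (2 - p))) * ENNReal.ofReal y ^ p := by
        have h2p : 0 < 2 - p := by linarith
        rw [zero_add, ← ENNReal.ofReal_add (by positivity) (by positivity),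
          ENNReal.ofReal_rpow_of_nonneg hy hp.le, ← ENNReal.ofReal_mul (by positivity)]
        congr 1
        ring

/-- Chebyshev's inequality for the super level sets. -/
theorem cheb (μ : Measure α) {f : α → ℝ≥0∞} (hf : Measurable f) {t q : ℝ} (ht : 0 < t)
    (hq : 0 < q) :
    μ {x | ENNReal.ofReal t < f x} ≤ ENNReal.ofReal (t ^ (-q)) * ∫⁻ x, f x ^ q ∂μ := by
  have h1 := mul_meas_ge_le_lintegral (μ := μ) (hf.pow_const q) (ENNReal.ofReal t ^ q)
  have h2 : ENNReal.ofReal t ^ q ≠ 0 := by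
    rw [ENNReal.ofReal_rpow_of_pos ht]
    exact (ENNReal.ofReal_pos.2 (Real.rpow_pos_of_pos ht q)).ne'
  have h3 : ENNReal.ofReal t ^ q ≠ ∞ := ENNReal.rpow_ne_top_of_nonneg hq.le ENNReal.ofReal_ne_top
  have h4 : μ {x | ENNReal.ofReal t < f x} ≤ μ {x | ENNReal.ofReal t ^ q ≤ f x ^ q} := by
    refine measure_mono fun x hx => ?_
    have hx' : ENNReal.ofReal t < f x := hx
    show ENNReal.ofReal t ^ q ≤ f x ^ q
    exact ENNReal.rpow_le_rpow hx'.le hq.le
  refine h4.trans ?_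
  have h5 : ENNReal.ofReal (t ^ (-q)) = (ENNReal.ofReal t ^ q)⁻¹ := by
    rw [ENNReal.ofReal_rpow_of_pos ht, ← ENNReal.ofReal_inv_of_pos (Real.rpow_pos_of_pos ht q),
      Real.rpow_neg ht.le]
  rw [h5]
  calc μ {x | ENNReal.ofReal t ^ q ≤ f x ^ q}
      = (ENNReal.ofReal t ^ q)⁻¹ * (ENNReal.ofReal t ^ q * μ {x | ENNReal.ofReal t ^ q ≤ f x ^ q}) := by
        rw [← mul_assoc, ENNReal.inv_mul_cancel h2 h3, one_mul]
    _ ≤ (ENNReal.ofReal t ^ q)⁻¹ * ∫⁻ x, f x ^ q ∂μ := by gcongr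

end Pool.Agent.MP_bb1b7e.LC
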