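import Pool.Agent.Lib.MP_bb1b7e_an.Spec
import Pool.Agent.Lib.MP_bb1b7e_an.LayerCake

/-!
# Module BIG: from `L²` to `L^p`, `p ≥ 2`
-/

namespace Pool.Agent.MP_bb1b7e

open MeasureTheory Set
open scoped ENNReal NNReal

namespace Big

variable {n : ℕ}

/-- The truncation of `|f|` at height `c`. -/
noncomputable def cut (f : E n → ℂ) (c : ℝ) (y : E n) : ℂ := ((max (‖f y‖ - c) 0 : ℝ) : ℂ)

theorem cut_cc {f : E n → ℂ} (hf : Cc f) {c : ℝ} (hc : 0 ≤ c) : Cc (cut f c) := by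
  refine ⟨?_, ?_⟩
  · have := hf.1
    unfold cut
    fun_prop
  · have : HasCompactSupport ((fun z : ℂ => ((max (‖z‖ - c) 0 : ℝ) : ℂ)) ∘ f) := by
      refine hf.2.comp_left ?_
      simp [hc]
    exact this

theorem enorm_cut (f : E n → ℂ) (c : ℝ) (y : E n) :
    ‖cut f c y‖ₑ = ENNReal.ofReal (max (‖f y‖ - c) 0) := by
  unfold cut
  rw [← ofReal_norm, Complex.norm_real, Real.norm_of_nonneg (le_max_right _ _)]

theorem continuous_shift (r : Fin n → ℝ) (x : E n) :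
    Continuous fun ω : Metric.sphere (0 : E n) 1 => x - dil r ω := by
  refine continuous_const.sub ?_
  unfold dil
  refine (PiLp.continuous_toLp 2 _).comp ?_
  fun_prop

theorem integrable_shift {f : E n → ℂ} (hf : Cc f) (r : Fin n → ℝ) (x : E n) :
    Integrable (fun ω : Metric.sphere (0 : E n) 1 => f (x - dil r ω))
      (volume : Measure (E n)).toSphere := by
  obtain ⟨B, hB⟩ := hf.1.bounded_above_of_compact_support hf.2
  refine Integrable.of_bound (hf.1.comp (continuous_shift r x)).aestronglyMeasurable B ?_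
  exact Filter.Eventually.of_forall fun ω => hB _

/-- The means of `f` are controlled by the means of its truncation. -/
theorem enorm_ellMean_le {f : E n → ℂ} (hf : Cc f) {c : ℝ} (hc : 0 ≤ c) (r : Fin n → ℝ)
    (x : E n) : ‖ellMean r f x‖ₑ ≤ ‖ellMean r (cut f c) x‖ₑ + ENNReal.ofReal c := by
  set μ := (volume : Measure (E n)).toSphere with hμ
  have hcut := cut_cc hf hc
  have h1 : ‖ellMean r f x‖ ≤ (μ.real univ)⁻¹ * ∫ ω, ‖f (x - dil r ω)‖ ∂μ := by
    unfold ellMean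
    rw [average_eq, norm_smul, norm_inv, Real.norm_of_nonneg measureReal_nonneg]
    gcongr
    exact norm_integral_le_integral_norm _
  have h2 : ∫ ω, ‖f (x - dil r ω)‖ ∂μ ≤ ∫ ω, (max (‖f (x - dil r ω)‖ - c) 0 + c) ∂μ := by
    have hi := (integrable_shift hcut r x).norm
    have hi' : Integrable (fun ω : Metric.sphere (0 : E n) 1 => max (‖f (x - dil r ω)‖ - c) 0) μ := by
      refine hi.congr (Filter.Eventually.of_forall fun ω => ?_)
      unfold cut
      beta_reduce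
      rw [Complex.norm_real, Real.norm_of_nonneg (le_max_right _ _)]
    refine integral_mono (integrable_shift hf r x).norm (hi'.add (integrable_const c)) fun ω => ?_
    have := le_max_left (‖f (x - dil r ω)‖ - c) 0
    simp only
    linarith
  have hi' : Integrable (fun ω : Metric.sphere (0 : E n) 1 => max (‖f (x - dil r ω)‖ - c) 0) μ := by
    refine ((integrable_shift hcut r x).norm).congr (Filter.Eventually.of_forall fun ω => ?_)
    unfold cut
    beta_reduce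
    rw [Complex.norm_real, Real.norm_of_nonneg (le_max_right _ _)]
  have h3 : ∫ ω, (max (‖f (x - dil r ω)‖ - c) 0 + c) ∂μ =
      (∫ ω, max (‖f (x - dil r ω)‖ - c) 0 ∂μ) + μ.real univ * c := by
    rw [integral_add hi' (integrable_const c), integral_const, smul_eq_mul]
  have h4 : ‖ellMean r (cut f c) x‖ = (μ.real univ)⁻¹ * ∫ ω, max (‖f (x - dil r ω)‖ - c) 0 ∂μ := by
    unfold ellMean cut
    rw [average_eq, norm_smul, norm_inv, Real.norm_of_nonneg measureReal_nonneg]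
    beta_reduce
    rw [integral_complex_ofReal, Complex.norm_real, Real.norm_of_nonneg]
    exact integral_nonneg fun ω => le_max_right _ _
  have h5 : (μ.real univ)⁻¹ * (μ.real univ * c) ≤ c := by
    rcases eq_or_ne (μ.real univ) 0 with h0 | h0
    · rw [h0]; simpa using hc
    · rw [← mul_assoc, inv_mul_cancel₀ h0, one_mul]
  have h6 : ‖ellMean r f x‖ ≤ ‖ellMean r (cut f c) x‖ + c := by
    rw [h4]
    calc ‖ellMean r f x‖ ≤ (μ.real univ)⁻¹ * ∫ ω, ‖f (x - dil r ω)‖ ∂μ := h1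
      _ ≤ (μ.real univ)⁻¹ * ((∫ ω, max (‖f (x - dil r ω)‖ - c) 0 ∂μ) + μ.real univ * c) := by
          rw [← h3]
          gcongr
      _ = (μ.real univ)⁻¹ * (∫ ω, max (‖f (x - dil r ω)‖ - c) 0 ∂μ) +
            (μ.real univ)⁻¹ * (μ.real univ * c) := mul_add _ _ _
      _ ≤ _ := by gcongr
  rw [← ofReal_norm, ← ofReal_norm, ← ENNReal.ofReal_add (norm_nonneg _) hc]
  exact ENNReal.ofReal_le_ofReal h6

theorem Mst_le {f : E n → ℂ} (hf : Cc f) {c : ℝ} (hc : 0 ≤ c) (x : E n) :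
    Mst f x ≤ Mst (cut f c) x + ENNReal.ofReal c := by
  refine iSup_le fun r => (enorm_ellMean_le hf hc r.1 x).trans ?_
  gcongr
  exact le_iSup (fun r : {r : Fin n → ℝ // ∀ i, 0 < r i} => ‖ellMean r.1 (cut f c) x‖ₑ) r

theorem measurable_Mst (hCont : SpecCont) {f : E n → ℂ} (hf : Cc f) : Measurable (Mst f) := by
  obtain ⟨h1, h2⟩ := hCont n f hf
  have h3 : Mst f = fun x => ⨆ r : {r : Fin n → ℚ // ∀ i, 0 < r i},
      ‖ellMean (fun i => (r.1 i : ℝ)) f x‖ₑ := funext h2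
  rw [h3]
  exact Measurable.iSup fun r => (h1 _).enorm.measurable

theorem lintegral_lt_top {f : E n → ℂ} (hf : Cc f) {q : ℝ} (hq : 0 < q) :
    ∫⁻ x, ‖f x‖ₑ ^ q < ∞ := by
  have h1 : Continuous fun x => ‖f x‖ ^ q := hf.1.norm.rpow_const fun x => Or.inr hq.le
  have h2 : HasCompactSupport ((fun z : ℂ => ‖z‖ ^ q) ∘ f) := by
    refine hf.2.comp_left ?_
    rw [norm_zero, Real.zero_rpow hq.ne']
  have h3 : Integrable (fun x => ‖f x‖ ^ q) := h1.integrable_of_hasCompactSupport h2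
  have h4 : ∫⁻ x, ‖f x‖ₑ ^ q = ∫⁻ x, ENNReal.ofReal (‖f x‖ ^ q) := by
    refine lintegral_congr fun x => ?_
    rw [← ofReal_norm, ENNReal.ofReal_rpow_of_nonneg (norm_nonneg _) hq.le]
  rw [h4]
  exact h3.lintegral_lt_top

end Big

open Big in
/-- Module BIG. -/
theorem specBig (hCont : SpecCont) : SpecBig := by
  intro n _ hbd p hp
  rcases hp.eq_or_lt with h | hp2
  · rw [← h]; exact hbd
  obtain ⟨C, hC⟩ := hbd
  have hp0 : 0 < p := by linarith
  have hp2' : 0 < p - 2 := by linarith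
  -- the square of the inequality in `L²`
  have hsq : ∀ f : E n → ℂ, Cc f →
      ∫⁻ x, Mst f x ^ (2 : ℝ) ≤ (C : ℝ≥0∞) ^ (2 : ℝ) * ∫⁻ x, ‖f x‖ₑ ^ (2 : ℝ) := by
    intro f hf
    have h1 := ENNReal.rpow_le_rpow (hC f hf.1 hf.2) (by norm_num : (0 : ℝ) ≤ 2)
    rw [ENNReal.mul_rpow_of_nonneg _ _ (by norm_num : (0 : ℝ) ≤ 2), ← ENNReal.rpow_mul,
      ← ENNReal.rpow_mul] at h1
    norm_num at h1
    simpa using h1
  set K : ℝ := p * (4 * (C : ℝ) ^ (2 : ℝ) * ((1 / 2) ^ (2 - p) / (p - 2))) with hK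
  have hK0 : 0 ≤ K := by positivity
  refine ⟨(Real.toNNReal K) ^ (1 / p), fun f hf1 hf2 => ?_⟩
  have hf : Cc f := ⟨hf1, hf2⟩
  have hfin : ∀ᵐ x, Mst f x < ∞ := by
    have h1 : ∫⁻ x, Mst f x ^ (2 : ℝ) ≠ ∞ := by
      refine ((hsq f hf).trans_lt ?_).ne
      exact ENNReal.mul_lt_top (ENNReal.rpow_lt_top_of_nonneg (by norm_num) ENNReal.coe_ne_top)
        (lintegral_lt_top hf (by norm_num))
    filter_upwards [ae_lt_top ((measurable_Mst hCont hf).pow_const _) h1] with x hx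
    by_contra hcon
    rw [not_lt, top_le_iff] at hcon
    rw [hcon, ENNReal.top_rpow_of_pos (by norm_num)] at hx
    exact lt_irrefl _ hx
  have hlevel : ∀ t : ℝ, 0 < t →
      volume {x | ENNReal.ofReal t < Mst f x} * ENNReal.ofReal (t ^ (p - 1)) ≤
      ENNReal.ofReal 4 * (C : ℝ≥0∞) ^ (2 : ℝ) * ∫⁻ x, ENNReal.ofReal (t ^ (p - 2 - 1)) *
        ENNReal.ofReal (max (‖f x‖ - 1 / 2 * t) 0) ^ (2 : ℝ) := by
    intro t ht
    have hc : 0 ≤ t / 2 := by positivity
    have hcut := cut_cc hf hc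
    have hsub : {x | ENNReal.ofReal t < Mst f x} ⊆
        {x | ENNReal.ofReal (t / 2) < Mst (cut f (t / 2)) x} := by
      intro x hx
      have hx' : ENNReal.ofReal t < Mst f x := hx
      show ENNReal.ofReal (t / 2) < Mst (cut f (t / 2)) x
      by_contra hcon
      have h1 : Mst f x ≤ ENNReal.ofReal (t / 2) + ENNReal.ofReal (t / 2) :=
        (Mst_le hf hc x).trans (by gcongr; exact not_lt.1 hcon)
      rw [← ENNReal.ofReal_add hc hc, add_halves] at h1
      exact absurd hx' (not_lt.2 h1)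
    have h1 := LC.cheb volume (measurable_Mst hCont hcut) (half_pos ht)
      (by norm_num : (0 : ℝ) < 2)
    have h2 : volume {x | ENNReal.ofReal t < Mst f x} ≤ ENNReal.ofReal ((t / 2) ^ (-2 : ℝ)) *
        ((C : ℝ≥0∞) ^ (2 : ℝ) * ∫⁻ x, ENNReal.ofReal (max (‖f x‖ - 1 / 2 * t) 0) ^ (2 : ℝ)) := by
      refine (measure_mono hsub).trans (h1.trans ?_)
      gcongr
      refine (hsq _ hcut).trans (le_of_eq ?_)
      congr 1
      refine lintegral_congr fun x => ?_
      rw [enorm_cut]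
      congr 4
      ring
    calc volume {x | ENNReal.ofReal t < Mst f x} * ENNReal.ofReal (t ^ (p - 1))
        ≤ (ENNReal.ofReal ((t / 2) ^ (-2 : ℝ)) * ((C : ℝ≥0∞) ^ (2 : ℝ) *
            ∫⁻ x, ENNReal.ofReal (max (‖f x‖ - 1 / 2 * t) 0) ^ (2 : ℝ))) *
          ENNReal.ofReal (t ^ (p - 1)) := by gcongr
      _ = (ENNReal.ofReal ((t / 2) ^ (-2 : ℝ)) * ENNReal.ofReal (t ^ (p - 1))) *
          ((C : ℝ≥0∞) ^ (2 : ℝ) *
            ∫⁻ x, ENNReal.ofReal (max (‖f x‖ - 1 / 2 * t) 0) ^ (2 : ℝ)) := by ring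
      _ = (ENNReal.ofReal 4 * ENNReal.ofReal (t ^ (p - 2 - 1))) *
          ((C : ℝ≥0∞) ^ (2 : ℝ) *
            ∫⁻ x, ENNReal.ofReal (max (‖f x‖ - 1 / 2 * t) 0) ^ (2 : ℝ)) := by
          congr 1
          rw [← ENNReal.ofReal_mul (by positivity), ← ENNReal.ofReal_mul (by positivity)]
          congr 1
          rw [Real.div_rpow ht.le (by norm_num), Real.rpow_neg (by norm_num : (0 : ℝ) ≤ 2),
            show p - 2 - 1 = -2 + (p - 1) by ring, Real.rpow_add ht]
          norm_num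
          field_simp
      _ = _ := by
          rw [lintegral_const_mul' _ _ ENNReal.ofReal_ne_top]
          ring
  have hswap : ∫⁻ t in Ioi (0 : ℝ), ∫⁻ x, ENNReal.ofReal (t ^ (p - 2 - 1)) *
        ENNReal.ofReal (max (‖f x‖ - 1 / 2 * t) 0) ^ (2 : ℝ) ≤
      ENNReal.ofReal ((1 / 2) ^ (2 - p) / (p - 2)) * ∫⁻ x, ENNReal.ofReal ‖f x‖ ^ p := by
    have hfm : Measurable f := hf1.measurable
    rw [lintegral_lintegral_swap (by fun_prop)]
    rw [← lintegral_const_mul' _ _ ENNReal.ofReal_ne_top]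
    exact lintegral_mono fun x => LC.upper (by norm_num) hp2 (by norm_num) (norm_nonneg _)
  have hmain : ∫⁻ x, Mst f x ^ p ≤ ENNReal.ofReal K * ∫⁻ x, ‖f x‖ₑ ^ p := by
    calc ∫⁻ x, Mst f x ^ p
        ≤ ENNReal.ofReal p * ∫⁻ t in Ioi (0 : ℝ),
            volume {x | ENNReal.ofReal t < Mst f x} * ENNReal.ofReal (t ^ (p - 1)) :=
          LC.lc_le volume (measurable_Mst hCont hf) hfin hp0
      _ ≤ ENNReal.ofReal p * ∫⁻ t in Ioi (0 : ℝ),
            ENNReal.ofReal 4 * (C : ℝ≥0∞) ^ (2 : ℝ) * ∫⁻ x, ENNReal.ofReal (t ^ (p - 2 - 1)) *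
              ENNReal.ofReal (max (‖f x‖ - 1 / 2 * t) 0) ^ (2 : ℝ) := by
          gcongr ENNReal.ofReal p * ?_
          exact setLIntegral_mono' measurableSet_Ioi fun t ht => hlevel t ht
      _ = ENNReal.ofReal p * (ENNReal.ofReal 4 * (C : ℝ≥0∞) ^ (2 : ℝ) *
            ∫⁻ t in Ioi (0 : ℝ), ∫⁻ x, ENNReal.ofReal (t ^ (p - 2 - 1)) *
              ENNReal.ofReal (max (‖f x‖ - 1 / 2 * t) 0) ^ (2 : ℝ)) := by
          rw [lintegral_const_mul' _ _ (ENNReal.mul_ne_top ENNReal.ofReal_ne_top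
            (ENNReal.rpow_ne_top_of_nonneg (by norm_num) ENNReal.coe_ne_top))]
      _ ≤ ENNReal.ofReal p * (ENNReal.ofReal 4 * (C : ℝ≥0∞) ^ (2 : ℝ) *
            (ENNReal.ofReal ((1 / 2) ^ (2 - p) / (p - 2)) * ∫⁻ x, ENNReal.ofReal ‖f x‖ ^ p)) := by
          gcongr
      _ = ENNReal.ofReal K * ∫⁻ x, ‖f x‖ₑ ^ p := by
          have e1 : (C : ℝ≥0∞) ^ (2 : ℝ) = ENNReal.ofReal ((C : ℝ) ^ (2 : ℝ)) := by
            rw [← ENNReal.ofReal_rpow_of_nonneg (NNReal.coe_nonneg C) (by norm_num),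
              ENNReal.ofReal_coe_nnreal]
          rw [e1, ← mul_assoc, ← mul_assoc, ← ENNReal.ofReal_mul (by positivity),
            ← ENNReal.ofReal_mul (by positivity), ← ENNReal.ofReal_mul (by positivity)]
          congr 1
          · congr 1
            rw [hK]
            ring
          · refine lintegral_congr fun x => ?_
            rw [ofReal_norm]
  calc (∫⁻ x, Mst f x ^ p) ^ (1 / p)
      ≤ (ENNReal.ofReal K * ∫⁻ x, ‖f x‖ₑ ^ p) ^ (1 / p) :=
        ENNReal.rpow_le_rpow hmain (by positivity)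
    _ = _ := by
        rw [ENNReal.mul_rpow_of_nonneg _ _ (by positivity)]
        congr 1
        rw [ENNReal.ofReal, ENNReal.coe_rpow_of_nonneg _ (by positivity)]

end Pool.Agent.MP_bb1b7e
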