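import Pool.Agent.Lib.MP_bb1b7e_an.Spec

/-!
# Module CONT: rational half-lengths suffice
-/

namespace Pool.Agent.MP_bb1b7e

open MeasureTheory
open scoped ENNReal NNReal

namespace ContM

theorem continuous_dil (n : ℕ) (ω : E n) : Continuous fun r : Fin n → ℝ => dil r ω := by
  unfold dil
  refine (PiLp.continuous_toLp 2 _).comp ?_
  fun_prop

theorem continuous_dil' (n : ℕ) (r : Fin n → ℝ) : Continuous fun ω : E n => dil r ω := by
  unfold dil
  refine (PiLp.continuous_toLp 2 _).comp ?_
  fun_prop

theorem continuous_ellMean {n : ℕ} {f : E n → ℂ} (hf : Cc f) :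
    Continuous fun p : (Fin n → ℝ) × E n => ellMean p.1 f p.2 := by
  obtain ⟨hc, hs⟩ := hf
  obtain ⟨B, hB⟩ := hc.bounded_above_of_compact_support hs
  simp only [ellMean, average_eq]
  refine Continuous.const_smul ?_ _
  refine continuous_of_dominated (bound := fun _ => B) ?_ ?_ ?_ ?_
  · intro p
    refine Continuous.aestronglyMeasurable ?_
    exact hc.comp (continuous_const.sub ((continuous_dil' n p.1).comp continuous_subtype_val))
  · intro p
    exact Filter.Eventually.of_forall fun ω => hB _
  · exact integrable_const _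
  · refine Filter.Eventually.of_forall fun ω => ?_
    exact hc.comp (continuous_snd.sub ((continuous_dil n ω).comp continuous_fst))

end ContM

open ContM

/-- Module CONT. -/
theorem specCont : SpecCont := by
  intro n f hf
  have h := continuous_ellMean hf
  refine ⟨fun r => h.comp (Continuous.prodMk continuous_const continuous_id), fun x => ?_⟩
  have hx : Continuous fun r : Fin n → ℝ => ‖ellMean r f x‖ₑ :=
    (h.comp (Continuous.prodMk continuous_id continuous_const)).enorm
  refine le_antisymm ?_ ?_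
  · set S : ℝ≥0∞ := ⨆ r : {r : Fin n → ℚ // ∀ i, 0 < r i}, ‖ellMean (fun i => (r.1 i : ℝ)) f x‖ₑ
      with hS
    refine iSup_le fun r => ?_
    have hcl : IsClosed {r : Fin n → ℝ | ‖ellMean r f x‖ₑ ≤ S} := isClosed_le hx continuous_const
    have hopen : IsOpen {r : Fin n → ℝ | ∀ i, 0 < r i} := by
      rw [Set.ofPred_forall]
      exact isOpen_iInter_of_finite fun i => isOpen_lt continuous_const (continuous_apply i)
    have hd : Dense (Set.range fun (r : Fin n → ℚ) (i : Fin n) => (r i : ℝ)) := by
      have h1 : DenseRange fun (r : Fin n → ℚ) (i : Fin n) => (r i : ℝ) :=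
        DenseRange.piMap fun _ => Rat.denseRange_cast
      exact h1
    have h2 := hd.open_subset_closure_inter hopen
    have h3 : {r : Fin n → ℝ | ∀ i, 0 < r i} ∩
        Set.range (fun (r : Fin n → ℚ) (i : Fin n) => (r i : ℝ)) ⊆
          {r : Fin n → ℝ | ‖ellMean r f x‖ₑ ≤ S} := by
      rintro _ ⟨hpos, r, rfl⟩
      refine le_iSup (fun r : {r : Fin n → ℚ // ∀ i, 0 < r i} =>
        ‖ellMean (fun i => (r.1 i : ℝ)) f x‖ₑ) ⟨r, fun i => ?_⟩
      have h4 : (0 : ℝ) < (r i : ℝ) := hpos i
      exact_mod_cast h4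
    exact hcl.closure_subset_iff.2 h3 (h2 r.2)
  · refine iSup_le fun r => ?_
    exact le_iSup (fun r : {r : Fin n → ℝ // ∀ i, 0 < r i} => ‖ellMean r.1 f x‖ₑ)
      ⟨fun i => (r.1 i : ℝ), fun i => Rat.cast_pos.2 (r.2 i)⟩

end Pool.Agent.MP_bb1b7e
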