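import Pool.Agent.Lib.MP_bb1b7e_an.Spec

set_option linter.all false

/-!
# The strong spherical maximal function: module DT
-/

namespace Pool.Agent.MP_bb1b7e

open MeasureTheory
open scoped ENNReal NNReal Convolution

namespace DT

/-! ### Products on `ℝ^ι` -/

theorem lintegral_fin_prod : ∀ {n : ℕ} (f : Fin n → ℝ → ℝ≥0∞), (∀ i, Measurable (f i)) →
    ∫⁻ x : Fin n → ℝ, ∏ i, f i (x i) = ∏ i, ∫⁻ x, f i x := by
  intro n
  induction n with
  | zero =>
    intro f _
    simp [volume_pi]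
  | succ n ih =>
    intro f hf
    have hm := (volume_preserving_piFinSuccAbove (fun _ : Fin (n + 1) => ℝ) 0).symm
    rw [← hm.lintegral_comp_emb (MeasurableEquiv.measurableEmbedding _)]
    have : ∀ z : ℝ × (Fin n → ℝ),
        ∏ i, f i (((MeasurableEquiv.piFinSuccAbove (fun _ : Fin (n + 1) => ℝ) 0).symm z) i)
          = f 0 z.1 * ∏ i, f i.succ (z.2 i) := by
      intro z
      rw [Fin.prod_univ_succ]
      rfl
    simp_rw [this]
    have hmeas : Measurable fun y : Fin n → ℝ => ∏ i, f i.succ (y i) :=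
      Finset.measurable_prod _ fun i _ => (hf i.succ).comp (measurable_pi_apply i)
    rw [Measure.volume_eq_prod, lintegral_prod_mul (f := f 0)
      (g := fun y : Fin n → ℝ => ∏ i, f i.succ (y i)) (hf 0).aemeasurable
      hmeas.aemeasurable, ih _ (fun i => hf _), Fin.prod_univ_succ]

theorem lintegral_prod' {ι : Type} [Fintype ι] (f : ι → ℝ → ℝ≥0∞) (hf : ∀ i, Measurable (f i)) :
    ∫⁻ x : ι → ℝ, ∏ i, f i (x i) = ∏ i, ∫⁻ x, f i x := by
  classical
  let e := (Fintype.equivFin ι).symm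
  have hm := volume_measurePreserving_piCongrLeft (fun _ : ι => ℝ) e
  rw [← hm.lintegral_comp_emb (MeasurableEquiv.measurableEmbedding _)]
  simp_rw [← e.prod_comp, MeasurableEquiv.coe_piCongrLeft, Equiv.piCongrLeft_apply_apply]
  exact lintegral_fin_prod _ fun i => hf _

section

variable {ι : Type} [Fintype ι]

theorem gop_eq (φ : ι → ℝ → ℂ) (g : (ι → ℝ) → ℂ) :
    gop φ g = (fun y : ι → ℝ => ∏ i, φ i (y i)) ⋆[ContinuousLinearMap.mul ℝ ℂ, volume] g := rfl

theorem Cc.bdd {g : (ι → ℝ) → ℂ} (hg : Cc g) : ∃ B : ℝ, 0 ≤ B ∧ ∀ x, ‖g x‖ ≤ B := by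
  obtain ⟨B, hB⟩ := hg.1.bounded_above_of_compact_support hg.2
  exact ⟨B, le_trans (norm_nonneg _) (hB 0), hB⟩

theorem conv_bound {Φ : (ι → ℝ) → ℂ} (hΦ : Integrable Φ) {g : (ι → ℝ) → ℂ} {B : ℝ}
    (hB : ∀ x, ‖g x‖ ≤ B) (x : ι → ℝ) :
    ‖∫ y, Φ y * g (x - y)‖ ≤ B * ∫ y, ‖Φ y‖ := by
  rw [← integral_const_mul]
  refine norm_integral_le_of_norm_le (hΦ.norm.const_mul _) (Filter.Eventually.of_forall fun y => ?_)
  rw [norm_mul, mul_comm]
  exact mul_le_mul_of_nonneg_right (hB _) (norm_nonneg _)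

theorem prod_integrable {φ : ι → ℝ → ℂ} (hφ : ∀ i, Integrable (φ i)) :
    Integrable (fun y : ι → ℝ => ∏ i, φ i (y i)) :=
  Integrable.fintype_prod hφ

theorem gop_continuous {φ : ι → ℝ → ℂ} (hφ : ∀ i, Integrable (φ i)) {g : (ι → ℝ) → ℂ}
    (hg : Cc g) : Continuous (gop φ g) := by
  rw [gop_eq]
  exact hg.2.continuous_convolution_right _ (prod_integrable hφ).locallyIntegrable hg.1

theorem gop_bdd {φ : ι → ℝ → ℂ} (hφ : ∀ i, Integrable (φ i)) {g : (ι → ℝ) → ℂ}
    (hg : Cc g) : ∃ B : ℝ, 0 ≤ B ∧ ∀ x, ‖gop φ g x‖ ≤ B := by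
  obtain ⟨B, hB0, hB⟩ := Cc.bdd hg
  exact ⟨B * ∫ y : ι → ℝ, ‖∏ i, φ i (y i)‖,
    mul_nonneg hB0 (integral_nonneg fun _ => norm_nonneg _),
    fun x => conv_bound (prod_integrable hφ) hB x⟩

theorem gop_comp {φ ψ : ι → ℝ → ℂ} (hφ : ∀ i, Integrable (φ i)) (hψ : ∀ i, Integrable (ψ i))
    {g : (ι → ℝ) → ℂ} (hg : Cc g) (x : ι → ℝ) :
    gop (fun i y => ∫ v, φ i (y - v) * ψ i v) g x = gop φ (gop ψ g) x := by
  have hΦ := prod_integrable hφ
  have hΨ := prod_integrable hψ
  have hgi : Integrable g := hg.1.integrable_of_hasCompactSupport hg.2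
  have e1 : (fun y : ι → ℝ => ∏ i, ∫ v, φ i (y i - v) * ψ i v) =
      (fun y : ι → ℝ => ∏ i, φ i (y i)) ⋆[ContinuousLinearMap.mul ℝ ℂ, volume]
        (fun y : ι → ℝ => ∏ i, ψ i (y i)) := by
    funext y
    rw [convolution_def]
    simp only [ContinuousLinearMap.mul_apply', ← Finset.prod_mul_distrib, Pi.sub_apply]
    rw [integral_fintype_prod_volume_eq_prod (fun i (v : ℝ) => φ i v * ψ i (y i - v))]
    refine Finset.prod_congr rfl fun i _ => ?_
    rw [← integral_sub_left_eq_self _ _ (y i)]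
    simp only [sub_sub_cancel]
  rw [gop_eq, e1, gop_eq, gop_eq]
  obtain ⟨B, hB0, hB⟩ := Cc.bdd hg
  apply convolution_assoc
  · intro a b c
    simp only [ContinuousLinearMap.mul_apply', mul_assoc]
  · exact hΦ.aestronglyMeasurable
  · exact hΨ.aestronglyMeasurable
  · exact hgi.aestronglyMeasurable
  · exact hΦ.ae_convolution_exists _ hΨ
  · exact hΨ.norm.ae_convolution_exists _ hgi.norm
  · apply BddAbove.convolutionExistsAt _ (s := Set.univ) _ MeasurableSet.univ (Set.subset_univ _)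
    · exact hΦ.norm.integrableOn
    · apply Continuous.aestronglyMeasurable
      exact hg.2.norm.continuous_convolution_right _ hΨ.norm.locallyIntegrable hg.1.norm
    · refine ⟨B * ∫ y : ι → ℝ, ‖∏ i, ψ i (y i)‖, ?_⟩
      rintro _ ⟨z, _, rfl⟩
      simp only [convolution_def, ContinuousLinearMap.mul_apply']
      rw [← integral_const_mul]
      refine norm_integral_le_of_norm_le (hΨ.norm.const_mul _)
        (Filter.Eventually.of_forall fun y => ?_)
      rw [norm_mul, norm_norm, norm_norm, mul_comm]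
      exact mul_le_mul_of_nonneg_right (hB _) (norm_nonneg _)

end

/-! ### One variable -/

theorem mu_norm (τ : ℝ) : 1 ≤ ‖mu τ‖ := by
  have : (mu τ).re = 1 := by simp [mu]
  rw [← this]
  exact Complex.re_le_norm _

theorem cc_pos (τ : ℝ) : 0 < cc τ := by
  have := mu_norm τ
  unfold cc
  positivity

theorem gauss_integrable {s c : ℝ} (hs : 0 < s) (hc : 0 < c) :
    Integrable fun y : ℝ => Real.exp (-(y / s) ^ 2 / c) := by
  have h := integrable_exp_neg_mul_sq (b := 1 / (s ^ 2 * c)) (by positivity)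
  refine h.congr (Filter.Eventually.of_forall fun y => ?_)
  simp only
  congr 1
  field_simp

theorem heat_integrable {c : ℝ} (hc : 0 < c) : Integrable (heat c) := by
  unfold heat
  apply Integrable.const_mul
  have h := integrable_exp_neg_mul_sq (b := 1 / (4 * c)) (by positivity)
  refine h.congr (Filter.Eventually.of_forall fun y => ?_)
  simp only
  congr 1
  field_simp

theorem hd_integrable {c : ℝ} (hc : 0 < c) (M : ℕ) (k : ℤ) : Integrable (hd c M k) := by
  unfold hd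
  apply Integrable.ofReal
  exact (heat_integrable (by positivity)).sub (heat_integrable (by positivity))

theorem G_integrable {C τ : ℝ} {G : ℝ → ℝ → ℂ} {K K' : ℤ → ℝ → ℝ≥0∞} (hC : 1 ≤ C)
    (h : Dec C τ G K K') {t : ℝ} (ht : 0 < t) : Integrable (G t) := by
  refine ((gauss_integrable ht (lt_of_lt_of_le one_pos hC)).const_mul (C * t⁻¹)).mono'
    (h.cont t ht).aestronglyMeasurable (Filter.Eventually.of_forall fun y => ?_)
  exact h.bound t ht y

/-- the bound for all `t` with the same logarithm -/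
theorem G_bound {C τ : ℝ} {G : ℝ → ℝ → ℂ} {K K' : ℤ → ℝ → ℝ≥0∞} (hC : 1 ≤ C)
    (h : Dec C τ G K K') {t : ℝ} (ht : 0 < t) (y : ℝ) :
    ‖G t y‖ ≤ C * ((2 : ℝ) ^ Int.log 2 t)⁻¹ *
      Real.exp (-(y / (2 : ℝ) ^ (Int.log 2 t + 1)) ^ 2 / C) := by
  have hC0 : 0 < C := lt_of_lt_of_le one_pos hC
  have h1 : (2 : ℝ) ^ Int.log 2 t ≤ t := by
    have := Int.zpow_log_le_self (b := 2) (r := t) (by norm_num) ht
    simpa using this
  have h2 : t ≤ (2 : ℝ) ^ (Int.log 2 t + 1) := by
    have := Int.lt_zpow_succ_log_self (b := 2) (by norm_num) t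
    exact_mod_cast this.le
  refine (h.bound t ht y).trans ?_
  have h3 : (0 : ℝ) < (2 : ℝ) ^ Int.log 2 t := by positivity
  have h4 : (0 : ℝ) < (2 : ℝ) ^ (Int.log 2 t + 1) := by positivity
  apply mul_le_mul
  · exact mul_le_mul_of_nonneg_left (inv_anti₀ h3 h1) hC0.le
  · apply Real.exp_le_exp.2
    rw [neg_div, neg_div, neg_le_neg_iff]
    apply div_le_div_of_nonneg_right _ hC0.le
    rw [div_pow, div_pow]
    apply div_le_div_of_nonneg_left (sq_nonneg _) (by positivity)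
    exact pow_le_pow_left₀ ht.le h2 2
  · exact (Real.exp_pos _).le
  · positivity

theorem enorm_prod' {ι : Type} (s : Finset ι) (z : ι → ℂ) : ‖∏ i ∈ s, z i‖ₑ = ∏ i ∈ s, ‖z i‖ₑ := by
  rw [← ofReal_norm_eq_enorm, norm_prod, ENNReal.ofReal_prod_of_nonneg fun i _ => norm_nonneg _]
  exact Finset.prod_congr rfl fun i _ => ofReal_norm_eq_enorm _

/-! ### The blocks -/

/-- the block of scales -/
noncomputable def kap {ι A : Type} (t : A → ι → ℝ) (a : A) : ι → ℤ := fun i => Int.log 2 (t a i)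

theorem block_le {ι A : Type} [Fintype ι] (t : A → ι → ℝ) (F : A → ℝ≥0∞) :
    (⨆ a, F a) ^ 2 ≤ ∑' κ : ι → ℤ, (⨆ a : {a // kap t a = κ}, F a) ^ 2 := by
  rw [ENNReal.iSup_pow_of_ne_zero two_ne_zero]
  apply iSup_le
  intro a
  refine le_trans ?_ (ENNReal.le_tsum (kap t a))
  exact pow_le_pow_left' (le_iSup (fun a' : {a' // kap t a' = kap t a} => F a') ⟨a, rfl⟩) 2

end DT

open Classical in
open DT in
/-- DT. -/
theorem specDT (hBL : SpecBL) (hH : SpecHeat) : SpecDT := by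
  intro C τ G K K' hC hdec ι _ F A _ t ht htF g hg
  have hC0 : 0 < C := lt_of_lt_of_le one_pos hC
  set c := cc τ with hc
  set M := sc τ with hM
  have hcpos : 0 < c := cc_pos τ
  have hGi : ∀ a i, Integrable (G (t a i)) := fun a i => G_integrable hC hdec (ht a i)
  have hhd : ∀ k, Integrable (hd c M k) := hd_integrable hcpos M
  set f : (ι → ℤ) → (ι → ℝ) → ℂ := fun κ => gop (fun i => hd c M (κ i)) g with hf
  have hcomp : ∀ a x, gop (fun i => dker τ G (t a i)) g x =
      gop (fun i => G (t a i)) (f (kap t a)) x := fun a x =>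
    gop_comp (hGi a) (fun i => hhd (kap t a i)) hg x
  have hheat := hH ι c M hcpos g hg
  set P : ℝ≥0∞ := ∏ i, ENNReal.ofReal (C * ‖mu τ‖ ^ (if i ∈ F then (-1 : ℝ) else -(1 / 2))) with hP
  have hgfin : ∫⁻ x, ‖g x‖ₑ ^ 2 < ∞ := by
    obtain ⟨B, hB0, hB⟩ := Cc.bdd hg
    have hgi : Integrable g := hg.1.integrable_of_hasCompactSupport hg.2
    calc ∫⁻ x, ‖g x‖ₑ ^ 2 ≤ ∫⁻ x, ENNReal.ofReal B * ‖g x‖ₑ := by
          apply lintegral_mono
          intro x
          simp only [sq]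
          apply mul_le_mul_left
          rw [← ofReal_norm_eq_enorm]
          exact ENNReal.ofReal_le_ofReal (hB x)
      _ = ENNReal.ofReal B * ∫⁻ x, ‖g x‖ₑ := lintegral_const_mul _ hg.1.measurable.enorm
      _ < ∞ := ENNReal.mul_lt_top ENNReal.ofReal_lt_top hgi.hasFiniteIntegral
  have hffin : ∀ κ, ∫⁻ x, ‖f κ x‖ₑ ^ 2 < ∞ := by
    intro κ
    refine lt_of_le_of_lt (ENNReal.le_tsum κ) (lt_of_le_of_lt hheat ?_)
    exact ENNReal.mul_lt_top (by finiteness) hgfin
  -- one block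
  have hblock : ∀ κ : ι → ℤ,
      ∫⁻ x, (⨆ a : {a // kap t a = κ}, ‖gop (fun i => dker τ G (t a i)) g x‖ₑ) ^ 2 ≤
        P * ∫⁻ x, ‖f κ x‖ₑ ^ 2 := by
    intro κ
    set Γ : {a // kap t a = κ} → (ι → ℝ) → ℂ := fun a u => ∏ i, G (t a i) (u i) with hΓ
    set D : (ι → ℝ) → ℝ := fun u => ∏ i, C * ((2 : ℝ) ^ κ i)⁻¹ *
      Real.exp (-(u i / (2 : ℝ) ^ (κ i + 1)) ^ 2 / C) with hD
    set KK : (ι → ℝ) → ℝ≥0∞ := fun w => ∏ i, (if i ∈ F then K' (κ i) else K (κ i)) (w i) with hKK
    have h1 : ∀ a, Continuous (Γ a) := fun a =>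
      continuous_finsetProd _ fun i _ => (hdec.cont _ (ht a i)).comp (continuous_apply i)
    have h2 : Integrable D := by
      apply Integrable.fintype_prod (f := fun i (y : ℝ) => C * ((2 : ℝ) ^ κ i)⁻¹ *
        Real.exp (-(y / (2 : ℝ) ^ (κ i + 1)) ^ 2 / C))
      intro i
      exact (gauss_integrable (by positivity) hC0).const_mul _
    have h3 : ∀ a y, ‖Γ a y‖ ≤ D y := by
      intro a y
      rw [hΓ, hD]
      simp only [norm_prod]
      refine Finset.prod_le_prod (fun i _ => norm_nonneg _) fun i _ => ?_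
      have hk : Int.log 2 (t a i) = κ i := congrFun a.2 i
      rw [← hk]
      exact G_bound hC hdec (ht a i) (y i)
    have hmK : ∀ i, Measurable (if i ∈ F then K' (κ i) else K (κ i)) := by
      intro i
      split_ifs
      · exact hdec.measK' _
      · exact hdec.measK _
    have h4 : Measurable KK :=
      Finset.measurable_prod _ fun i _ => (hmK i).comp (measurable_pi_apply i)
    have h5 : ∀ a a' w, ‖∫ y, (starRingEnd ℂ) (Γ a y) * Γ a' (y + w)‖ₑ ≤ KK w := by
      intro a a' w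
      have e1 : (fun y : ι → ℝ => (starRingEnd ℂ) (Γ a y) * Γ a' (y + w)) =
          fun y => ∏ i, (starRingEnd ℂ) (G (t a i) (y i)) * G (t a' i) (y i + w i) := by
        funext y
        simp only [hΓ, map_prod, Finset.prod_mul_distrib, Pi.add_apply]
      rw [e1, integral_fintype_prod_volume_eq_prod
        (fun i (v : ℝ) => (starRingEnd ℂ) (G (t a i) v) * G (t a' i) (v + w i))]
      rw [enorm_prod']
      refine Finset.prod_le_prod' fun i _ => ?_
      have hk : Int.log 2 (t a i) = κ i := congrFun a.2 i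
      have hk' : Int.log 2 (t a' i) = κ i := congrFun a'.2 i
      by_cases hi : i ∈ F
      · simp only [hi, if_true]
        obtain ⟨k, hk2⟩ := htF a i hi
        obtain ⟨k', hk2'⟩ := htF a' i hi
        have e2 : ∀ k : ℤ, Int.log 2 ((2 : ℝ) ^ k) = k := by
          intro k
          have := Int.log_zpow (R := ℝ) (b := 2) (by norm_num) k
          exact_mod_cast this
        rw [hk2, e2] at hk
        rw [hk2', e2] at hk'
        rw [hk2, hk2', hk, hk']
        exact hdec.corr' _ _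
      · simp only [hi, if_false]
        have := hdec.corr (t a i) (t a' i) (ht _ _) (ht _ _) (hk.trans hk'.symm) (w i)
        rwa [hk] at this
    have h6 := hBL ι {a // kap t a = κ} Γ D KK h1 h2 h3 h4 h5 (f κ)
      (gop_continuous (fun i => hhd _) hg) (by
        obtain ⟨B, _, hB⟩ := gop_bdd (fun i => hhd (κ i)) hg
        exact ⟨B, hB⟩) (hffin κ)
    have h7 : ∫⁻ w, KK w ≤ P := by
      rw [hKK, lintegral_prod' _ hmK]
      refine Finset.prod_le_prod' fun i _ => ?_
      by_cases hi : i ∈ F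
      · simp only [hi, if_true]
        exact hdec.intK' _
      · simp only [hi, if_false]
        exact hdec.intK _
    have h8 : ∀ (x : ι → ℝ) (a : {a // kap t a = κ}),
        gop (fun i => dker τ G (t a i)) g x = ∫ y, Γ a y * f κ (x - y) := by
      intro x a
      rw [hcomp, a.2]
      rfl
    simp only [h8]
    exact h6.trans (mul_le_mul_left h7 _)
  have hmeas : ∀ κ : ι → ℤ, Measurable fun x =>
      (⨆ a : {a // kap t a = κ}, ‖gop (fun i => dker τ G (t a i)) g x‖ₑ) ^ 2 := by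
    intro κ
    apply Measurable.pow_const
    apply Measurable.iSup
    intro a
    apply Measurable.enorm
    have : gop (fun i => dker τ G (t a i)) g =
        gop (fun i => G (t a i)) (f (kap t a)) := funext fun x => hcomp a x
    rw [this]
    apply Continuous.measurable
    obtain ⟨B, _, hB⟩ := gop_bdd (fun i => hhd (kap t a i)) hg
    rw [gop_eq]
    exact BddAbove.continuous_convolution_right_of_integrable (ContinuousLinearMap.mul ℝ ℂ)
      ⟨B, by rintro _ ⟨x, rfl⟩; exact hB x⟩ (prod_integrable (hGi a))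
      (gop_continuous (fun i => hhd _) hg)
  calc ∫⁻ x, (⨆ a, ‖gop (fun i => dker τ G (t a i)) g x‖ₑ) ^ 2
      ≤ ∫⁻ x, ∑' κ : ι → ℤ,
          (⨆ a : {a // kap t a = κ}, ‖gop (fun i => dker τ G (t a i)) g x‖ₑ) ^ 2 :=
        lintegral_mono fun x => block_le t fun a => ‖gop (fun i => dker τ G (t a i)) g x‖ₑ
    _ = ∑' κ : ι → ℤ, ∫⁻ x,
          (⨆ a : {a // kap t a = κ}, ‖gop (fun i => dker τ G (t a i)) g x‖ₑ) ^ 2 :=
        lintegral_tsum fun κ => (hmeas κ).aemeasurable
    _ ≤ ∑' κ : ι → ℤ, P * ∫⁻ x, ‖f κ x‖ₑ ^ 2 := ENNReal.tsum_le_tsum hblock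
    _ = P * ∑' κ : ι → ℤ, ∫⁻ x, ‖f κ x‖ₑ ^ 2 := ENNReal.tsum_mul_left
    _ ≤ P * ((M : ℝ≥0∞) ^ Fintype.card ι * ∫⁻ x, ‖g x‖ₑ ^ 2) := mul_le_mul_right hheat _
    _ = (M : ℝ≥0∞) ^ Fintype.card ι * P * ∫⁻ x, ‖g x‖ₑ ^ 2 := by ring

end Pool.Agent.MP_bb1b7e
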