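import Mathlib

/-!
# The strong spherical maximal function: definitions
-/

namespace Pool.Agent.MP_bb1b7e

open MeasureTheory
open scoped ENNReal NNReal

/-- `ℝⁿ`. -/
abbrev E (n : ℕ) : Type := EuclideanSpace ℝ (Fin n)

variable {n : ℕ}

/-- The diagonal map `x ↦ (r₁ x₁, …, rₙ xₙ)`. -/
def dil (r : Fin n → ℝ) (x : E n) : E n := WithLp.toLp 2 fun i => r i * x i

/-- `f * σ_r (x)`: the mean of `ω ↦ f (x - (r₁ ω₁, …, rₙ ωₙ))` over the unit sphere, with respect
to the surface measure. -/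
noncomputable def ellMean (r : Fin n → ℝ) (f : E n → ℂ) (x : E n) : ℂ :=
  ⨍ ω : Metric.sphere (0 : E n) 1, f (x - dil r ω) ∂(volume : Measure (E n)).toSphere

/-- The strong spherical maximal function: the supremum of the absolute values of the means over
all ellipsoids centred at `x` with axes parallel to the coordinate axes. -/
noncomputable def Mst (f : E n → ℂ) (x : E n) : ℝ≥0∞ :=
  ⨆ r : {r : Fin n → ℝ // ∀ i, 0 < r i}, ‖ellMean r.1 f x‖ₑ

/-- The strong spherical maximal function is bounded on `L^p (ℝⁿ)`. -/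
def BoundedOn (n : ℕ) (p : ℝ) : Prop :=
  ∃ C : ℝ≥0, ∀ f : E n → ℂ, Continuous f → HasCompactSupport f →
    (∫⁻ x, Mst f x ^ p) ^ (1 / p) ≤ C * (∫⁻ x, ‖f x‖ₑ ^ p) ^ (1 / p)

end Pool.Agent.MP_bb1b7e
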