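import Pool.Agent.Lib.MP_bb1b7e_an.Spec

set_option linter.all false

/-!
# The strong spherical maximal function: the Hardy-Littlewood theorem (module HL)
-/

namespace Pool.Agent.MP_bb1b7e

open MeasureTheory
open scoped ENNReal NNReal

namespace HL

/-- averages over centred intervals -/
noncomputable def av (r : ℝ) (Φ : ℝ → ℝ≥0∞) (x : ℝ) : ℝ≥0∞ :=
  ENNReal.ofReal ((2 * r)⁻¹) * ∫⁻ y, if |x - y| ≤ r then Φ y else 0

theorem av_eq (r : ℝ) (Φ : ℝ → ℝ≥0∞) (x : ℝ) :
    av r Φ x = ENNReal.ofReal ((2 * r)⁻¹) * ∫⁻ y in Metric.closedBall x r, Φ y := by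
  rw [av, ← lintegral_indicator Metric.isClosed_closedBall.measurableSet]
  congr 2
  funext y
  have : (y ∈ Metric.closedBall x r) ↔ |x - y| ≤ r := by
    rw [Metric.mem_closedBall, Real.dist_eq, abs_sub_comm]
  by_cases h : |x - y| ≤ r
  · rw [if_pos h, Set.indicator_of_mem (this.2 h)]
  · rw [if_neg h, Set.indicator_of_notMem (fun h' => h (this.1 h'))]

theorem measurable_av (r : ℝ) {Φ : ℝ → ℝ≥0∞} (hΦ : Measurable Φ) : Measurable (av r Φ) := by
  unfold av
  apply Measurable.const_mul
  have hm : Measurable (Function.uncurry fun x y : ℝ => if |x - y| ≤ r then Φ y else 0) := by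
    apply Measurable.ite
    · exact measurableSet_le (measurable_fst.sub measurable_snd).abs measurable_const
    · exact hΦ.comp measurable_snd
    · exact measurable_const
  exact hm.lintegral_prod_right'

theorem av_mono {r : ℝ} {Φ Ψ : ℝ → ℝ≥0∞} (h : ∀ y, Φ y ≤ Ψ y) (x : ℝ) : av r Φ x ≤ av r Ψ x := by
  unfold av
  gcongr with y
  split_ifs
  · exact h y
  · exact le_rfl

theorem av_const {r : ℝ} (hr : 0 < r) (c : ℝ≥0∞) (x : ℝ) : av r (fun _ => c) x = c := by
  rw [av_eq, setLIntegral_const, Real.volume_closedBall, mul_comm c, ← mul_assoc,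
    ← ENNReal.ofReal_mul (by positivity), inv_mul_cancel₀ (by positivity), ENNReal.ofReal_one,
    one_mul]

theorem av_add {r : ℝ} {Φ Ψ : ℝ → ℝ≥0∞} (hΦ : Measurable Φ) (x : ℝ) :
    av r (fun y => Φ y + Ψ y) x = av r Φ x + av r Ψ x := by
  rw [av_eq, av_eq, av_eq, ← mul_add, lintegral_add_left hΦ]

/-- the weak type estimate -/
theorem weak {B : Type} [Countable B] (ρ : B → ℝ) (hρ : ∀ b, 0 < ρ b) {Φ : ℝ → ℝ≥0∞}
    (hΦ : Measurable Φ) {lam : ℝ} (hl : 0 < lam) :
    volume {x | ENNReal.ofReal lam < ⨆ b, av (ρ b) Φ x} ≤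
      ENNReal.ofReal (4 / lam) * ∫⁻ y, Φ y := by
  by_cases hI : ∫⁻ y, Φ y = ∞
  · rw [hI, ENNReal.mul_top]
    · exact le_top
    · rw [Ne, ENNReal.ofReal_eq_zero, not_le]; positivity
  set E : Set ℝ := {x | ENNReal.ofReal lam < ⨆ b, av (ρ b) Φ x} with hE
  have hex : ∀ x : E, ∃ b, ENNReal.ofReal lam < av (ρ b) Φ (x : ℝ) := by
    intro x
    exact lt_iSup_iff.1 x.2
  choose b hb using hex
  have hball : ∀ x : E, ENNReal.ofReal (2 * ρ (b x) * lam) ≤
      ∫⁻ y in Metric.closedBall (x : ℝ) (ρ (b x)), Φ y := by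
    intro x
    have h1 := (hb x).le
    rw [av_eq] at h1
    have hr := hρ (b x)
    calc ENNReal.ofReal (2 * ρ (b x) * lam) = ENNReal.ofReal (2 * ρ (b x)) * ENNReal.ofReal lam :=
          ENNReal.ofReal_mul (by positivity)
      _ ≤ ENNReal.ofReal (2 * ρ (b x)) * (ENNReal.ofReal ((2 * ρ (b x))⁻¹) *
          ∫⁻ y in Metric.closedBall (x : ℝ) (ρ (b x)), Φ y) := by gcongr
      _ = _ := by
          rw [← mul_assoc, ← ENNReal.ofReal_mul (by positivity), mul_inv_cancel₀ (by positivity),
            ENNReal.ofReal_one, one_mul]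
  obtain ⟨u, -, hdisj, hcov⟩ := Vitali.exists_disjoint_subfamily_covering_enlargement_closedBall
    (Set.univ : Set E) (fun x => (x : ℝ)) (fun x => ρ (b x)) ((∫⁻ y, Φ y).toReal / (2 * lam))
    (by
      intro x _
      rw [le_div_iff₀ (by positivity)]
      have h2 : ENNReal.ofReal (2 * ρ (b x) * lam) ≤ ∫⁻ y, Φ y :=
        (hball x).trans (setLIntegral_le_lintegral _ _)
      have := (ENNReal.ofReal_le_iff_le_toReal hI).1 h2
      linarith) 4 (by norm_num)
  have hcount : u.Countable := by
    apply hdisj.countable_of_nonempty_interior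
    intro x _
    refine ⟨(x : ℝ), ?_⟩
    exact Metric.ball_subset_interior_closedBall (Metric.mem_ball_self (hρ _))
  calc volume E ≤ volume (⋃ x ∈ u, Metric.closedBall (x : ℝ) (4 * ρ (b x))) := by
        apply measure_mono
        intro x hx
        obtain ⟨y, hy, hxy⟩ := hcov ⟨x, hx⟩ (Set.mem_univ _)
        exact Set.mem_biUnion hy (hxy (Metric.mem_closedBall_self (hρ _).le))
    _ ≤ ∑' x : u, volume (Metric.closedBall ((x : E) : ℝ) (4 * ρ (b x))) :=
        measure_biUnion_le _ hcount _
    _ ≤ ∑' x : u, ENNReal.ofReal (4 / lam) *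
        ∫⁻ y in Metric.closedBall ((x : E) : ℝ) (ρ (b x)), Φ y := by
        refine ENNReal.tsum_le_tsum fun x => ?_
        calc volume (Metric.closedBall ((x : E) : ℝ) (4 * ρ (b x)))
            = ENNReal.ofReal (4 / lam) * ENNReal.ofReal (2 * ρ (b x) * lam) := by
              rw [Real.volume_closedBall, ← ENNReal.ofReal_mul (by positivity)]
              congr 1
              field_simp
          _ ≤ _ := by
              gcongr
              exact hball x
    _ = ENNReal.ofReal (4 / lam) * ∑' x : u,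
        ∫⁻ y in Metric.closedBall ((x : E) : ℝ) (ρ (b x)), Φ y := ENNReal.tsum_mul_left
    _ = ENNReal.ofReal (4 / lam) * ∫⁻ y in ⋃ x ∈ u,
        Metric.closedBall (x : ℝ) (ρ (b x)), Φ y := by
        rw [lintegral_biUnion hcount (fun x _ => Metric.isClosed_closedBall.measurableSet) hdisj]
    _ ≤ ENNReal.ofReal (4 / lam) * ∫⁻ y, Φ y := by
        gcongr
        exact Measure.restrict_le_self

/-- a power as an integral -/
theorem rpow_eq {p : ℝ} (hp : 0 < p) (g : ℝ≥0∞) :
    ENNReal.ofReal p * ∫⁻ t in Set.Ioi (0 : ℝ),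
      (if ENNReal.ofReal t < g then ENNReal.ofReal (t ^ (p - 1)) else 0) = g ^ p := by
  have hfin : ∀ c : ℝ≥0, ENNReal.ofReal p * ∫⁻ t in Set.Ioi (0 : ℝ),
      (if ENNReal.ofReal t < c then ENNReal.ofReal (t ^ (p - 1)) else 0) = (c : ℝ≥0∞) ^ p := by
    intro c
    have h := lintegral_rpow_eq_lintegral_meas_lt_mul (Measure.dirac ())
      (f := fun _ : Unit => (c : ℝ)) (Filter.Eventually.of_forall fun _ => c.2)
      measurable_const.aemeasurable hp
    rw [lintegral_const, measure_univ, mul_one] at h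
    rw [← ENNReal.coe_rpow_of_nonneg _ hp.le, ← ENNReal.ofReal_coe_nnreal (p := c ^ p),
      NNReal.coe_rpow, h]
    congr 1
    refine setLIntegral_congr_fun measurableSet_Ioi fun t ht => ?_
    have ht' : (0 : ℝ) < t := ht
    have hiff : ENNReal.ofReal t < c ↔ t < c := by
      rw [← ENNReal.ofReal_coe_nnreal]
      exact ENNReal.ofReal_lt_ofReal_iff_of_nonneg ht'.le
    by_cases htc : t < c
    · simp only [if_pos (hiff.2 htc)]
      have : {a : Unit | t < (c : ℝ)} = Set.univ := by ext; simp [htc]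
      rw [this, measure_univ, one_mul]
    · simp only [if_neg (fun h => htc (hiff.1 h))]
      have : {a : Unit | t < (c : ℝ)} = ∅ := by ext; simp [htc]
      rw [this, measure_empty, zero_mul]
  rcases eq_or_ne g ∞ with rfl | hg
  · rw [ENNReal.top_rpow_of_pos hp, eq_top_iff]
    have h1 : ∀ n : ℕ, ((n : ℝ≥0) : ℝ≥0∞) ^ p ≤ ENNReal.ofReal p * ∫⁻ t in Set.Ioi (0 : ℝ),
      (if ENNReal.ofReal t < ∞ then ENNReal.ofReal (t ^ (p - 1)) else 0) := by
      intro n
      rw [← hfin n]
      gcongr with t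
      split_ifs with h2 h3
      · exact le_rfl
      · exact absurd ENNReal.ofReal_lt_top h3
      · exact bot_le
      · exact le_rfl
    have h2 : Filter.Tendsto (fun n : ℕ => ((n : ℝ≥0) : ℝ≥0∞) ^ p) Filter.atTop (nhds ∞) := by
      have h3 : Filter.Tendsto (fun n : ℕ => ((n : ℝ≥0) : ℝ≥0∞)) Filter.atTop (nhds ∞) := by
        have := ENNReal.tendsto_nat_nhds_top
        refine this.congr fun n => ?_
        simp
      have h4 := (ENNReal.continuous_rpow_const (y := p)).tendsto ∞
      rw [ENNReal.top_rpow_of_pos hp] at h4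
      exact h4.comp h3
    exact le_of_tendsto' h2 h1
  · lift g to ℝ≥0 using hg
    exact hfin g

/-- the strong type estimate -/
theorem strong {q : ℝ} (hq : 1 < q) {B : Type} [Countable B] (ρ : B → ℝ) (hρ : ∀ b, 0 < ρ b)
    {Φ : ℝ → ℝ≥0∞} (hΦ : Measurable Φ) :
    ∫⁻ x, (⨆ b, av (ρ b) Φ x) ^ q ≤
      (ENNReal.ofReal q * 8 * 2 ^ (q - 1) / ENNReal.ofReal (q - 1)) * ∫⁻ x, Φ x ^ q := by
  set G : ℝ → ℝ≥0∞ := fun x => ⨆ b, av (ρ b) Φ x with hG
  have hGm : Measurable G := Measurable.iSup fun b => measurable_av _ hΦ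
  have hw : ∀ t : ℝ, 0 < t → volume {x | ENNReal.ofReal t < G x} ≤
      ENNReal.ofReal (8 / t) * ∫⁻ y, (if ENNReal.ofReal t < 2 * Φ y then Φ y else 0) := by
    intro t ht
    let Φ₁ : ℝ → ℝ≥0∞ := fun y => if ENNReal.ofReal t < 2 * Φ y then Φ y else 0
    have hΦ₁ : Measurable Φ₁ :=
      Measurable.ite (measurableSet_lt measurable_const (hΦ.const_mul 2)) hΦ measurable_const
    have hle : ∀ x, G x ≤ (⨆ b, av (ρ b) Φ₁ x) + ENNReal.ofReal (t / 2) := by
      intro x
      refine iSup_le fun b => ?_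
      calc av (ρ b) Φ x ≤ av (ρ b) (fun y => Φ₁ y + ENNReal.ofReal (t / 2)) x := by
            apply av_mono
            intro y
            simp only [Φ₁]
            split_ifs with h
            · exact le_self_add
            · rw [zero_add]
              rw [not_lt] at h
              have h2 : Φ y ≤ ENNReal.ofReal t / 2 := by
                rw [ENNReal.le_div_iff_mul_le (by norm_num) (by norm_num), mul_comm]
                exact h
              refine h2.trans (le_of_eq ?_)
              rw [ENNReal.ofReal_div_of_pos (by norm_num)]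
              norm_num
        _ = av (ρ b) Φ₁ x + ENNReal.ofReal (t / 2) := by
            rw [av_add hΦ₁, av_const (hρ b)]
        _ ≤ _ := by
            gcongr
            exact le_iSup (fun b => av (ρ b) Φ₁ x) b
    have hsub : {x | ENNReal.ofReal t < G x} ⊆
        {x | ENNReal.ofReal (t / 2) < ⨆ b, av (ρ b) Φ₁ x} := by
      intro x hx
      have h1 : ENNReal.ofReal t < G x := hx
      have h2 : ENNReal.ofReal t = ENNReal.ofReal (t / 2) + ENNReal.ofReal (t / 2) := by
        rw [← ENNReal.ofReal_add (by positivity) (by positivity)]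
        congr 1
        ring
      rw [h2] at h1
      have h3 := h1.trans_le (hle x)
      exact (ENNReal.add_lt_add_iff_right ENNReal.ofReal_ne_top).1 h3
    refine (measure_mono hsub).trans ?_
    have := weak ρ hρ hΦ₁ (lam := t / 2) (by positivity)
    refine this.trans (le_of_eq ?_)
    congr 2
    field_simp
    norm_num
  have hms : Measurable (Function.uncurry fun (x t : ℝ) =>
      if ENNReal.ofReal t < G x then ENNReal.ofReal (t ^ (q - 1)) else 0) := by
    apply Measurable.ite
    · exact measurableSet_lt (ENNReal.measurable_ofReal.comp measurable_snd)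
        (hGm.comp measurable_fst)
    · exact ENNReal.measurable_ofReal.comp (measurable_snd.pow_const _)
    · exact measurable_const
  have hms2 : Measurable (Function.uncurry fun (t y : ℝ) =>
      ENNReal.ofReal (t ^ (q - 1 - 1)) * (if ENNReal.ofReal t < 2 * Φ y then Φ y else 0)) := by
    apply Measurable.mul
    · exact ENNReal.measurable_ofReal.comp (measurable_fst.pow_const _)
    · apply Measurable.ite
      · exact measurableSet_lt (ENNReal.measurable_ofReal.comp measurable_fst)
          ((hΦ.comp measurable_snd).const_mul 2)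
      · exact hΦ.comp measurable_snd
      · exact measurable_const
  calc ∫⁻ x, G x ^ q = ∫⁻ x, ENNReal.ofReal q * ∫⁻ t in Set.Ioi (0 : ℝ),
        (if ENNReal.ofReal t < G x then ENNReal.ofReal (t ^ (q - 1)) else 0) := by
        simp only [rpow_eq (by linarith : 0 < q)]
    _ = ENNReal.ofReal q * ∫⁻ x, ∫⁻ t in Set.Ioi (0 : ℝ),
        (if ENNReal.ofReal t < G x then ENNReal.ofReal (t ^ (q - 1)) else 0) := by
        rw [lintegral_const_mul']
        exact ENNReal.ofReal_ne_top
    _ = ENNReal.ofReal q * ∫⁻ t in Set.Ioi (0 : ℝ), ∫⁻ x,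
        (if ENNReal.ofReal t < G x then ENNReal.ofReal (t ^ (q - 1)) else 0) := by
        rw [lintegral_lintegral_swap hms.aemeasurable]
    _ ≤ ENNReal.ofReal q * ∫⁻ t in Set.Ioi (0 : ℝ), 8 * ∫⁻ y, ENNReal.ofReal (t ^ (q - 1 - 1)) *
        (if ENNReal.ofReal t < 2 * Φ y then Φ y else 0) := by
        gcongr ENNReal.ofReal q * ?_
        refine setLIntegral_mono' measurableSet_Ioi fun t ht => ?_
        have ht' : (0 : ℝ) < t := ht
        have h1 : ∫⁻ x, (if ENNReal.ofReal t < G x then ENNReal.ofReal (t ^ (q - 1)) else 0) =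
            ENNReal.ofReal (t ^ (q - 1)) * volume {x | ENNReal.ofReal t < G x} := by
          have : (fun x => if ENNReal.ofReal t < G x then ENNReal.ofReal (t ^ (q - 1)) else 0) =
              Set.indicator {x | ENNReal.ofReal t < G x} fun _ => ENNReal.ofReal (t ^ (q - 1)) := by
            funext x
            simp only [Set.indicator, Set.mem_setOf_eq]
          rw [this, lintegral_indicator (measurableSet_lt measurable_const hGm), setLIntegral_const]
        rw [h1]
        calc ENNReal.ofReal (t ^ (q - 1)) * volume {x | ENNReal.ofReal t < G x}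
            ≤ ENNReal.ofReal (t ^ (q - 1)) * (ENNReal.ofReal (8 / t) *
              ∫⁻ y, (if ENNReal.ofReal t < 2 * Φ y then Φ y else 0)) := by
              gcongr
              exact hw t ht'
          _ = 8 * (ENNReal.ofReal (t ^ (q - 1 - 1)) *
              ∫⁻ y, (if ENNReal.ofReal t < 2 * Φ y then Φ y else 0)) := by
              rw [← mul_assoc, ← mul_assoc, ← ENNReal.ofReal_mul (by positivity)]
              congr 1
              have : t ^ (q - 1) * (8 / t) = 8 * t ^ (q - 1 - 1) := by
                rw [Real.rpow_sub_one ht'.ne' (q - 1)]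
                ring
              rw [this, ENNReal.ofReal_mul (by norm_num)]
              norm_num
          _ = _ := by
              rw [lintegral_const_mul']
              exact ENNReal.ofReal_ne_top
    _ = ENNReal.ofReal q * (8 * ∫⁻ t in Set.Ioi (0 : ℝ), ∫⁻ y, ENNReal.ofReal (t ^ (q - 1 - 1)) *
        (if ENNReal.ofReal t < 2 * Φ y then Φ y else 0)) := by
        congr 1
        rw [lintegral_const_mul']
        norm_num
    _ = ENNReal.ofReal q * (8 * ∫⁻ y, ∫⁻ t in Set.Ioi (0 : ℝ), ENNReal.ofReal (t ^ (q - 1 - 1)) *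
        (if ENNReal.ofReal t < 2 * Φ y then Φ y else 0)) := by
        rw [lintegral_lintegral_swap hms2.aemeasurable]
    _ = ENNReal.ofReal q * (8 * ∫⁻ y, 2 ^ (q - 1) / ENNReal.ofReal (q - 1) * Φ y ^ q) := by
        congr 3
        funext y
        have h1 : ∫⁻ t in Set.Ioi (0 : ℝ), ENNReal.ofReal (t ^ (q - 1 - 1)) *
            (if ENNReal.ofReal t < 2 * Φ y then Φ y else 0) =
            (∫⁻ t in Set.Ioi (0 : ℝ),
              (if ENNReal.ofReal t < 2 * Φ y then ENNReal.ofReal (t ^ (q - 1 - 1)) else 0)) *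
              Φ y := by
          rw [← lintegral_mul_const]
          · refine lintegral_congr fun t => ?_
            split_ifs <;> simp
          · apply Measurable.ite
            · exact measurableSet_lt ENNReal.measurable_ofReal measurable_const
            · exact ENNReal.measurable_ofReal.comp (measurable_id.pow_const _)
            · exact measurable_const
        rw [h1]
        have hq1 : 0 < q - 1 := by linarith
        have h2 := rpow_eq hq1 (2 * Φ y)
        have h3 : ∫⁻ t in Set.Ioi (0 : ℝ),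
              (if ENNReal.ofReal t < 2 * Φ y then ENNReal.ofReal (t ^ (q - 1 - 1)) else 0) =
              (2 * Φ y) ^ (q - 1) / ENNReal.ofReal (q - 1) := by
          rw [ENNReal.eq_div_iff]
          · exact h2
          · rw [Ne, ENNReal.ofReal_eq_zero, not_le]; exact hq1
          · exact ENNReal.ofReal_ne_top
        rw [h3, ENNReal.mul_rpow_of_nonneg _ _ hq1.le]
        have h4 : Φ y ^ q = Φ y ^ (q - 1) * Φ y := by
          conv_lhs => rw [show q = (q - 1) + 1 by ring]
          rw [ENNReal.rpow_add_of_nonneg _ _ hq1.le (by norm_num), ENNReal.rpow_one]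
        rw [h4, div_eq_mul_inv, div_eq_mul_inv]
        ring
    _ = _ := by
        rw [lintegral_const_mul]
        · rw [div_eq_mul_inv, div_eq_mul_inv]
          ring
        · exact hΦ.pow_const _

/-- Gaussian averages are bounded by averages over intervals -/
theorem gauss_le {s : ℝ} (hs : 0 < s) {Φ : ℝ → ℝ≥0∞} (hΦ : Measurable Φ) (x : ℝ) (M : ℝ≥0∞)
    (hM : ∀ k : ℕ, av ((k + 1) * s) Φ x ≤ M) :
    ∫⁻ y, ENNReal.ofReal (s⁻¹ * Real.exp (-(y / s) ^ 2)) * Φ (x - y) ≤
      (∑' k : ℕ, ENNReal.ofReal (2 * (k + 1) * Real.exp (-(k : ℝ) ^ 2))) * M := by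
  calc ∫⁻ y, ENNReal.ofReal (s⁻¹ * Real.exp (-(y / s) ^ 2)) * Φ (x - y)
      ≤ ∫⁻ y, ∑' k : ℕ, ENNReal.ofReal (s⁻¹ * Real.exp (-(k : ℝ) ^ 2)) *
          (if |y| ≤ (k + 1) * s then Φ (x - y) else 0) := by
        refine lintegral_mono fun y => ?_
        set k := ⌊|y| / s⌋₊ with hk
        refine le_trans ?_ (ENNReal.le_tsum k)
        have h1 : |y| ≤ (k + 1) * s := by
          rw [← div_le_iff₀ hs]
          exact (Nat.lt_floor_add_one _).le
        rw [if_pos h1]
        have h2 : (k : ℝ) ≤ |y| / s := Nat.floor_le (by positivity)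
        have h3 : (y / s) ^ 2 = (|y| / s) ^ 2 := by
          rw [div_pow, div_pow, sq_abs]
        have h4 : Real.exp (-(y / s) ^ 2) ≤ Real.exp (-(k : ℝ) ^ 2) := by
          apply Real.exp_le_exp.2
          rw [h3, neg_le_neg_iff]
          exact pow_le_pow_left₀ (Nat.cast_nonneg _) h2 2
        exact mul_le_mul_left (ENNReal.ofReal_le_ofReal
          (mul_le_mul_of_nonneg_left h4 (inv_nonneg.2 hs.le))) _
    _ = ∑' k : ℕ, ∫⁻ y, ENNReal.ofReal (s⁻¹ * Real.exp (-(k : ℝ) ^ 2)) *
          (if |y| ≤ (k + 1) * s then Φ (x - y) else 0) := by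
        rw [lintegral_tsum]
        intro k
        apply Measurable.aemeasurable
        apply Measurable.const_mul
        exact Measurable.ite (measurableSet_le measurable_id.abs measurable_const)
          (hΦ.comp (measurable_const.sub measurable_id)) measurable_const
    _ ≤ ∑' k : ℕ, ENNReal.ofReal (2 * (k + 1) * Real.exp (-(k : ℝ) ^ 2)) * M := by
        refine ENNReal.tsum_le_tsum fun k => ?_
        rw [lintegral_const_mul']
        · have h1 : ∫⁻ y, (if |y| ≤ (k + 1) * s then Φ (x - y) else 0) =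
              ∫⁻ y, (if |x - y| ≤ (k + 1) * s then Φ y else 0) := by
            have := lintegral_sub_left_eq_self (μ := volume)
              (fun y => if |y| ≤ (k + 1) * s then Φ (x - y) else 0) x
            rw [← this]
            simp only [sub_sub_cancel]
          have h2 : ∫⁻ y, (if |x - y| ≤ (k + 1) * s then Φ y else 0) =
              ENNReal.ofReal (2 * ((k + 1) * s)) * av ((k + 1) * s) Φ x := by
            rw [av, ← mul_assoc, ← ENNReal.ofReal_mul (by positivity),
              mul_inv_cancel₀ (by positivity), ENNReal.ofReal_one, one_mul]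
          rw [h1, h2, ← mul_assoc, ← ENNReal.ofReal_mul (by positivity)]
          have h3 : s⁻¹ * Real.exp (-(k : ℝ) ^ 2) * (2 * ((k + 1) * s)) =
              2 * (k + 1) * Real.exp (-(k : ℝ) ^ 2) := by
            field_simp
          rw [h3]
          gcongr
          exact hM k
        · exact ENNReal.ofReal_ne_top
    _ = _ := ENNReal.tsum_mul_right

theorem tsum_lt_top :
    ∑' k : ℕ, ENNReal.ofReal (2 * (k + 1) * Real.exp (-(k : ℝ) ^ 2)) < ∞ := by
  have hs : Summable fun k : ℕ => 2 * ((k : ℝ) + 1) * Real.exp (-(k : ℝ) ^ 2) := by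
    have h1 : Summable fun k : ℕ => 2 * (((k : ℝ) ^ 1 * Real.exp (-k)) + Real.exp (-k)) := by
      apply Summable.mul_left
      exact (Real.summable_pow_mul_exp_neg_nat_mul 1 (r := 1) one_pos |>.congr (by
        intro k; simp)).add (Real.summable_exp_neg_nat)
    refine Summable.of_nonneg_of_le (fun k => by positivity) (fun k => ?_) h1
    have h2 : Real.exp (-(k : ℝ) ^ 2) ≤ Real.exp (-k) := by
      apply Real.exp_le_exp.2
      have : (k : ℝ) ≤ (k : ℝ) ^ 2 := by
        have h := Nat.le_self_pow (n := 2) (by norm_num) k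
        exact_mod_cast h
      linarith
    calc 2 * ((k : ℝ) + 1) * Real.exp (-(k : ℝ) ^ 2) ≤ 2 * ((k : ℝ) + 1) * Real.exp (-k) := by
          gcongr
      _ = _ := by ring
  rw [← ENNReal.ofReal_tsum_of_nonneg (fun k => by positivity) hs]
  exact ENNReal.ofReal_lt_top

end HL

/-- Module HL. -/
theorem specHL : SpecHL := by
  intro q hq
  set S : ℝ≥0∞ := ∑' k : ℕ, ENNReal.ofReal (2 * (k + 1) * Real.exp (-(k : ℝ) ^ 2)) with hS
  have hSt : S < ∞ := HL.tsum_lt_top
  have hq1 : 0 < q - 1 := by linarith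
  set C' : ℝ≥0∞ := S ^ q * (ENNReal.ofReal q * 8 * 2 ^ (q - 1) / ENNReal.ofReal (q - 1)) with hC'
  have hC : C' < ∞ := by
    apply ENNReal.mul_lt_top
    · exact ENNReal.rpow_lt_top_of_nonneg (by linarith) hSt.ne
    · apply ENNReal.div_lt_top
      · apply (ENNReal.mul_lt_top (ENNReal.mul_lt_top ENNReal.ofReal_lt_top (by norm_num)) _).ne
        exact ENNReal.rpow_lt_top_of_nonneg hq1.le (by norm_num)
      · rw [Ne, ENNReal.ofReal_eq_zero, not_le]; exact hq1
  refine ⟨C'.toNNReal, ?_⟩
  intro A _ s hs Φ hΦ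
  rw [ENNReal.coe_toNNReal hC.ne]
  let ρ : A × ℕ → ℝ := fun b => ((b.2 : ℝ) + 1) * s b.1
  have hρ : ∀ b, 0 < ρ b := fun b => mul_pos (by positivity) (hs _)
  calc ∫⁻ x, (⨆ a, ∫⁻ y, ENNReal.ofReal ((s a)⁻¹ * Real.exp (-(y / s a) ^ 2)) * Φ (x - y)) ^ q
      ≤ ∫⁻ x, (S * ⨆ b, HL.av (ρ b) Φ x) ^ q := by
        refine lintegral_mono fun x => ?_
        gcongr
        refine iSup_le fun a => ?_
        refine HL.gauss_le (hs a) hΦ x _ fun k => ?_
        exact le_iSup (fun b => HL.av (ρ b) Φ x) (a, k)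
    _ = ∫⁻ x, S ^ q * (⨆ b, HL.av (ρ b) Φ x) ^ q := by
        refine lintegral_congr fun x => ?_
        rw [ENNReal.mul_rpow_of_nonneg _ _ (by linarith)]
    _ = S ^ q * ∫⁻ x, (⨆ b, HL.av (ρ b) Φ x) ^ q := by
        rw [lintegral_const_mul]
        exact (Measurable.iSup fun b => HL.measurable_av _ hΦ).pow_const _
    _ ≤ S ^ q * ((ENNReal.ofReal q * 8 * 2 ^ (q - 1) / ENNReal.ofReal (q - 1)) *
        ∫⁻ x, Φ x ^ q) := by
        gcongr
        exact HL.strong hq ρ hρ hΦ
    _ = _ := (mul_assoc _ _ _).symm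

end Pool.Agent.MP_bb1b7e
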