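import Pool.Agent.Lib.MP_bb1b7e_an.Spec

/-!
# Module HEAT: the square function of differences of heat kernels
-/

namespace Pool.Agent.MP_bb1b7e.Heat

open MeasureTheory ProbabilityTheory
open scoped ENNReal NNReal

/-! ### General facts -/

/-- Continuity of parametric integrals with bounded integrand. -/
theorem cont_int {X Y : Type*} [MeasurableSpace X] {μ : Measure X} [TopologicalSpace Y]
    [FirstCountableTopology Y] {k : X → ℂ} (hk : Integrable k μ) {G : Y → X → ℂ}
    (hG : ∀ x, Continuous fun y => G y x) (hm : ∀ y, AEStronglyMeasurable (G y) μ) {B : ℝ}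
    (hB : ∀ y x, ‖G y x‖ ≤ B) : Continuous fun y => ∫ x, k x * G y x ∂μ := by
  refine continuous_of_dominated (bound := fun x => ‖k x‖ * B)
    (fun y => hk.aestronglyMeasurable.mul (hm y)) ?_ (hk.norm.mul_const B) ?_
  · intro y
    refine Filter.Eventually.of_forall fun x => ?_
    rw [norm_mul]
    exact mul_le_mul_of_nonneg_left (hB y x) (norm_nonneg _)
  · exact Filter.Eventually.of_forall fun x => continuous_const.mul (hG x)

theorem sq_lintegral_le {X : Type*} [MeasurableSpace X] {μ : Measure X} [IsProbabilityMeasure μ]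
    {f : X → ℝ≥0∞} (hf : AEMeasurable f μ) : (∫⁻ x, f x ∂μ) ^ 2 ≤ ∫⁻ x, f x ^ 2 ∂μ := by
  have h := ENNReal.lintegral_mul_le_Lp_mul_Lq μ (p := 2) (q := 2)
    (by constructor <;> norm_num) hf (aemeasurable_const (b := (1 : ℝ≥0∞)))
  simp only [Pi.mul_apply, mul_one, one_div, ENNReal.one_rpow, lintegral_const, measure_univ] at h
  calc (∫⁻ x, f x ∂μ) ^ 2 ≤ ((∫⁻ x, f x ^ (2 : ℝ) ∂μ) ^ (2⁻¹ : ℝ)) ^ 2 := by gcongr
    _ = ∫⁻ x, f x ^ 2 ∂μ := by
      rw [← ENNReal.rpow_natCast, ← ENNReal.rpow_mul]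
      norm_num

theorem sq_enorm_integral_le {X : Type*} [MeasurableSpace X] {μ : Measure X}
    [IsProbabilityMeasure μ] {f : X → ℂ} (hf : AEStronglyMeasurable f μ) :
    ‖∫ x, f x ∂μ‖ₑ ^ 2 ≤ ∫⁻ x, ‖f x‖ₑ ^ 2 ∂μ :=
  (pow_le_pow_left' (enorm_integral_le_lintegral_enorm f) 2).trans
    (sq_lintegral_le hf.enorm)

/-! ### The heat semigroup on the line -/

/-- The centred Gaussian with variance `2 a`. -/
noncomputable abbrev gm (a : ℝ≥0) : Measure ℝ := gaussianReal 0 (2 * a)

/-- The heat operator. -/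
noncomputable def H (a : ℝ≥0) (g : ℝ → ℂ) (x : ℝ) : ℂ := ∫ v, g (x - v) ∂(gm a)

theorem gm_add (a b : ℝ≥0) : gm (a + b) = (gm a).conv (gm b) := by
  rw [gm, gm, gm, gaussianReal_conv_gaussianReal, mul_add, zero_add]

theorem gm_neg (a : ℝ≥0) : (gm a).map (fun x => -x) = gm a := by
  rw [gm, gaussianReal_map_neg, neg_zero]

theorem H_zero {g : ℝ → ℂ} (x : ℝ) : H 0 g x = g x := by
  simp [H, gm, gaussianReal_zero_var]

section

variable {g : ℝ → ℂ} {B : ℝ}

theorem integrable_bdd {X : Type*} [TopologicalSpace X] [MeasurableSpace X] [BorelSpace X]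
    [SecondCountableTopology X] {μ : Measure X} [IsFiniteMeasure μ] {f : X → ℂ}
    (hf : Continuous f) {B : ℝ} (hB : ∀ x, ‖f x‖ ≤ B) : Integrable f μ :=
  (integrable_const B).mono' hf.aestronglyMeasurable (Filter.Eventually.of_forall hB)

theorem H_cont (hg : Continuous g) (hB : ∀ x, ‖g x‖ ≤ B) (a : ℝ≥0) : Continuous (H a g) := by
  have := cont_int (μ := gm a) (k := fun _ => (1 : ℂ)) (integrable_const 1)
    (G := fun x v => g (x - v)) (fun v => by fun_prop)
    (fun x => (by fun_prop : Continuous fun v => g (x - v)).aestronglyMeasurable)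
    (fun y x => hB _)
  simp only [one_mul] at this
  exact this

theorem H_bound (hB : ∀ x, ‖g x‖ ≤ B) (a : ℝ≥0) (x : ℝ) : ‖H a g x‖ ≤ B := by
  have := norm_integral_le_of_norm_le_const (μ := gm a) (f := fun v => g (x - v)) (C := B)
    (Filter.Eventually.of_forall fun v => hB _)
  simpa [H] using this

theorem H_add (hg : Continuous g) (hB : ∀ x, ‖g x‖ ≤ B) (a b : ℝ≥0) (x : ℝ) :
    H (a + b) g x = ∫ v, H a g (x - v) ∂(gm b) := by
  rw [H, add_comm a b, gm_add, integral_conv (integrable_bdd (by fun_prop) (fun v => hB _))]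
  refine integral_congr_ae (Filter.Eventually.of_forall fun v => ?_)
  simp only [H]
  refine integral_congr_ae (Filter.Eventually.of_forall fun w => ?_)
  simp only
  congr 1
  ring

/-- The energy. -/
noncomputable def phi (g : ℝ → ℂ) (a : ℝ≥0) : ℝ≥0∞ := ∫⁻ x, ‖H a g x‖ₑ ^ 2

theorem phi_zero : phi g 0 = ∫⁻ x, ‖g x‖ₑ ^ 2 := by
  simp [phi, H_zero]

theorem phi_add_le (hg : Continuous g) (hB : ∀ x, ‖g x‖ ≤ B) (a b : ℝ≥0) :
    phi g (a + b) ≤ phi g a := by
  have hc := H_cont hg hB a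
  calc phi g (a + b) = ∫⁻ x, ‖∫ v, H a g (x - v) ∂(gm b)‖ₑ ^ 2 := by
        simp only [phi, H_add hg hB]
    _ ≤ ∫⁻ x, (∫⁻ v, ‖H a g (x - v)‖ₑ ^ 2 ∂(gm b)) := by
        refine lintegral_mono fun x => sq_enorm_integral_le ?_
        exact (by fun_prop : Continuous fun v => H a g (x - v)).aestronglyMeasurable
    _ = ∫⁻ v, (∫⁻ x, ‖H a g (x - v)‖ₑ ^ 2) ∂(gm b) := by
        refine lintegral_lintegral_swap ?_
        have : Continuous fun p : ℝ × ℝ => ‖H a g (p.1 - p.2)‖ₑ ^ 2 := by fun_prop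
        exact this.measurable.aemeasurable
    _ = ∫⁻ v, phi g a ∂(gm b) := by
        refine lintegral_congr fun v => ?_
        exact lintegral_sub_right_eq_self (fun x => ‖H a g x‖ₑ ^ 2) v
    _ = phi g a := by simp

theorem phi_anti (hg : Continuous g) (hB : ∀ x, ‖g x‖ ≤ B) : Antitone (phi g) := by
  intro a b hab
  have := phi_add_le hg hB a (b - a)
  rwa [add_tsub_cancel_of_le hab] at this

/-- The autocorrelation. -/
noncomputable def A (g : ℝ → ℂ) (w : ℝ) : ℂ := ∫ x, g x * starRingEnd ℂ (g (x - w))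

theorem A_cont (hg : Continuous g) (hi : Integrable g) (hB : ∀ x, ‖g x‖ ≤ B) :
    Continuous (A g) := by
  refine cont_int hi (G := fun w x => starRingEnd ℂ (g (x - w))) (B := B) ?_ ?_ ?_
  · intro x
    exact Complex.continuous_conj.comp (by fun_prop)
  · intro w
    exact (Complex.continuous_conj.comp (by fun_prop)).aestronglyMeasurable
  · intro y x
    simpa using hB _

theorem A_bound (hi : Integrable g) (hB : ∀ x, ‖g x‖ ≤ B) (w : ℝ) :
    ‖A g w‖ ≤ ∫ x, ‖g x‖ * B := by
  refine norm_integral_le_of_norm_le (hi.norm.mul_const B)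
    (Filter.Eventually.of_forall fun x => ?_)
  rw [norm_mul]
  refine mul_le_mul_of_nonneg_left ?_ (norm_nonneg _)
  simpa using hB _

theorem inner_eq (hg : Continuous g) (hi : Integrable g) (hB : ∀ x, ‖g x‖ ≤ B) (a b : ℝ≥0) :
    ∫ x, H a g x * starRingEnd ℂ (H b g x) = ∫ w, A g w ∂(gm (a + b)) := by
  have hA := A_cont hg hi hB
  have hAB := A_bound hi hB
  have hconj : Continuous fun z : ℂ => starRingEnd ℂ z := Complex.continuous_conj
  have hF : Integrable (fun q : ℝ × ℝ × ℝ => g (q.1 - q.2.1) * starRingEnd ℂ (g (q.1 - q.2.2)))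
      (volume.prod ((gm a).prod (gm b))) := by
    have hc : Continuous (fun q : ℝ × ℝ × ℝ =>
        g (q.1 - q.2.1) * starRingEnd ℂ (g (q.1 - q.2.2))) := by fun_prop
    refine (integrable_prod_iff' hc.aestronglyMeasurable).2 ⟨?_, ?_⟩
    · refine Filter.Eventually.of_forall fun q => ?_
      refine ((hi.comp_sub_right q.1).norm.mul_const B).mono' (by fun_prop) ?_
      refine Filter.Eventually.of_forall fun x => ?_
      rw [norm_mul]
      refine mul_le_mul_of_nonneg_left ?_ (norm_nonneg _)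
      simpa using hB _
    · refine (integrable_const (∫ x, ‖g x‖ * B)).mono' ?_ ?_
      · refine AEStronglyMeasurable.integral_prod_right' (f := fun q : (ℝ × ℝ) × ℝ =>
          ‖g (q.2 - q.1.1) * starRingEnd ℂ (g (q.2 - q.1.2))‖) ?_
        exact (by fun_prop : Continuous fun q : (ℝ × ℝ) × ℝ =>
          ‖g (q.2 - q.1.1) * starRingEnd ℂ (g (q.2 - q.1.2))‖).aestronglyMeasurable
      · refine Filter.Eventually.of_forall fun q => ?_
        rw [Real.norm_of_nonneg (integral_nonneg fun _ => norm_nonneg _)]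
        calc ∫ x, ‖g (x - q.1) * starRingEnd ℂ (g (x - q.2))‖
            ≤ ∫ x, ‖g (x - q.1)‖ * B := by
              refine integral_mono_of_nonneg (Filter.Eventually.of_forall fun _ => norm_nonneg _)
                ((hi.comp_sub_right q.1).norm.mul_const B)
                (Filter.Eventually.of_forall fun x => ?_)
              simp only [norm_mul]
              refine mul_le_mul_of_nonneg_left ?_ (norm_nonneg _)
              simpa using hB _
          _ = ∫ x, ‖g x‖ * B := integral_sub_right_eq_self (fun x => ‖g x‖ * B) q.1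
  calc ∫ x, H a g x * starRingEnd ℂ (H b g x)
      = ∫ x, (∫ q : ℝ × ℝ, g (x - q.1) * starRingEnd ℂ (g (x - q.2)) ∂((gm a).prod (gm b))) := by
        refine integral_congr_ae (Filter.Eventually.of_forall fun x => ?_)
        simp only
        rw [integral_prod_mul (fun u => g (x - u)) (fun v => starRingEnd ℂ (g (x - v))),
          integral_conj, H, H]
    _ = ∫ q : ℝ × ℝ, (∫ x, g (x - q.1) * starRingEnd ℂ (g (x - q.2))) ∂((gm a).prod (gm b)) :=
        integral_integral_swap hF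
    _ = ∫ q : ℝ × ℝ, A g (q.2 - q.1) ∂((gm a).prod (gm b)) := by
        refine integral_congr_ae (Filter.Eventually.of_forall fun q => ?_)
        simp only [A]
        conv_rhs => rw [← integral_sub_right_eq_self _ q.1]
        refine integral_congr_ae (Filter.Eventually.of_forall fun x => ?_)
        simp only
        congr 3
        ring
    _ = ∫ u, (∫ v, A g (v - u) ∂(gm b)) ∂(gm a) :=
        integral_prod _ (integrable_bdd (by fun_prop) fun q => hAB _)
    _ = ∫ u, (∫ v, A g (u + v) ∂(gm b)) ∂(gm a) := by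
        conv_rhs => rw [← gm_neg a]
        rw [integral_map (by fun_prop)]
        · refine integral_congr_ae (Filter.Eventually.of_forall fun u => ?_)
          simp only
          refine integral_congr_ae (Filter.Eventually.of_forall fun v => ?_)
          simp only
          congr 1
          ring
        · have := cont_int (μ := gm b) (k := fun _ => (1 : ℂ)) (integrable_const 1)
            (G := fun x v => A g (x + v)) (fun v => by fun_prop)
            (fun x => (by fun_prop : Continuous fun v => A g (x + v)).aestronglyMeasurable)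
            (fun y x => hAB _)
          simp only [one_mul] at this
          exact this.aestronglyMeasurable
    _ = ∫ w, A g w ∂(gm (a + b)) := by
        rw [gm_add, integral_conv (integrable_bdd hA hAB)]

theorem phi_ne_top (hg : Continuous g) (hB : ∀ x, ‖g x‖ ≤ B) (h2 : ∫⁻ x, ‖g x‖ₑ ^ 2 ≠ ∞)
    (a : ℝ≥0) : phi g a ≠ ∞ := by
  refine ne_top_of_le_ne_top h2 ?_
  rw [← phi_zero]
  exact phi_anti hg hB bot_le

theorem lint_sq {f : ℝ → ℂ} (hf : Continuous f) (h2 : ∫⁻ x, ‖f x‖ₑ ^ 2 ≠ ∞) :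
    Integrable (fun x => ‖f x‖ ^ 2) ∧ ENNReal.ofReal (∫ x, ‖f x‖ ^ 2) = ∫⁻ x, ‖f x‖ₑ ^ 2 := by
  have h : ∀ x, ENNReal.ofReal (‖f x‖ ^ 2) = ‖f x‖ₑ ^ 2 := fun x => by
    rw [ENNReal.ofReal_pow (norm_nonneg _), ofReal_norm]
  have hi : Integrable (fun x => ‖f x‖ ^ 2) := by
    refine ⟨(by fun_prop : Continuous fun x => ‖f x‖ ^ 2).aestronglyMeasurable, ?_⟩
    rw [hasFiniteIntegral_iff_ofReal (Filter.Eventually.of_forall fun _ => by positivity)]
    simp only [h]
    exact lt_top_iff_ne_top.2 h2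
  refine ⟨hi, ?_⟩
  rw [ofReal_integral_eq_lintegral_ofReal hi (Filter.Eventually.of_forall fun _ => by positivity)]
  simp only [h]

/-- The energy of a difference. -/
theorem diff_le (hg : Continuous g) (hi : Integrable g) (hB : ∀ x, ‖g x‖ ≤ B)
    (h2 : ∫⁻ x, ‖g x‖ₑ ^ 2 ≠ ∞) (a b : ℝ≥0) (hab : a ≤ b) :
    ∫⁻ x, ‖H a g x - H b g x‖ₑ ^ 2 ≤ ENNReal.ofReal ((phi g a).toReal - (phi g b).toReal) := by
  have hca := H_cont hg hB a
  have hcb := H_cont hg hB b
  obtain ⟨hia, hea⟩ := lint_sq hca (phi_ne_top hg hB h2 a)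
  obtain ⟨hib, heb⟩ := lint_sq hcb (phi_ne_top hg hB h2 b)
  set c : ℝ≥0 := (a + b) / 2 with hc
  have hcc : c + c = a + b := by rw [hc]; ring
  have hcb' : c ≤ b := by
    rw [hc, div_le_iff₀ (by norm_num)]
    calc a + b ≤ b + b := by gcongr
      _ = b * 2 := by ring
  obtain ⟨hic, hec⟩ := lint_sq (H_cont hg hB c) (phi_ne_top hg hB h2 c)
  have hin : ∫ x, H a g x * starRingEnd ℂ (H b g x) = ((∫ x, ‖H c g x‖ ^ 2 : ℝ) : ℂ) := by
    rw [inner_eq hg hi hB, ← hcc, ← inner_eq hg hi hB, ← integral_complex_ofReal]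
    refine integral_congr_ae (Filter.Eventually.of_forall fun x => ?_)
    simp only
    rw [Complex.mul_conj, Complex.normSq_eq_norm_sq]
  have hiab : Integrable (fun x => H a g x * starRingEnd ℂ (H b g x)) := by
    have hconj : Continuous fun z : ℂ => starRingEnd ℂ z := Complex.continuous_conj
    refine (hia.add hib).mono' (by fun_prop) (Filter.Eventually.of_forall fun x => ?_)
    simp only [norm_mul, Pi.add_apply, RCLike.norm_conj]
    nlinarith [sq_nonneg (‖H a g x‖ - ‖H b g x‖), norm_nonneg (H a g x), norm_nonneg (H b g x)]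
  have hpt : ∀ x, ‖H a g x - H b g x‖ ^ 2
      = ‖H a g x‖ ^ 2 + ‖H b g x‖ ^ 2 - 2 * (H a g x * starRingEnd ℂ (H b g x)).re := by
    intro x
    rw [← Complex.normSq_eq_norm_sq, Complex.normSq_sub, Complex.normSq_eq_norm_sq,
      Complex.normSq_eq_norm_sq]
  have hint : ∫ x, ‖H a g x - H b g x‖ ^ 2
      = (∫ x, ‖H a g x‖ ^ 2) + (∫ x, ‖H b g x‖ ^ 2) - 2 * ∫ x, ‖H c g x‖ ^ 2 := by
    simp only [hpt]
    have h1 := integral_sub (hia.add hib) (hiab.re.const_mul 2)
    have h3 := integral_re hiab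
    simp only [RCLike.re_to_complex, Pi.add_apply] at h1 h3
    rw [h1, integral_add hia hib, integral_const_mul, h3, hin, Complex.ofReal_re]
  have hid : Integrable (fun x => ‖H a g x - H b g x‖ ^ 2) := by
    simp only [hpt]
    exact (hia.add hib).sub (hiab.re.const_mul 2)
  have h : ∀ x, ENNReal.ofReal (‖H a g x - H b g x‖ ^ 2) = ‖H a g x - H b g x‖ₑ ^ 2 := fun x => by
    rw [ENNReal.ofReal_pow (norm_nonneg _), ofReal_norm]
  have hsq : ∫⁻ x, ‖H a g x - H b g x‖ₑ ^ 2 = ENNReal.ofReal (∫ x, ‖H a g x - H b g x‖ ^ 2) := by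
    rw [ofReal_integral_eq_lintegral_ofReal hid
      (Filter.Eventually.of_forall fun _ => by positivity)]
    simp only [h]
  have hva : (phi g a).toReal = ∫ x, ‖H a g x‖ ^ 2 := by
    rw [phi, ← hea, ENNReal.toReal_ofReal (integral_nonneg fun _ => by positivity)]
  have hvb : (phi g b).toReal = ∫ x, ‖H b g x‖ ^ 2 := by
    rw [phi, ← heb, ENNReal.toReal_ofReal (integral_nonneg fun _ => by positivity)]
  have hvc : (phi g c).toReal = ∫ x, ‖H c g x‖ ^ 2 := by
    rw [phi, ← hec, ENNReal.toReal_ofReal (integral_nonneg fun _ => by positivity)]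
  rw [hsq, hint, ← hva, ← hvb, ← hvc]
  refine ENNReal.ofReal_le_ofReal ?_
  have := ENNReal.toReal_mono (phi_ne_top hg hB h2 c) (phi_anti hg hB hcb')
  linarith

end

/-! ### The sum over the scales on the line -/

theorem tele (ψ : ℤ → ℝ) (S : ℝ) (h0 : ∀ k, 0 ≤ ψ k) (hS : ∀ k, ψ k ≤ S) (a : ℤ) (n M : ℕ) :
    ∑ j ∈ Finset.range n, (ψ (a + j) - ψ (a + j + M)) ≤ M * S := by
  induction M with
  | zero => simp
  | succ M ih =>
    have h1 : ∑ j ∈ Finset.range n, (ψ (a + j + M) - ψ (a + j + M + 1)) ≤ S := by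
      have h2 := Finset.sum_range_sub' (fun j : ℕ => ψ (a + j + M)) n
      have h3 : ∀ j : ℕ, ψ (a + ((j + 1 : ℕ) : ℤ) + M) = ψ (a + j + M + 1) := fun j => by
        congr 1; push_cast; ring
      simp only [h3] at h2
      rw [h2]
      have := hS (a + ((0 : ℕ) : ℤ) + M)
      have := h0 (a + (n : ℤ) + M)
      linarith
    calc ∑ j ∈ Finset.range n, (ψ (a + j) - ψ (a + j + (M + 1 : ℕ)))
        = ∑ j ∈ Finset.range n, (ψ (a + j) - ψ (a + j + M))
          + ∑ j ∈ Finset.range n, (ψ (a + j + M) - ψ (a + j + M + 1)) := by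
          rw [← Finset.sum_add_distrib]
          refine Finset.sum_congr rfl fun j _ => ?_
          have : ψ (a + j + (M + 1 : ℕ)) = ψ (a + j + M + 1) := by
            congr 1; push_cast; ring
          rw [this]; ring
      _ ≤ M * S + S := add_le_add ih h1
      _ = ((M + 1 : ℕ) : ℝ) * S := by push_cast; ring

theorem tele_sum (ψ : ℤ → ℝ) (S : ℝ) (h0 : ∀ k, 0 ≤ ψ k) (hS : ∀ k, ψ k ≤ S) (ha : Antitone ψ)
    (M : ℕ) (s : Finset ℤ) : ∑ k ∈ s, (ψ k - ψ (k + M)) ≤ M * S := by
  set N : ℕ := s.sup Int.natAbs + 1 with hN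
  have hsub : s ⊆ (Finset.range (2 * N)).image fun j : ℕ => (-(N : ℤ)) + j := by
    intro k hk
    have hk1 : k.natAbs ≤ s.sup Int.natAbs := Finset.le_sup (f := Int.natAbs) hk
    refine Finset.mem_image.2 ⟨(k + N).toNat, ?_, ?_⟩
    · rw [Finset.mem_range]
      omega
    · have : (0 : ℤ) ≤ k + N := by omega
      rw [Int.toNat_of_nonneg this]; ring
  refine (Finset.sum_le_sum_of_subset_of_nonneg hsub fun k _ _ => ?_).trans ?_
  · have : ψ (k + M) ≤ ψ k := ha (by omega)
    linarith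
  · rw [Finset.sum_image fun x _ y _ h => by simpa using h]
    exact tele ψ S h0 hS _ _ M

theorem heat_eq {c : ℝ} (hc : 0 < c) (v : ℝ) :
    heat c v = gaussianPDFReal 0 (2 * c.toNNReal) v := by
  rw [heat, gaussianPDFReal, NNReal.coe_mul, Real.coe_toNNReal _ hc.le, NNReal.coe_ofNat,
    sub_zero, neg_div]
  have h1 : 4 * Real.pi * c = 2 * Real.pi * (2 * c) := by ring
  have h2 : 4 * c = 2 * (2 * c) := by ring
  rw [h1, h2]

theorem heat_integrable {c : ℝ} (hc : 0 < c) : Integrable (heat c) := by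
  rw [show heat c = gaussianPDFReal 0 (2 * c.toNNReal) from funext (heat_eq hc)]
  exact integrable_gaussianPDFReal _ _

theorem heat_int {c : ℝ} (hc : 0 < c) (g : ℝ → ℂ) (y : ℝ) :
    ∫ u, (heat c u : ℂ) * g (y - u) = H c.toNNReal g y := by
  have hne : 2 * c.toNNReal ≠ 0 :=
    mul_ne_zero two_ne_zero (Real.toNNReal_pos.2 hc).ne'
  rw [H, gm, integral_gaussianReal_eq_integral_smul hne]
  refine integral_congr_ae (Filter.Eventually.of_forall fun u => ?_)
  simp only
  rw [heat_eq hc, Complex.real_smul]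

theorem hd_integrable {c : ℝ} (hc : 0 < c) (M : ℕ) (k : ℤ) : Integrable (hd c M k) := by
  have h1 : 0 < c * 4 ^ k := by positivity
  have h2 : 0 < c * 4 ^ (k + M) := by positivity
  exact ((heat_integrable h1).sub (heat_integrable h2)).ofReal

theorem Cc.bdd {X : Type} [TopologicalSpace X] {g : X → ℂ} (hg : Cc g) :
    ∃ B : ℝ, 0 ≤ B ∧ ∀ x, ‖g x‖ ≤ B := by
  obtain ⟨B, hB⟩ := hg.2.exists_bound_of_continuous hg.1
  exact ⟨max B 0, le_max_right _ _, fun x => (hB x).trans (le_max_left _ _)⟩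

theorem Cc.sq_ne_top {X : Type} [TopologicalSpace X] [MeasurableSpace X] [BorelSpace X]
    [T2Space X] {μ : Measure X} [IsFiniteMeasureOnCompacts μ] {g : X → ℂ} (hg : Cc g) :
    ∫⁻ x, ‖g x‖ₑ ^ 2 ∂μ ≠ ∞ := by
  obtain ⟨B, hB0, hB⟩ := Cc.bdd hg
  have h1 : ∀ x, ‖g x‖ₑ ^ 2 ≤ (tsupport g).indicator (fun _ => ENNReal.ofReal (B ^ 2)) x := by
    intro x
    by_cases hx : x ∈ tsupport g
    · rw [Set.indicator_of_mem hx, ← ofReal_norm, ← ENNReal.ofReal_pow (norm_nonneg _)]
      exact ENNReal.ofReal_le_ofReal (pow_le_pow_left₀ (norm_nonneg _) (hB x) 2)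
    · rw [image_eq_zero_of_notMem_tsupport hx]
      simp
  refine ne_top_of_le_ne_top ?_ (lintegral_mono h1)
  rw [lintegral_indicator (isClosed_tsupport g).measurableSet, lintegral_const,
    Measure.restrict_apply_univ]
  exact ENNReal.mul_ne_top ENNReal.ofReal_ne_top hg.2.measure_lt_top.ne

theorem one_dim {c : ℝ} (hc : 0 < c) (M : ℕ) {g : ℝ → ℂ} (hg : Cc g) :
    ∑' k : ℤ, ∫⁻ y, ‖∫ u, hd c M k u * g (y - u)‖ₑ ^ 2 ≤ (M : ℝ≥0∞) * ∫⁻ y, ‖g y‖ₑ ^ 2 := by
  obtain ⟨B, hB0, hB⟩ := Cc.bdd hg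
  have h2 : ∫⁻ x, ‖g x‖ₑ ^ 2 ≠ ∞ := Cc.sq_ne_top hg
  have hi : Integrable g := hg.1.integrable_of_hasCompactSupport hg.2
  set sc : ℤ → ℝ≥0 := fun k => (c * 4 ^ k).toNNReal with hsc
  set ψ : ℤ → ℝ := fun k => (phi g (sc k)).toReal with hψ
  have hmono : Monotone sc := by
    intro k l hkl
    have : (4 : ℝ) ^ k ≤ 4 ^ l := zpow_le_zpow_right₀ (by norm_num) hkl
    exact Real.toNNReal_le_toNNReal (mul_le_mul_of_nonneg_left this hc.le)
  have hψa : Antitone ψ := fun k l hkl => ENNReal.toReal_mono (phi_ne_top hg.1 hB h2 _)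
    (phi_anti hg.1 hB (hmono hkl))
  set S : ℝ := (∫⁻ x, ‖g x‖ₑ ^ 2).toReal with hS
  have hψS : ∀ k, ψ k ≤ S := fun k => by
    refine ENNReal.toReal_mono h2 ?_
    rw [← phi_zero]
    exact phi_anti hg.1 hB bot_le
  have hterm : ∀ k : ℤ, ∫⁻ y, ‖∫ u, hd c M k u * g (y - u)‖ₑ ^ 2
      ≤ ENNReal.ofReal (ψ k - ψ (k + M)) := by
    intro k
    have h1 : 0 < c * 4 ^ k := by positivity
    have h3 : 0 < c * 4 ^ (k + M) := by positivity
    have hH : ∀ y, ∫ u, hd c M k u * g (y - u) = H (sc k) g y - H (sc (k + M)) g y := by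
      intro y
      have e1 := heat_int h1 g y
      have e2 := heat_int h3 g y
      have i1 : Integrable fun u => (heat (c * 4 ^ k) u : ℂ) * g (y - u) :=
        (heat_integrable h1).ofReal.mul_bdd
          (hg.1.comp (by fun_prop : Continuous fun u => y - u)).aestronglyMeasurable
          (Filter.Eventually.of_forall fun u => hB _)
      have i2 : Integrable fun u => (heat (c * 4 ^ (k + M)) u : ℂ) * g (y - u) :=
        (heat_integrable h3).ofReal.mul_bdd
          (hg.1.comp (by fun_prop : Continuous fun u => y - u)).aestronglyMeasurable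
          (Filter.Eventually.of_forall fun u => hB _)
      rw [hsc]
      rw [← e1, ← e2, ← integral_sub i1 i2]
      refine integral_congr_ae (Filter.Eventually.of_forall fun u => ?_)
      simp only [hd]
      push_cast
      ring
    simp only [hH]
    exact diff_le hg.1 hi hB h2 _ _ (hmono (by omega))
  refine (ENNReal.tsum_le_tsum hterm).trans ?_
  rw [ENNReal.tsum_eq_iSup_sum]
  refine iSup_le fun s => ?_
  rw [← ENNReal.ofReal_sum_of_nonneg fun k _ => by
    have : ψ (k + M) ≤ ψ k := hψa (by omega)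
    linarith]
  refine (ENNReal.ofReal_le_ofReal (tele_sum ψ S (fun _ => ENNReal.toReal_nonneg) hψS hψa M s)).trans
    ?_
  rw [ENNReal.ofReal_mul (by positivity), ENNReal.ofReal_natCast, hS, ENNReal.ofReal_toReal h2]

/-! ### Several variables -/

/-- Adding a coordinate preserves the volume. -/
theorem mp_cons (n : ℕ) : MeasurePreserving
    (fun p : ℝ × (Fin n → ℝ) => (Fin.cons p.1 p.2 : Fin (n + 1) → ℝ))
    (volume.prod volume) volume ∧ MeasurableEmbedding
    (fun p : ℝ × (Fin n → ℝ) => (Fin.cons p.1 p.2 : Fin (n + 1) → ℝ)) := by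
  have h := (volume_preserving_piFinSuccAbove (fun _ : Fin (n + 1) => ℝ) 0).symm
  have he : (fun p : ℝ × (Fin n → ℝ) => (Fin.cons p.1 p.2 : Fin (n + 1) → ℝ))
      = (MeasurableEquiv.piFinSuccAbove (fun _ : Fin (n + 1) => ℝ) 0).symm := by
    funext p
    have h2 : (MeasurableEquiv.piFinSuccAbove (fun _ : Fin (n + 1) => ℝ) 0).symm p
      = Fin.insertNthEquiv (fun _ : Fin (n + 1) => ℝ) 0 p := rfl
    rw [h2, Fin.insertNthEquiv_zero]
    rfl
  rw [he]
  exact ⟨h, MeasurableEquiv.measurableEmbedding _⟩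

theorem cont_cons {n : ℕ} {X : Type*} [TopologicalSpace X] {f : X → ℝ} {h : X → Fin n → ℝ}
    (hf : Continuous f) (hh : Continuous h) :
    Continuous fun x => (Fin.cons (f x) (h x) : Fin (n + 1) → ℝ) := by
  refine continuous_pi fun i => ?_
  refine Fin.cases ?_ (fun j => ?_) i
  · simpa using hf
  · simp only [Fin.cons_succ]
    exact (continuous_apply j).comp hh

theorem gop_cons {n : ℕ} (φ : Fin (n + 1) → ℝ → ℂ) (hφ : ∀ i, Integrable (φ i))
    {g : (Fin (n + 1) → ℝ) → ℂ} (hg : Continuous g) {B : ℝ} (hB : ∀ x, ‖g x‖ ≤ B) (y : ℝ)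
    (z : Fin n → ℝ) :
    gop φ g (Fin.cons y z)
      = gop (fun j => φ j.succ) (fun z => ∫ u, φ 0 u * g (Fin.cons (y - u) z)) z := by
  obtain ⟨hmp, hem⟩ := mp_cons n
  have hsub : ∀ p : ℝ × (Fin n → ℝ), (Fin.cons y z : Fin (n + 1) → ℝ) - Fin.cons p.1 p.2
      = Fin.cons (y - p.1) (z - p.2) := by
    intro p
    funext i
    refine Fin.cases ?_ (fun j => ?_) i <;> simp
  have hF : Integrable (fun p : ℝ × (Fin n → ℝ) =>
      (φ 0 p.1 * ∏ j, φ (Fin.succ j) (p.2 j)) * g (Fin.cons (y - p.1) (z - p.2)))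
      (volume.prod volume) := by
    refine Integrable.mul_bdd (c := B) ?_ ?_ (Filter.Eventually.of_forall fun p => hB _)
    · exact (hφ 0).mul_prod (Integrable.fintype_prod fun j => hφ (Fin.succ j))
    · exact (hg.comp (cont_cons (by fun_prop) (by fun_prop))).aestronglyMeasurable
  rw [gop, ← hmp.integral_comp hem]
  simp only [Fin.prod_univ_succ, Fin.cons_zero, Fin.cons_succ, hsub]
  rw [integral_prod_symm _ hF, gop]
  refine integral_congr_ae (Filter.Eventually.of_forall fun v => ?_)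
  simp only
  rw [← integral_const_mul]
  refine integral_congr_ae (Filter.Eventually.of_forall fun u => ?_)
  simp only
  ring

theorem fin_case {c : ℝ} (hc : 0 < c) (M : ℕ) (n : ℕ) : ∀ g : (Fin n → ℝ) → ℂ, Cc g →
    ∑' κ : Fin n → ℤ, ∫⁻ x, ‖gop (fun i => hd c M (κ i)) g x‖ₑ ^ 2
      ≤ (M : ℝ≥0∞) ^ n * ∫⁻ x, ‖g x‖ₑ ^ 2 := by
  induction n with
  | zero =>
    intro g hg
    have h0 : ∀ (κ : Fin 0 → ℤ) (x : Fin 0 → ℝ), gop (fun i => hd c M (κ i)) g x = g x := by
      intro κ x
      rw [gop]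
      have : ∀ y : Fin 0 → ℝ, (∏ i, hd c M (κ i) (y i)) * g (x - y) = g x := fun y => by
        rw [Finset.univ_eq_empty, Finset.prod_empty, one_mul]
        congr 1
        exact Subsingleton.elim _ _
      simp only [this]
      rw [integral_const, Measure.volume_pi_eq_dirac (0 : Fin 0 → ℝ)]
      simp
    simp only [h0]
    rw [tsum_eq_single (default : Fin 0 → ℤ) fun b hb => absurd (Subsingleton.elim _ _) hb]
    simp
  | succ n ih =>
    intro g hg
    obtain ⟨B, hB0, hB⟩ := Cc.bdd hg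
    obtain ⟨hmp, hem⟩ := mp_cons n
    have hcc : Continuous fun p : ℝ × (Fin n → ℝ) => (Fin.cons p.1 p.2 : Fin (n + 1) → ℝ) :=
      cont_cons continuous_fst continuous_snd
    set F : ℤ → ℝ → (Fin n → ℝ) → ℂ := fun k y z => ∫ u, hd c M k u * g (Fin.cons (y - u) z)
      with hFdef
    have hFc : ∀ k, Continuous fun p : ℝ × (Fin n → ℝ) => F k p.1 p.2 := by
      intro k
      refine cont_int (hd_integrable hc M k) (G := fun (p : ℝ × (Fin n → ℝ)) u =>
        g (Fin.cons (p.1 - u) p.2)) (B := B) ?_ ?_ ?_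
      · intro u
        exact hg.1.comp (cont_cons (by fun_prop) (by fun_prop))
      · intro p
        exact (hg.1.comp (cont_cons (by fun_prop) (by fun_prop))).aestronglyMeasurable
      · intro p u
        exact hB _
    have hslice : ∀ z : Fin n → ℝ, Cc fun y : ℝ => g (Fin.cons y z) := by
      intro z
      refine ⟨hg.1.comp (cont_cons (by fun_prop) (by fun_prop)), ?_⟩
      refine HasCompactSupport.intro (hg.2.isCompact.image (continuous_apply 0)) fun y hy => ?_
      by_contra hne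
      exact hy ⟨Fin.cons y z, subset_tsupport _ hne, by simp⟩
    have hFz : ∀ k y, Cc (F k y) := by
      intro k y
      refine ⟨(hFc k).comp (by fun_prop : Continuous fun z : Fin n → ℝ => (y, z)), ?_⟩
      refine HasCompactSupport.intro (hg.2.isCompact.image
        (by fun_prop : Continuous fun x : Fin (n + 1) → ℝ => fun j : Fin n => x j.succ))
        fun z hz => ?_
      simp only [hFdef]
      have : ∀ u, g (Fin.cons (y - u) z) = 0 := by
        intro u
        by_contra hne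
        exact hz ⟨Fin.cons (y - u) z, subset_tsupport _ hne, by simp⟩
      simp [this]
    have hgc : ∀ κ : Fin (n + 1) → ℤ, Continuous (gop (fun i => hd c M (κ i)) g) := by
      intro κ
      refine cont_int (G := fun x y => g (x - y))
        (Integrable.fintype_prod fun i => hd_integrable hc M (κ i)) (B := B) ?_ ?_ ?_
      · intro u
        exact hg.1.comp (by fun_prop)
      · intro p
        exact (hg.1.comp (by fun_prop)).aestronglyMeasurable
      · intro p u
        exact hB _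
    have hgc' : ∀ (κ : Fin n → ℤ) (k : ℤ), Continuous fun p : ℝ × (Fin n → ℝ) =>
        gop (fun i => hd c M (κ i)) (F k p.1) p.2 := by
      intro κ k
      have h1 : ∀ p : ℝ × (Fin n → ℝ), gop (fun i => hd c M (κ i)) (F k p.1) p.2
          = gop (fun i => hd c M ((Fin.cons k κ : Fin (n + 1) → ℤ) i)) g (Fin.cons p.1 p.2) := by
        intro p
        rw [gop_cons _ (fun i => hd_integrable hc M _) hg.1 hB]
        simp only [Fin.cons_zero, Fin.cons_succ, hFdef]
      simp only [h1]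
      exact (hgc _).comp hcc
    have hmeasC : ∀ {f : ℝ × (Fin n → ℝ) → ℂ}, Continuous f →
        Measurable fun p => ‖f p‖ₑ ^ 2 := fun {f} hf =>
      (by fun_prop : Continuous fun p => ‖f p‖ₑ ^ 2).measurable
    rw [← (Fin.consEquiv (fun _ : Fin (n + 1) => ℤ)).tsum_eq, ENNReal.tsum_prod']
    calc ∑' (k : ℤ) (κ : Fin n → ℤ), ∫⁻ x,
          ‖gop (fun i => hd c M ((Fin.consEquiv (fun _ : Fin (n + 1) => ℤ)) (k, κ) i)) g x‖ₑ ^ 2
        = ∑' (k : ℤ) (κ : Fin n → ℤ), ∫⁻ y : ℝ, ∫⁻ z : Fin n → ℝ,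
          ‖gop (fun i => hd c M (κ i)) (F k y) z‖ₑ ^ 2 := by
          refine tsum_congr fun k => tsum_congr fun κ => ?_
          rw [← hmp.lintegral_comp_emb hem, lintegral_prod _ ?_]
          · refine lintegral_congr fun y => lintegral_congr fun z => ?_
            rw [gop_cons _ (fun i => hd_integrable hc M _) hg.1 hB]
            rfl
          · exact (hmeasC ((hgc _).comp hcc)).aemeasurable
      _ = ∑' k : ℤ, ∫⁻ y : ℝ, ∑' κ : Fin n → ℤ, ∫⁻ z : Fin n → ℝ,
          ‖gop (fun i => hd c M (κ i)) (F k y) z‖ₑ ^ 2 := by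
          refine tsum_congr fun k => (lintegral_tsum fun κ => ?_).symm
          exact (hmeasC (hgc' κ k)).lintegral_prod_right'.aemeasurable
      _ ≤ ∑' k : ℤ, ∫⁻ y : ℝ, (M : ℝ≥0∞) ^ n * ∫⁻ z : Fin n → ℝ, ‖F k y z‖ₑ ^ 2 :=
          ENNReal.tsum_le_tsum fun k => lintegral_mono fun y => ih _ (hFz k y)
      _ = (M : ℝ≥0∞) ^ n * ∫⁻ z : Fin n → ℝ, ∑' k : ℤ, ∫⁻ y : ℝ, ‖F k y z‖ₑ ^ 2 := by
          rw [lintegral_tsum fun k => (hmeasC (hFc k)).lintegral_prod_left'.aemeasurable,
            ← ENNReal.tsum_mul_left]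
          refine tsum_congr fun k => ?_
          rw [lintegral_const_mul _ (hmeasC (hFc k)).lintegral_prod_right']
          congr 1
          exact lintegral_lintegral_swap (hmeasC (hFc k)).aemeasurable
      _ ≤ (M : ℝ≥0∞) ^ n * ∫⁻ z : Fin n → ℝ, (M : ℝ≥0∞) * ∫⁻ y : ℝ, ‖g (Fin.cons y z)‖ₑ ^ 2 := by
          refine mul_le_mul' le_rfl (lintegral_mono fun z => ?_)
          have h1 := one_dim hc M (hslice z)
          simp only [hFdef]
          exact h1
      _ = (M : ℝ≥0∞) ^ (n + 1) * ∫⁻ x, ‖g x‖ₑ ^ 2 := by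
          have hm : Measurable fun p : ℝ × (Fin n → ℝ) => ‖g (Fin.cons p.1 p.2)‖ₑ ^ 2 :=
            hmeasC (hg.1.comp hcc)
          rw [lintegral_const_mul _ hm.lintegral_prod_left', ← mul_assoc, ← pow_succ,
            ← hmp.lintegral_comp_emb hem, lintegral_prod_symm _ hm.aemeasurable]

end Pool.Agent.MP_bb1b7e.Heat

namespace Pool.Agent.MP_bb1b7e

open MeasureTheory Heat
open scoped ENNReal NNReal

/-- Reindexing the coordinates. -/
theorem gop_reindex {ι ι' : Type} [Fintype ι] [Fintype ι'] (f : ι' ≃ ι) (φ : ι → ℝ → ℂ)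
    (g : (ι → ℝ) → ℂ) (x : ι' → ℝ) :
    gop φ g (fun i => x (f.symm i)) = gop (fun j => φ (f j)) (fun y => g fun i => y (f.symm i)) x := by
  have hmp := volume_measurePreserving_piCongrLeft (fun _ : ι => ℝ) f
  rw [gop, gop, ← hmp.integral_comp (MeasurableEquiv.measurableEmbedding _)]
  refine integral_congr_ae (Filter.Eventually.of_forall fun y => ?_)
  have hy : (MeasurableEquiv.piCongrLeft (fun _ : ι => ℝ) f) y = fun i => y (f.symm i) := by
    funext i
    obtain ⟨j, rfl⟩ := f.surjective i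
    rw [Equiv.symm_apply_apply]
    exact Equiv.piCongrLeft_apply_apply (fun _ : ι => ℝ) f y j
  simp only [hy]
  congr 1
  rw [← f.prod_comp]
  simp

theorem lintegral_reindex {ι ι' : Type} [Fintype ι] [Fintype ι'] (f : ι' ≃ ι)
    (F : (ι → ℝ) → ℝ≥0∞) : ∫⁻ x, F x = ∫⁻ x : ι' → ℝ, F fun i => x (f.symm i) := by
  have hmp := volume_measurePreserving_piCongrLeft (fun _ : ι => ℝ) f
  rw [← hmp.lintegral_comp_emb (MeasurableEquiv.measurableEmbedding _)]
  refine lintegral_congr fun y => ?_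
  congr 1
  funext i
  obtain ⟨j, rfl⟩ := f.surjective i
  rw [Equiv.symm_apply_apply]
  exact Equiv.piCongrLeft_apply_apply (fun _ : ι => ℝ) f y j

/-- Module HEAT. -/
theorem specHeat : SpecHeat := by
  intro ι _ c M hc g hg
  set f : Fin (Fintype.card ι) ≃ ι := (Fintype.equivFin ι).symm with hf
  have hcont : Continuous fun y : Fin (Fintype.card ι) → ℝ => (fun i => y (f.symm i) : ι → ℝ) := by
    fun_prop
  have hg' : Cc fun y : Fin (Fintype.card ι) → ℝ => g fun i => y (f.symm i) := by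
    refine ⟨hg.1.comp hcont, ?_⟩
    refine HasCompactSupport.intro (hg.2.isCompact.image
      (by fun_prop : Continuous fun x : ι → ℝ => fun j => x (f j))) fun y hy => ?_
    by_contra hne
    exact hy ⟨fun i => y (f.symm i), subset_tsupport _ hne, by simp⟩
  have h := fin_case hc M _ _ hg'
  rw [lintegral_reindex f (fun x => ‖g x‖ₑ ^ 2)]
  refine le_trans (le_of_eq ?_) h
  rw [← (Equiv.arrowCongr f (Equiv.refl ℤ)).tsum_eq]
  refine tsum_congr fun κ => ?_
  rw [lintegral_reindex f]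
  refine lintegral_congr fun x => ?_
  rw [gop_reindex]
  simp

end Pool.Agent.MP_bb1b7e
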