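import Pool.Agent.Lib.MP_bb1b7e_an.Spec

/-!
# Module INT: interpolation and integration in `τ`
-/

namespace Pool.Agent.MP_bb1b7e

open MeasureTheory
open scoped ENNReal NNReal

/-! ### The parameter `μ` -/

theorem one_le_norm_mu (τ : ℝ) : 1 ≤ ‖mu τ‖ := by
  have h := Complex.abs_re_le_norm (mu τ)
  simpa [mu] using h

theorem norm_mu_pos (τ : ℝ) : 0 < ‖mu τ‖ := zero_lt_one.trans_le (one_le_norm_mu τ)

/-- The number of scales is at most logarithmic. -/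
theorem sc_le (τ : ℝ) : (sc τ : ℝ) + 1 ≤ 4 + Real.log ‖mu τ‖ := by
  have h1 := one_le_norm_mu τ
  have hlog := Real.log_nonneg h1
  unfold sc
  rcases Nat.lt_or_ge ⌈‖mu τ‖⌉₊ 2 with h | h
  · rw [Nat.clog_of_right_le_one (by omega)]
    norm_num
    linarith
  · have h2 := Nat.pow_pred_clog_lt_self (b := 4) (by norm_num) (x := ⌈‖mu τ‖⌉₊) (by omega)
    have h3 : ((4 : ℝ) ^ (Nat.clog 4 ⌈‖mu τ‖⌉₊).pred) < ‖mu τ‖ + 1 := by
      calc ((4 : ℝ) ^ (Nat.clog 4 ⌈‖mu τ‖⌉₊).pred) < (⌈‖mu τ‖⌉₊ : ℝ) := by exact_mod_cast h2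
        _ ≤ ‖mu τ‖ + 1 := (Nat.ceil_lt_add_one (by linarith)).le
    have h4 : Real.log ((4 : ℝ) ^ (Nat.clog 4 ⌈‖mu τ‖⌉₊).pred) ≤ Real.log (2 * ‖mu τ‖) :=
      Real.log_le_log (by positivity) (by linarith)
    rw [Real.log_pow, Real.log_mul (by norm_num) (by linarith)] at h4
    have h5 : Real.log 4 = 2 * Real.log 2 := by
      rw [show (4 : ℝ) = 2 ^ 2 by norm_num, Real.log_pow]
      norm_num
    have h6 : Real.log 2 < 0.6931471808 := Real.log_two_lt_d9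
    have h7 : 0.6931471803 < Real.log 2 := Real.log_two_gt_d9
    have h8 : ((Nat.clog 4 ⌈‖mu τ‖⌉₊ : ℕ) : ℝ) ≤ ((Nat.clog 4 ⌈‖mu τ‖⌉₊).pred : ℝ) + 1 := by
      have : Nat.clog 4 ⌈‖mu τ‖⌉₊ ≤ (Nat.clog 4 ⌈‖mu τ‖⌉₊).pred + 1 := by
        rw [Nat.pred_eq_sub_one]; omega
      exact_mod_cast this
    have h9 : (0 : ℝ) ≤ ((Nat.clog 4 ⌈‖mu τ‖⌉₊).pred : ℝ) := Nat.cast_nonneg _
    nlinarith

/-- The logarithms are absorbed by a small power. -/
theorem sc_pow_le (m : ℕ) {δ : ℝ} (hδ : 0 < δ) : ∃ C : ℝ, 0 < C ∧ ∀ τ,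
    ((sc τ : ℝ) + 1) ^ (m + 1) ≤ C * ‖mu τ‖ ^ δ := by
  set ε : ℝ := δ / (m + 1) with hε
  have hm : (0 : ℝ) < m + 1 := by positivity
  have hε0 : 0 < ε := div_pos hδ hm
  refine ⟨(4 + 1 / ε) ^ (m + 1), by positivity, fun τ => ?_⟩
  have h1 := one_le_norm_mu τ
  have h2 : (sc τ : ℝ) + 1 ≤ (4 + 1 / ε) * ‖mu τ‖ ^ ε := by
    refine (sc_le τ).trans ?_
    have h3 := Real.log_le_rpow_div (norm_nonneg (mu τ)) hε0
    have h4 : (1 : ℝ) ≤ ‖mu τ‖ ^ ε := Real.one_le_rpow h1 hε0.le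
    have h5 : ‖mu τ‖ ^ ε / ε = 1 / ε * ‖mu τ‖ ^ ε := by ring
    rw [h5] at h3
    nlinarith
  calc ((sc τ : ℝ) + 1) ^ (m + 1) ≤ ((4 + 1 / ε) * ‖mu τ‖ ^ ε) ^ (m + 1) := by
        gcongr
    _ = (4 + 1 / ε) ^ (m + 1) * ‖mu τ‖ ^ δ := by
        rw [mul_pow, ← Real.rpow_natCast (‖mu τ‖ ^ ε), ← Real.rpow_mul (norm_nonneg _)]
        congr 2
        rw [hε]
        push_cast
        field_simp

/-! ### The operators -/

variable {ι : Type} [Fintype ι]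

theorem cc_ofReal {X : Type} [TopologicalSpace X] {g : X → ℝ} (hg : Cc g) :
    Cc (fun y => ((g y : ℝ) : ℂ)) := by
  refine ⟨Complex.continuous_ofReal.comp hg.1, ?_⟩
  have : (fun y => ((g y : ℝ) : ℂ)) = Complex.ofReal ∘ g := rfl
  rw [this]
  exact HasCompactSupport.comp_left hg.2 Complex.ofReal_zero

/-- The integrand is a continuous function of all variables. -/
theorem continuous_kernel {n : ℕ} (t : Fin n → ℝ) {g : (Fin n → ℝ) → ℂ} (hg : Continuous g) :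
    Continuous fun p : (ℝ × (Fin n → ℝ)) × (Fin n → ℝ) =>
      (∏ i, ker p.1.1 (t i) (p.2 i)) * g (p.1.2 - p.2) := by
  unfold ker mu
  fun_prop

theorem measurable_gop {n : ℕ} (t : Fin n → ℝ) {g : (Fin n → ℝ) → ℂ} (hg : Continuous g) :
    Measurable fun p : ℝ × (Fin n → ℝ) => gop (fun i => ker p.1 (t i)) g p.2 := by
  have h := (continuous_kernel t hg).stronglyMeasurable
  exact (StronglyMeasurable.integral_prod_right' (ν := volume) h).measurable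

theorem integrable_gop {n : ℕ} (φ : Fin n → ℝ → ℂ) (hφ : ∀ i, Continuous (φ i))
    {g : (Fin n → ℝ) → ℂ} (hg : Cc g) (x : Fin n → ℝ) :
    Integrable fun y : Fin n → ℝ => (∏ i, φ i (y i)) * g (x - y) := by
  apply Continuous.integrable_of_hasCompactSupport
  · have := hg.1
    fun_prop
  · apply HasCompactSupport.mul_left
    exact hg.2.comp_homeomorph (Homeomorph.subLeft x)

theorem continuous_ker (τ t : ℝ) : Continuous (ker τ t) := by
  unfold ker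
  fun_prop

theorem gop_add {n : ℕ} (φ : Fin n → ℝ → ℂ) (hφ : ∀ i, Continuous (φ i))
    {g h : (Fin n → ℝ) → ℂ} (hg : Cc g) (hh : Cc h) (x : Fin n → ℝ) :
    gop φ (g + h) x = gop φ g x + gop φ h x := by
  unfold gop
  rw [← integral_add (integrable_gop φ hφ hg x) (integrable_gop φ hφ hh x)]
  congr 1
  funext y
  simp only [Pi.add_apply]
  ring

/-- The maximal operator for fixed `τ`. -/
noncomputable def Tm {n : ℕ} {A : Type} (t : A → Fin n → ℝ) (τ : ℝ) (g : (Fin n → ℝ) → ℝ)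
    (x : Fin n → ℝ) : ℝ≥0∞ :=
  ⨆ a, ‖gop (fun i => ker τ (t a i)) (fun y => (g y : ℂ)) x‖ₑ

theorem measurable_Tm {n : ℕ} {A : Type} [Countable A] (t : A → Fin n → ℝ)
    {g : (Fin n → ℝ) → ℝ} (hg : Continuous g) :
    Measurable fun p : ℝ × (Fin n → ℝ) => Tm t p.1 g p.2 := by
  unfold Tm
  exact Measurable.iSup fun a => (measurable_gop (t a)
    (Complex.continuous_ofReal.comp hg)).enorm

theorem measurable_Tm' {n : ℕ} {A : Type} [Countable A] (t : A → Fin n → ℝ) (τ : ℝ)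
    {g : (Fin n → ℝ) → ℝ} (hg : Continuous g) : Measurable fun x => Tm t τ g x := by
  unfold Tm
  exact Measurable.iSup fun a => (((measurable_gop (t a)
    (Complex.continuous_ofReal.comp hg)).comp
      (measurable_prodMk_left : Measurable fun x : Fin n → ℝ => (τ, x)))).enorm

theorem Tm_add {n : ℕ} {A : Type} (t : A → Fin n → ℝ) (τ : ℝ) {g h : (Fin n → ℝ) → ℝ}
    (hg : CcP g) (hh : CcP h) (x : Fin n → ℝ) : Tm t τ (g + h) x ≤ Tm t τ g x + Tm t τ h x := by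
  unfold Tm
  apply iSup_le
  intro a
  have h1 := gop_add (fun i => ker τ (t a i)) (fun i => continuous_ker _ _)
    (cc_ofReal hg.1) (cc_ofReal hh.1) x
  have h2 : (fun y => (((g + h) y : ℝ) : ℂ)) = (fun y => (g y : ℂ)) + fun y => (h y : ℂ) := by
    funext y
    simp
  rw [h2, h1]
  refine (enorm_add_le _ _).trans (add_le_add ?_ ?_)
  · exact le_iSup (fun a => ‖gop (fun i => ker τ (t a i)) (fun y => (g y : ℂ)) x‖ₑ) a
  · exact le_iSup (fun a => ‖gop (fun i => ker τ (t a i)) (fun y => (h y : ℂ)) x‖ₑ) a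

theorem enorm_ofReal' {g : ℝ} (hg : 0 ≤ g) : ‖(g : ℂ)‖ₑ = ENNReal.ofReal g := by
  rw [← ofReal_norm, Complex.norm_real, Real.norm_of_nonneg hg]

/-- Module INT. -/
theorem specInt (hL2 : SpecL2) (hLq : SpecLq) (hM : SpecMarc) (hT : SpecTau) : SpecInt := by
  intro m hm p hp hp2
  obtain ⟨C2, hC2, h2⟩ := hL2 m
  have hm0 : (0 : ℝ) < m := by positivity
  have hm3 : (3 : ℝ) ≤ m := by exact_mod_cast hm
  -- the `L²` bound with a small loss
  have hB : ∀ δ : ℝ, 0 < δ → ∃ C : ℝ≥0, 0 < C ∧ ∀ (τ : ℝ) (A : Type) [Countable A]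
      (t : A → Fin (m + 1) → ℝ), (∀ a i, 0 < t a i) → (∀ a, ∃ k : ℤ, t a 0 = 2 ^ k) →
      ∀ g : (Fin (m + 1) → ℝ) → ℝ, CcP g →
        ∫⁻ x, Tm t τ g x ^ (2 : ℝ) ≤ (C * (‖mu τ‖ ^ (-(((m : ℝ) + 2) / 2 - δ))).toNNReal : ℝ≥0) *
          ∫⁻ x, ENNReal.ofReal (g x) ^ (2 : ℝ) := by
    intro δ hδ
    obtain ⟨C3, hC3, h3⟩ := sc_pow_le m hδ
    refine ⟨(C2 * C3).toNNReal, by positivity, fun τ A _ t ht ht0 g hg => ?_⟩
    have h4 := h2 τ A t ht ht0 (fun y => (g y : ℂ)) (cc_ofReal hg.1)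
    have e1 : ∫⁻ x, Tm t τ g x ^ (2 : ℝ)
        = ∫⁻ x, (⨆ a, ‖gop (fun i => ker τ (t a i)) (fun y => (g y : ℂ)) x‖ₑ) ^ 2 := by
      simp only [ENNReal.rpow_two]
      rfl
    have e2 : ∫⁻ x, ENNReal.ofReal (g x) ^ (2 : ℝ) = ∫⁻ x, ‖(g x : ℂ)‖ₑ ^ 2 := by
      simp only [ENNReal.rpow_two]
      refine lintegral_congr fun x => ?_
      rw [enorm_ofReal' (hg.2 x)]
    rw [e1, e2]
    refine h4.trans ?_
    gcongr
    rw [ENNReal.coe_mul, ← ENNReal.ofReal, ← ENNReal.ofReal, ← ENNReal.ofReal_mul (by positivity)]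
    apply ENNReal.ofReal_le_ofReal
    have h5 := norm_mu_pos τ
    calc C2 * ‖mu τ‖ ^ (-((m : ℝ) + 2) / 2) * ((sc τ : ℝ) + 1) ^ (m + 1)
        ≤ C2 * ‖mu τ‖ ^ (-((m : ℝ) + 2) / 2) * (C3 * ‖mu τ‖ ^ δ) := by
          gcongr
          exact h3 τ
      _ = C2 * C3 * (‖mu τ‖ ^ (-((m : ℝ) + 2) / 2) * ‖mu τ‖ ^ δ) := by ring
      _ = _ := by
          rw [← Real.rpow_add h5]
          congr 2
          ring
  rcases hp2.eq_or_lt with rfl | hp2
  · -- the case `p = 2`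
    obtain ⟨C, hC, h⟩ := hB (1 / 4) (by norm_num)
    obtain ⟨C', h'⟩ := hT 2 (((m : ℝ) + 2) / 2 - 1 / 4) (by norm_num) (by linarith) C
    refine ⟨C', fun A _ t ht ht0 g hg => ?_⟩
    apply h' (Fin (m + 1)) (fun τ x => Tm t τ g x) (measurable_Tm t hg.1.1)
    intro τ
    refine (h τ A t ht ht0 g hg).trans (le_of_eq ?_)
    rw [ENNReal.coe_mul]
    rfl
  · -- the case `p < 2`
    have hp1 : 1 < p := by
      refine lt_trans ?_ hp
      rw [lt_div_iff₀ hm0]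
      linarith
    set Δ : ℝ := (p - 1) * ((m + 2) / 2) - p with hΔ
    have hΔ0 : 0 < Δ := by
      rw [div_lt_iff₀ hm0] at hp
      rw [hΔ]
      nlinarith
    set ε : ℝ := min ((p - 1) / 2) (Δ / (2 * (m + 2))) with hε
    have hε0 : 0 < ε := lt_min (by linarith) (by positivity)
    have hε1 : ε ≤ (p - 1) / 2 := min_le_left _ _
    have hε2 : ε * (m + 2) ≤ Δ / 2 := by
      have := min_le_right ((p - 1) / 2) (Δ / (2 * (m + 2)))
      rw [← hε, le_div_iff₀ (by positivity)] at this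
      linarith
    set δ : ℝ := min (Δ / 4) 1 with hδ
    have hδ0 : 0 < δ := lt_min (by linarith) one_pos
    have hδ1 : δ ≤ Δ / 4 := min_le_left _ _
    have hδ2 : δ ≤ 1 := min_le_right _ _
    set q : ℝ := 1 + ε with hq
    set θ : ℝ := (p - q) / (2 - q) with hθ
    have hθ1 : p - 1 - ε ≤ θ := by
      rw [hθ, le_div_iff₀ (by linarith)]
      have : 0 ≤ p - 1 - ε := by linarith
      nlinarith
    have hθ0 : 0 < θ := lt_of_lt_of_le (by linarith) hθ1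
    set γ : ℝ := θ * (((m : ℝ) + 2) / 2 - δ) with hγ
    have hγp : p < γ := by
      have h1 : (p - 1 - ε) * (((m : ℝ) + 2) / 2 - δ) ≤ γ := by
        rw [hγ]
        apply mul_le_mul_of_nonneg_right hθ1
        linarith
      nlinarith
    obtain ⟨Aq, hAq⟩ := hLq (Fin (m + 1)) q (by linarith)
    obtain ⟨Cm, hCm⟩ := hM q p (by linarith) (by linarith) hp2 Aq
    obtain ⟨C, hC, h⟩ := hB δ hδ0
    obtain ⟨C', h'⟩ := hT p γ hp1 hγp (Cm * C ^ θ)
    refine ⟨C', fun A _ t ht ht0 g hg => ?_⟩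
    apply h' (Fin (m + 1)) (fun τ x => Tm t τ g x) (measurable_Tm t hg.1.1)
    intro τ
    have h5 := norm_mu_pos τ
    have h6 : 0 < ‖mu τ‖ ^ (-(((m : ℝ) + 2) / 2 - δ)) := Real.rpow_pos_of_pos h5 _
    refine (hCm (Fin (m + 1)) (Tm t τ)
      (C * (‖mu τ‖ ^ (-(((m : ℝ) + 2) / 2 - δ))).toNNReal)
      (mul_pos hC (Real.toNNReal_pos.2 h6))
      (fun g hg => measurable_Tm' t τ hg.1.1)
      (fun g h hg hh x => Tm_add t τ hg hh x) ?_ ?_ g hg).trans (le_of_eq ?_)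
    · intro g hg
      have h7 := hAq τ A t ht (fun y => (g y : ℂ)) (cc_ofReal hg.1)
      refine h7.trans (le_of_eq ?_)
      congr 1
      refine lintegral_congr fun x => ?_
      rw [enorm_ofReal' (hg.2 x)]
    · exact fun g hg => h τ A t ht ht0 g hg
    · congr 1
      rw [ENNReal.coe_mul Cm, mul_assoc]
      congr 1
      rw [ENNReal.coe_mul C, ENNReal.mul_rpow_of_nonneg _ _ hθ0.le]
      congr 1
      · rw [ENNReal.coe_rpow_of_nonneg _ hθ0.le]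
      · rw [← ENNReal.ofReal, ENNReal.ofReal_rpow_of_pos h6, ← Real.rpow_mul h5.le]
        congr 2
        rw [hγ]
        ring

end Pool.Agent.MP_bb1b7e
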