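import Pool.Agent.Lib.MP_bb1b7e_an.Spec

/-!
# Module L2: product expansion of the Gaussian kernel
-/

set_option autoImplicit false

namespace Pool.Agent.MP_bb1b7e

open MeasureTheory
open scoped ENNReal NNReal

namespace L2

section Split

variable {ι : Type} [Fintype ι] (p : ι → Prop) [DecidablePred p]

/-- splitting the coordinates -/
noncomputable def ee : (ι → ℝ) ≃ᵐ (({i // p i} → ℝ) × ({i // ¬ p i} → ℝ)) :=
  MeasurableEquiv.piEquivPiSubtypeProd (fun _ : ι => ℝ) p

omit [Fintype ι] in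
lemma ee_symm_apply (w : ({i // p i} → ℝ) × ({i // ¬ p i} → ℝ)) (i : ι) :
    (ee p).symm w i = if h : p i then w.1 ⟨i, h⟩ else w.2 ⟨i, h⟩ := rfl

lemma ee_pres : MeasurePreserving (ee p) :=
  volume_preserving_piEquivPiSubtypeProd (fun _ : ι => ℝ) p

lemma ee_symm_pres : MeasurePreserving (ee p).symm := (ee_pres p).symm

omit [Fintype ι] in
lemma ee_sub (w w' : ({i // p i} → ℝ) × ({i // ¬ p i} → ℝ)) :
    (ee p).symm w - (ee p).symm w' = (ee p).symm (w - w') := by
  funext i
  rw [Pi.sub_apply, ee_symm_apply, ee_symm_apply, ee_symm_apply]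
  by_cases h : p i
  · rw [dif_pos h, dif_pos h, dif_pos h]; rfl
  · rw [dif_neg h, dif_neg h, dif_neg h]; rfl

omit [Fintype ι] in
lemma ee_symm_cont : Continuous (ee p).symm := by
  apply continuous_pi
  intro i
  by_cases h : p i
  · have : (fun w => (ee p).symm w i) = fun w => w.1 ⟨i, h⟩ := by
      funext w; rw [ee_symm_apply, dif_pos h]
    rw [this]
    exact (continuous_apply _).comp continuous_fst
  · have : (fun w => (ee p).symm w i) = fun w => w.2 ⟨i, h⟩ := by
      funext w; rw [ee_symm_apply, dif_neg h]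
    rw [this]
    exact (continuous_apply _).comp continuous_snd

/-- the section of a function -/
noncomputable def sec (g : (ι → ℝ) → ℂ) (z : {i // ¬ p i} → ℝ) (u : {i // p i} → ℝ) : ℂ :=
  g ((ee p).symm (u, z))

omit [Fintype ι] in
lemma sec_Cc {g : (ι → ℝ) → ℂ} (hg : Cc g) (z : {i // ¬ p i} → ℝ) : Cc (sec p g z) := by
  constructor
  · exact hg.1.comp ((ee_symm_cont p).comp (Continuous.prodMk continuous_id continuous_const))
  · have hc : IsCompact ((fun x : ι → ℝ => (fun i : {i // p i} => x i)) '' tsupport g) :=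
      hg.2.isCompact.image (by fun_prop)
    apply HasCompactSupport.intro hc
    intro u hu
    by_contra hne
    apply hu
    refine ⟨(ee p).symm (u, z), subset_tsupport _ hne, ?_⟩
    funext i
    show (ee p).symm (u, z) i = u i
    rw [ee_symm_apply, dif_pos i.2]

lemma prod_glue (φ : ι → ℝ → ℂ) (y : ι → ℝ) :
    ∏ i, φ i (y i) = (∏ i : {i // p i}, φ i ((ee p y).1 i)) *
      ∏ i : {i // ¬ p i}, φ i ((ee p y).2 i) := by
  rw [← Fintype.prod_subtype_mul_prod_subtype p (fun i => φ i (y i))]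
  rfl

variable {p}

/-- `gop` of a product kernel, in the two blocks of variables -/
lemma gop_split {φ : ι → ℝ → ℂ} (hφ : ∀ i, Integrable (φ i)) {g : (ι → ℝ) → ℂ} (hg : Cc g)
    (y : {i // p i} → ℝ) (z : {i // ¬ p i} → ℝ) :
    gop φ g ((ee p).symm (y, z)) =
      ∫ v : {i // ¬ p i} → ℝ, (∏ i : {i // ¬ p i}, φ i (v i)) *
        gop (fun i : {i // p i} => φ i) (sec p g (z - v)) y := by
  have h1 : gop φ g ((ee p).symm (y, z)) = ∫ w : ({i // p i} → ℝ) × ({i // ¬ p i} → ℝ),
      ((∏ i : {i // p i}, φ i (w.1 i)) * ∏ i : {i // ¬ p i}, φ i (w.2 i)) *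
        g ((ee p).symm ((y, z) - w)) := by
    rw [← (ee_pres p).integral_comp' (fun w : ({i // p i} → ℝ) × ({i // ¬ p i} → ℝ) =>
      ((∏ i : {i // p i}, φ i (w.1 i)) * ∏ i : {i // ¬ p i}, φ i (w.2 i)) *
        g ((ee p).symm ((y, z) - w)))]
    unfold gop
    apply integral_congr_ae
    filter_upwards with x
    rw [prod_glue p φ x, ← ee_sub, MeasurableEquiv.symm_apply_apply]
  have hint : Integrable (fun w : ({i // p i} → ℝ) × ({i // ¬ p i} → ℝ) =>
      ((∏ i : {i // p i}, φ i (w.1 i)) * ∏ i : {i // ¬ p i}, φ i (w.2 i)) *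
        g ((ee p).symm ((y, z) - w))) := by
    obtain ⟨B, hB⟩ := hg.1.bounded_above_of_compact_support hg.2
    apply Integrable.mul_bdd (c := B)
    · apply Integrable.mul_prod (f := fun u : {i // p i} → ℝ => ∏ i : {i // p i}, φ i (u i))
        (g := fun v : {i // ¬ p i} → ℝ => ∏ i : {i // ¬ p i}, φ i (v i))
      · exact Integrable.fintype_prod (f := fun (i : {i // p i}) => φ i) (fun i => hφ i)
      · exact Integrable.fintype_prod (f := fun (i : {i // ¬ p i}) => φ i) (fun i => hφ i)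
    · exact (hg.1.comp ((ee_symm_cont p).comp (by fun_prop))).aestronglyMeasurable
    · filter_upwards with w using hB _
  rw [h1]
  have h2 : (volume : Measure (({i // p i} → ℝ) × ({i // ¬ p i} → ℝ))) =
    (volume : Measure ({i // p i} → ℝ)).prod (volume : Measure ({i // ¬ p i} → ℝ)) := rfl
  rw [h2] at hint ⊢
  rw [integral_prod_symm _ hint]
  apply integral_congr_ae
  filter_upwards with v
  unfold gop sec
  rw [← integral_const_mul]
  apply integral_congr_ae
  filter_upwards with u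
  simp only [Prod.mk_sub_mk]
  ring

lemma gop_sec_meas {φ : {i // p i} → ℝ → ℂ} (hφ : ∀ i, Measurable (φ i)) {g : (ι → ℝ) → ℂ}
    (hg : Cc g) : Measurable (fun w : ({i // p i} → ℝ) × ({i // ¬ p i} → ℝ) =>
      gop φ (sec p g w.2) w.1) := by
  have h : Measurable (fun q : (({i // p i} → ℝ) × ({i // ¬ p i} → ℝ)) × ({i // p i} → ℝ) =>
      (∏ i, φ i (q.2 i)) * g ((ee p).symm (q.1.1 - q.2, q.1.2))) := by
    apply Measurable.mul
    · apply Finset.measurable_prod
      intro i _
      exact (hφ i).comp ((measurable_pi_apply i).comp measurable_snd)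
    · exact hg.1.measurable.comp ((ee p).symm.measurable.comp
        (Measurable.prodMk ((measurable_fst.comp measurable_fst).sub measurable_snd)
          (measurable_snd.comp measurable_fst)))
  exact (StronglyMeasurable.integral_prod_right' h.stronglyMeasurable).measurable

lemma split_bound {A : Type} [Countable A] {φ : A → ι → ℝ → ℂ}
    (hφ : ∀ a i, Integrable (φ a i)) (hφm : ∀ a i, p i → Measurable (φ a i))
    {s : A → {i // ¬ p i} → ℝ} {B : ℝ≥0∞}
    (hl : ∀ a (v : {i // ¬ p i} → ℝ), ‖∏ i : {i // ¬ p i}, φ a i (v i)‖ₑ ≤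
      B * ENNReal.ofReal (∏ i, (s a i)⁻¹ * Real.exp (-(v i / s a i) ^ 2)))
    {S D : ℝ≥0∞}
    (hSM : ∀ Φ : ({i // ¬ p i} → ℝ) → ℝ≥0∞, Measurable Φ →
      ∫⁻ x, (⨆ a, gav (s a) Φ x) ^ 2 ≤ S * ∫⁻ x, Φ x ^ 2)
    (hDT : ∀ g : ({i // p i} → ℝ) → ℂ, Cc g →
      ∫⁻ x, (⨆ a, ‖gop (fun i : {i // p i} => φ a i) g x‖ₑ) ^ 2 ≤ D * ∫⁻ x, ‖g x‖ₑ ^ 2)
    {g : (ι → ℝ) → ℂ} (hg : Cc g) :
    ∫⁻ x, (⨆ a, ‖gop (φ a) g x‖ₑ) ^ 2 ≤ B ^ 2 * S * D * ∫⁻ x, ‖g x‖ₑ ^ 2 := by
  obtain ⟨Φ, hΦ⟩ : ∃ Φ : ({i // p i} → ℝ) → ({i // ¬ p i} → ℝ) → ℝ≥0∞,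
    Φ = fun y z => ⨆ a, ‖gop (fun i : {i // p i} => φ a i) (sec p g z) y‖ₑ := ⟨_, rfl⟩
  have hΦm : Measurable (fun w : ({i // p i} → ℝ) × ({i // ¬ p i} → ℝ) => Φ w.1 w.2) := by
    rw [hΦ]
    apply Measurable.iSup
    intro a
    have h3 := gop_sec_meas (φ := fun i : {i // p i} => φ a i) (fun i => hφm a i i.2) hg
    exact h3.enorm
  have hgavm : Measurable (fun w : ({i // p i} → ℝ) × ({i // ¬ p i} → ℝ) =>
      ⨆ a, gav (s a) (Φ w.1) w.2) := by
    apply Measurable.iSup
    intro a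
    have h : Measurable (fun q : (({i // p i} → ℝ) × ({i // ¬ p i} → ℝ)) × ({i // ¬ p i} → ℝ) =>
        ENNReal.ofReal (∏ i, (s a i)⁻¹ * Real.exp (-(q.2 i / s a i) ^ 2)) *
          Φ q.1.1 (q.1.2 - q.2)) := by
      apply Measurable.mul
      · apply Measurable.ennreal_ofReal
        apply Finset.measurable_prod
        intro i _
        fun_prop
      · exact hΦm.comp (Measurable.prodMk (measurable_fst.comp measurable_fst)
          ((measurable_snd.comp measurable_fst).sub measurable_snd))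
    have h2 := h.lintegral_prod_right' (ν := (volume : Measure ({i // ¬ p i} → ℝ)))
    unfold gav
    exact h2
  -- pointwise
  have hpt : ∀ w : ({i // p i} → ℝ) × ({i // ¬ p i} → ℝ),
      (⨆ a, ‖gop (φ a) g ((ee p).symm w)‖ₑ) ≤ B * ⨆ a, gav (s a) (Φ w.1) w.2 := by
    rintro ⟨y, z⟩
    apply iSup_le
    intro a
    rw [gop_split (hφ a) hg y z]
    refine (enorm_integral_le_lintegral_enorm _).trans ?_
    calc ∫⁻ v : {i // ¬ p i} → ℝ, ‖(∏ i : {i // ¬ p i}, φ a i (v i)) *
          gop (fun i : {i // p i} => φ a i) (sec p g (z - v)) y‖ₑ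
        ≤ ∫⁻ v : {i // ¬ p i} → ℝ, B * (ENNReal.ofReal
          (∏ i, (s a i)⁻¹ * Real.exp (-(v i / s a i) ^ 2)) * Φ y (z - v)) := by
          apply lintegral_mono
          intro v
          simp only
          rw [enorm_mul, ← mul_assoc]
          apply mul_le_mul' (hl a v)
          rw [hΦ]
          exact le_iSup (fun a => ‖gop (fun i : {i // p i} => φ a i) (sec p g (z - v)) y‖ₑ) a
      _ = B * gav (s a) (Φ y) z := by
          rw [lintegral_const_mul]
          · rfl
          · apply Measurable.mul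
            · apply Measurable.ennreal_ofReal
              apply Finset.measurable_prod
              intro i _
              fun_prop
            · exact hΦm.comp (Measurable.prodMk measurable_const
                (measurable_const.sub measurable_id))
      _ ≤ B * ⨆ a, gav (s a) (Φ y) z := by
          gcongr
          exact le_iSup (fun a => gav (s a) (Φ y) z) a
  have hvol : (volume : Measure (({i // p i} → ℝ) × ({i // ¬ p i} → ℝ))) =
    (volume : Measure ({i // p i} → ℝ)).prod (volume : Measure ({i // ¬ p i} → ℝ)) := rfl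
  calc ∫⁻ x, (⨆ a, ‖gop (φ a) g x‖ₑ) ^ 2
      = ∫⁻ w, (⨆ a, ‖gop (φ a) g ((ee p).symm w)‖ₑ) ^ 2 :=
        ((ee_symm_pres p).lintegral_comp_emb (ee p).symm.measurableEmbedding
          (fun x => (⨆ a, ‖gop (φ a) g x‖ₑ) ^ 2)).symm
    _ ≤ ∫⁻ w : ({i // p i} → ℝ) × ({i // ¬ p i} → ℝ),
          B ^ 2 * (⨆ a, gav (s a) (Φ w.1) w.2) ^ 2 := by
        apply lintegral_mono
        intro w
        simp only
        rw [← mul_pow]
        gcongr
        exact hpt w
    _ = B ^ 2 * ∫⁻ y, ∫⁻ z, (⨆ a, gav (s a) (Φ y) z) ^ 2 := by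
        rw [lintegral_const_mul _ (hgavm.pow_const 2), hvol,
          lintegral_prod _ (hgavm.pow_const 2).aemeasurable]
    _ ≤ B ^ 2 * ∫⁻ y, S * ∫⁻ z, Φ y z ^ 2 := by
        gcongr with y
        exact hSM (Φ y) (hΦm.comp (Measurable.prodMk measurable_const measurable_id))
    _ = B ^ 2 * (S * ∫⁻ y, ∫⁻ z, Φ y z ^ 2) := by
        rw [lintegral_const_mul]
        exact (hΦm.pow_const 2).lintegral_prod_right'
    _ = B ^ 2 * (S * ∫⁻ z, ∫⁻ y, Φ y z ^ 2) := by
        rw [lintegral_lintegral_swap (f := fun y z => Φ y z ^ 2)]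
        exact (hΦm.pow_const 2).aemeasurable
    _ ≤ B ^ 2 * (S * ∫⁻ z, D * ∫⁻ y, ‖sec p g z y‖ₑ ^ 2) := by
        gcongr with z
        rw [hΦ]
        exact hDT _ (sec_Cc p hg z)
    _ = B ^ 2 * S * D * ∫⁻ x, ‖g x‖ₑ ^ 2 := by
        have hm : Measurable (fun w : ({i // p i} → ℝ) × ({i // ¬ p i} → ℝ) =>
            ‖g ((ee p).symm w)‖ₑ ^ 2) :=
          ((hg.1.measurable.comp (ee p).symm.measurable).enorm).pow_const 2
        have e1 : ∫⁻ x, ‖g x‖ₑ ^ 2 = ∫⁻ z, ∫⁻ y, ‖sec p g z y‖ₑ ^ 2 := by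
          rw [← (ee_symm_pres p).lintegral_comp_emb (ee p).symm.measurableEmbedding
            (fun x => ‖g x‖ₑ ^ 2), hvol, lintegral_prod_symm _ hm.aemeasurable]
          rfl
        rw [lintegral_const_mul, ← e1]
        · ring
        · exact hm.lintegral_prod_left'

end Split

lemma gop_meas {ι : Type} [Fintype ι] {φ : ι → ℝ → ℂ} (hφ : ∀ i, Measurable (φ i))
    {g : (ι → ℝ) → ℂ} (hg : Cc g) : Measurable (gop φ g) := by
  have h : Measurable (fun q : (ι → ℝ) × (ι → ℝ) => (∏ i, φ i (q.2 i)) * g (q.1 - q.2)) := by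
    apply Measurable.mul
    · apply Finset.measurable_prod
      intro i _
      exact (hφ i).comp ((measurable_pi_apply i).comp measurable_snd)
    · exact hg.1.measurable.comp (measurable_fst.sub measurable_snd)
  exact (StronglyMeasurable.integral_prod_right' h.stronglyMeasurable).measurable

lemma gop_integrable {ι : Type} [Fintype ι] {φ : ι → ℝ → ℂ} (hφ : ∀ i, Integrable (φ i))
    {g : (ι → ℝ) → ℂ} (hg : Cc g) (x : ι → ℝ) :
    Integrable (fun y : ι → ℝ => (∏ i, φ i (y i)) * g (x - y)) := by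
  obtain ⟨B, hB⟩ := hg.1.bounded_above_of_compact_support hg.2
  apply Integrable.mul_bdd (c := B)
  · exact Integrable.fintype_prod (f := φ) hφ
  · exact (hg.1.comp (by fun_prop)).aestronglyMeasurable
  · filter_upwards with w using hB _

/-! ### The kernels -/

lemma one_le_mu (τ : ℝ) : 1 ≤ ‖mu τ‖ := by
  have h : |(mu τ).re| ≤ ‖mu τ‖ := Complex.abs_re_le_norm _
  have h1 : (mu τ).re = 1 := by simp [mu]
  rwa [h1, abs_one] at h

lemma cc_pos (τ : ℝ) : 0 < cc τ := by
  unfold cc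
  have := one_le_mu τ
  positivity

lemma heat_cont (c : ℝ) : Continuous (heat c) := by
  unfold heat
  fun_prop

lemma heat_integrable {c : ℝ} (hc : 0 < c) : Integrable (heat c) := by
  unfold heat
  apply Integrable.const_mul
  have h := integrable_exp_neg_mul_sq (b := 1 / (4 * c)) (by positivity)
  refine h.congr ?_
  filter_upwards with y
  congr 1
  ring

/-- the low-frequency part -/
noncomputable def lker (τ : ℝ) (G : ℝ → ℝ → ℂ) (t y : ℝ) : ℂ :=
  ∫ v, G t (y - v) * (heat (cc τ * 4 ^ (Int.log 2 t + sc τ)) v : ℂ)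

section Kernels

variable {C τ : ℝ} {G : ℝ → ℝ → ℂ} {K K' : ℤ → ℝ → ℝ≥0∞}

lemma conv_integrable (hC : 0 ≤ C) (hD : Dec C τ G K K') {t : ℝ} (ht : 0 < t) (y : ℝ) {c : ℝ}
    (hc : 0 < c) : Integrable (fun v => G t (y - v) * (heat c v : ℂ)) := by
  apply Integrable.bdd_mul (c := C * t⁻¹)
  · exact (heat_integrable hc).ofReal
  · exact ((hD.cont t ht).comp (by fun_prop)).aestronglyMeasurable
  · filter_upwards with v
    refine (hD.bound t ht _).trans ?_
    have h1 : Real.exp (-((y - v) / t) ^ 2 / C) ≤ 1 := by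
      rw [Real.exp_le_one_iff]
      have : 0 ≤ ((y - v) / t) ^ 2 / C := by positivity
      have e : -((y - v) / t) ^ 2 / C = -(((y - v) / t) ^ 2 / C) := by ring
      rw [e]
      linarith
    have h2 : 0 ≤ C * t⁻¹ := by positivity
    nlinarith

lemma ker_split (hC : 0 ≤ C) (hD : Dec C τ G K K') {t : ℝ} (ht : 0 < t) (y : ℝ) :
    ker τ t y = dker τ G t y + lker τ G t y := by
  have hcc := cc_pos τ
  have h1 := conv_integrable hC hD ht y (c := cc τ * 4 ^ Int.log 2 t) (by positivity)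
  have h2 := conv_integrable hC hD ht y (c := cc τ * 4 ^ (Int.log 2 t + sc τ)) (by positivity)
  have h3 : dker τ G t y = (∫ v, G t (y - v) * (heat (cc τ * 4 ^ Int.log 2 t) v : ℂ)) -
      lker τ G t y := by
    unfold dker lker
    rw [← integral_sub h1 h2]
    apply integral_congr_ae
    filter_upwards with v
    unfold hd
    push_cast
    ring
  rw [h3, hD.ker_eq t ht y]
  ring

lemma conv_meas (hD : Dec C τ G K K') {t : ℝ} (ht : 0 < t) {h : ℝ → ℂ} (hh : Measurable h) :
    Measurable (fun y => ∫ v, G t (y - v) * h v) := by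
  have h1 : Measurable (fun q : ℝ × ℝ => G t (q.1 - q.2) * h q.2) :=
    ((hD.cont t ht).measurable.comp (measurable_fst.sub measurable_snd)).mul
      (hh.comp measurable_snd)
  exact (StronglyMeasurable.integral_prod_right' h1.stronglyMeasurable).measurable

lemma dker_meas (hD : Dec C τ G K K') {t : ℝ} (ht : 0 < t) : Measurable (dker τ G t) := by
  apply conv_meas hD ht
  unfold hd
  exact Complex.measurable_ofReal.comp ((heat_cont _).measurable.sub (heat_cont _).measurable)

lemma lker_meas (hD : Dec C τ G K K') {t : ℝ} (ht : 0 < t) : Measurable (lker τ G t) := by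
  apply conv_meas hD ht
  exact Complex.measurable_ofReal.comp (heat_cont _).measurable

lemma lker_le (hC : 0 < C) (hD : Dec C τ G K K') {t : ℝ} (ht : 0 < t) (y : ℝ) :
    ‖lker τ G t y‖ ≤ C * √(C / ‖mu τ‖) *
      ((t * √(C / ‖mu τ‖))⁻¹ * Real.exp (-(y / (t * √(C / ‖mu τ‖))) ^ 2)) := by
  have hmu := one_le_mu τ
  have hmu' : 0 < ‖mu τ‖ := by linarith
  have hs : 0 < √(C / ‖mu τ‖) := Real.sqrt_pos.2 (by positivity)
  have hs2 : √(C / ‖mu τ‖) ^ 2 = C / ‖mu τ‖ := Real.sq_sqrt (by positivity)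
  refine (hD.low t ht y).trans (le_of_eq ?_)
  have e1 : -(y / (t * √(C / ‖mu τ‖))) ^ 2 = -‖mu τ‖ * (y / t) ^ 2 / C := by
    rw [div_pow, mul_pow, hs2]
    field_simp
  rw [e1]
  field_simp

lemma lker_integrable (hC : 0 < C) (hD : Dec C τ G K K') {t : ℝ} (ht : 0 < t) :
    Integrable (lker τ G t) := by
  have hmu := one_le_mu τ
  have hmu' : 0 < ‖mu τ‖ := by linarith
  have h1 : Integrable (fun y : ℝ => C * t⁻¹ * Real.exp (-‖mu τ‖ * (y / t) ^ 2 / C)) := by
    apply Integrable.const_mul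
    have h := integrable_exp_neg_mul_sq (b := ‖mu τ‖ / (C * t ^ 2)) (by positivity)
    refine h.congr ?_
    filter_upwards with y
    congr 1
    field_simp
  apply h1.mono' (lker_meas hD ht).aestronglyMeasurable
  filter_upwards with y using hD.low t ht y

lemma ker_integrable {t : ℝ} (ht : 0 < t) : Integrable (ker τ t) := by
  unfold ker
  apply Integrable.const_mul
  have hb : 0 < (mu τ / (t : ℂ) ^ 2).re := by
    have : mu τ / (t : ℂ) ^ 2 = mu τ / ((t ^ 2 : ℝ) : ℂ) := by push_cast; rfl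
    rw [this, Complex.div_ofReal_re]
    have h1 : (mu τ).re = 1 := by simp [mu]
    rw [h1]
    positivity
  refine (integrable_cexp_neg_mul_sq hb).congr ?_
  filter_upwards with y
  congr 1
  push_cast
  have : (t : ℂ) ≠ 0 := by exact_mod_cast ht.ne'
  field_simp

lemma dker_integrable (hC : 0 < C) (hD : Dec C τ G K K') {t : ℝ} (ht : 0 < t) :
    Integrable (dker τ G t) := by
  refine ((ker_integrable (τ := τ) ht).sub (lker_integrable hC hD ht)).congr ?_
  filter_upwards with y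
  rw [Pi.sub_apply, ker_split hC.le hD ht y]
  ring

end Kernels

lemma weight_bound {m : ℕ} (p : Fin (m + 1) → Prop) [DecidablePred p] {C M : ℝ} (hC : 1 ≤ C)
    (hM : 1 ≤ M) :
    ((C * √(C / M)) ^ 2) ^ Fintype.card {i // ¬ p i} *
      (∏ i : {i // p i}, C * M ^ (if i.1 = 0 then (-1 : ℝ) else -(1 / 2))) ≤
      C ^ (3 * (m + 1)) * M ^ (-((m : ℝ) + 2) / 2) := by
  have hM0 : 0 < M := by linarith
  have hC0 : 0 < C := by linarith
  have hsq : (C * √(C / M)) ^ 2 = C ^ 3 * M ^ (-1 : ℝ) := by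
    rw [mul_pow, Real.sq_sqrt (by positivity), Real.rpow_neg_one]
    field_simp
  have e1 : ((C * √(C / M)) ^ 2) ^ Fintype.card {i // ¬ p i} *
      (∏ i : {i // p i}, C * M ^ (if i.1 = 0 then (-1 : ℝ) else -(1 / 2))) =
      ∏ i : Fin (m + 1), if p i then C * M ^ (if i = 0 then (-1 : ℝ) else -(1 / 2))
        else C ^ 3 * M ^ (-1 : ℝ) := by
    rw [← Fintype.prod_subtype_mul_prod_subtype p, mul_comm]
    congr 1
    · apply Finset.prod_congr rfl
      intro i _
      rw [if_pos i.2]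
    · rw [← Finset.card_univ, ← Finset.prod_const]
      apply Finset.prod_congr rfl
      intro i _
      rw [if_neg i.2, hsq]
  have e2 : ∏ i : Fin (m + 1), C ^ 3 * M ^ (if i = 0 then (-1 : ℝ) else -(1 / 2)) =
      C ^ (3 * (m + 1)) * M ^ (-((m : ℝ) + 2) / 2) := by
    rw [Finset.prod_mul_distrib, Finset.prod_const, Finset.card_univ, Fintype.card_fin, ← pow_mul,
      Fin.prod_univ_succ, if_pos rfl]
    congr 1
    have : ∏ i : Fin m, M ^ (if i.succ = 0 then (-1 : ℝ) else -(1 / 2)) =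
        ∏ i : Fin m, M ^ (-(1 / 2) : ℝ) := by
      apply Finset.prod_congr rfl
      intro i _
      rw [if_neg (Fin.succ_ne_zero i)]
    rw [this, Finset.prod_const, Finset.card_univ, Fintype.card_fin, ← Real.rpow_natCast,
      ← Real.rpow_mul hM0.le, ← Real.rpow_add hM0]
    congr 1
    ring
  rw [e1, ← e2]
  have hC3 : C ≤ C ^ 3 := by
    calc C = C ^ 1 := (pow_one C).symm
      _ ≤ C ^ 3 := pow_le_pow_right₀ hC (by norm_num)
  apply Finset.prod_le_prod
  · intro i _
    split_ifs <;> positivity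
  · intro i _
    by_cases h : p i
    · rw [if_pos h]
      exact mul_le_mul_of_nonneg_right hC3 (Real.rpow_nonneg hM0.le _)
    · rw [if_neg h]
      apply mul_le_mul_of_nonneg_left _ (by positivity)
      apply Real.rpow_le_rpow_of_exponent_le hM
      split_ifs <;> norm_num

open Classical in
lemma term (hDT : SpecDT) (hSM : SpecSM) (m : ℕ) (p : Fin (m + 1) → Prop) [DecidablePred p]
    {C : ℝ} (hC : 1 ≤ C) :
    ∃ C' : ℝ, 0 < C' ∧ ∀ (τ : ℝ) (G : ℝ → ℝ → ℂ) (K K' : ℤ → ℝ → ℝ≥0∞), Dec C τ G K K' →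
      ∀ (A : Type) [Countable A] (t : A → Fin (m + 1) → ℝ),
      (∀ a i, 0 < t a i) → (∀ a, ∃ k : ℤ, t a 0 = 2 ^ k) → ∀ g : (Fin (m + 1) → ℝ) → ℂ, Cc g →
      ∫⁻ x, (⨆ a, ‖gop (fun i => if p i then dker τ G (t a i) else lker τ G (t a i)) g x‖ₑ) ^ 2 ≤
        ENNReal.ofReal (C' * ‖mu τ‖ ^ (-((m : ℝ) + 2) / 2) * ((sc τ : ℝ) + 1) ^ (m + 1)) *
        ∫⁻ x, ‖g x‖ₑ ^ 2 := by
  obtain ⟨S, hS⟩ := hSM {i // ¬ p i} 2 one_lt_two
  have hC0 : 0 < C := by linarith
  refine ⟨C ^ (3 * (m + 1)) * (S + 1), by positivity, ?_⟩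
  intro τ G K K' hD A _ t ht ht0 g hg
  have hM := one_le_mu τ
  have hM0 : 0 < ‖mu τ‖ := by linarith
  obtain ⟨φ, hφd⟩ : ∃ φ : A → Fin (m + 1) → ℝ → ℂ,
    φ = fun a i => if p i then dker τ G (t a i) else lker τ G (t a i) := ⟨_, rfl⟩
  have hφi : ∀ a i, Integrable (φ a i) := by
    intro a i
    rw [hφd]
    by_cases h : p i
    · simp only [if_pos h]
      exact dker_integrable hC0 hD (ht a i)
    · simp only [if_neg h]
      exact lker_integrable hC0 hD (ht a i)
  have hφm : ∀ a i, p i → Measurable (φ a i) := by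
    intro a i h
    rw [hφd]
    simp only [if_pos h]
    exact dker_meas hD (ht a i)
  have key := split_bound (p := p) (φ := φ) hφi hφm
    (s := fun a i => t a i * √(C / ‖mu τ‖))
    (B := ENNReal.ofReal ((C * √(C / ‖mu τ‖)) ^ Fintype.card {i // ¬ p i}))
    (by
      intro a v
      rw [← ENNReal.ofReal_mul (by positivity), ← ofReal_norm]
      apply ENNReal.ofReal_le_ofReal
      rw [norm_prod, ← Finset.card_univ, ← Finset.prod_const, ← Finset.prod_mul_distrib]
      apply Finset.prod_le_prod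
      · intro i _
        positivity
      · intro i _
        rw [hφd]
        simp only [if_neg i.2]
        exact lker_le hC0 hD (ht a i) (v i))
    (S := S) (D := (sc τ : ℝ≥0∞) ^ Fintype.card {i // p i} *
      ∏ i : {i // p i}, ENNReal.ofReal (C * ‖mu τ‖ ^ (if i.1 = 0 then (-1 : ℝ) else -(1 / 2))))
    (by
      intro Φ hΦ
      have h := hS A (fun a i => t a i * √(C / ‖mu τ‖)) (fun a i => by
        have := ht a i
        have : 0 < √(C / ‖mu τ‖) := Real.sqrt_pos.2 (by positivity)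
        positivity) Φ hΦ
      simpa only [ENNReal.rpow_ofNat] using h)
    (by
      intro g' hg'
      have h := hDT C τ G K K' hC hD {i // p i} {i | i.1 = 0} A (fun a i => t a i)
        (fun a i => ht a i) (by
          rintro a ⟨i, hi⟩ hi0
          obtain ⟨k, hk⟩ := ht0 a
          refine ⟨k, ?_⟩
          have : i = 0 := hi0
          subst this
          exact hk) g' hg'
      have e : ∀ a, (fun i : {i // p i} => φ a i) = fun i : {i // p i} => dker τ G (t a i) := by
        intro a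
        funext i
        rw [hφd]
        simp only [if_pos i.2]
      simp only [e]
      refine h.trans (le_of_eq ?_)
      congr 2
      apply Finset.prod_congr rfl
      intro i _
      split_ifs with h1 h2 h2
      · rfl
      · exact absurd h1 h2
      · exact absurd h2 h1
      · rfl)
    hg
  rw [hφd] at key
  refine key.trans ?_
  gcongr
  rw [← ENNReal.ofReal_pow (by positivity), ← ENNReal.ofReal_coe_nnreal,
    ← ENNReal.ofReal_natCast, ← ENNReal.ofReal_pow (by positivity),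
    ← ENNReal.ofReal_prod_of_nonneg (by intro i _; positivity),
    ← ENNReal.ofReal_mul (by positivity), ← ENNReal.ofReal_mul (by positivity),
    ← ENNReal.ofReal_mul (by positivity)]
  apply ENNReal.ofReal_le_ofReal
  have hw := weight_bound p hC hM
  have hsc : (sc τ : ℝ) ^ Fintype.card {i // p i} ≤ ((sc τ : ℝ) + 1) ^ (m + 1) := by
    calc (sc τ : ℝ) ^ Fintype.card {i // p i} ≤ ((sc τ : ℝ) + 1) ^ Fintype.card {i // p i} :=
          pow_le_pow_left₀ (by positivity) (by linarith) _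
      _ ≤ ((sc τ : ℝ) + 1) ^ (m + 1) := by
          apply pow_le_pow_right₀
          · have : (0 : ℝ) ≤ sc τ := by positivity
            linarith
          · have := Fintype.card_subtype_le p
            simpa using this
  have e1 : ((C * √(C / ‖mu τ‖)) ^ Fintype.card {i // ¬ p i}) ^ 2 =
      ((C * √(C / ‖mu τ‖)) ^ 2) ^ Fintype.card {i // ¬ p i} := by
    rw [← pow_mul, ← pow_mul, Nat.mul_comm]
  rw [e1]
  have hP : 0 ≤ ∏ i : {i // p i}, C * ‖mu τ‖ ^ (if i.1 = 0 then (-1 : ℝ) else -(1 / 2)) :=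
    Finset.prod_nonneg (fun i _ => by positivity)
  calc ((C * √(C / ‖mu τ‖)) ^ 2) ^ Fintype.card {i // ¬ p i} * (S : ℝ) *
        ((sc τ : ℝ) ^ Fintype.card {i // p i} *
          ∏ i : {i // p i}, C * ‖mu τ‖ ^ (if i.1 = 0 then (-1 : ℝ) else -(1 / 2)))
      = (((C * √(C / ‖mu τ‖)) ^ 2) ^ Fintype.card {i // ¬ p i} *
          ∏ i : {i // p i}, C * ‖mu τ‖ ^ (if i.1 = 0 then (-1 : ℝ) else -(1 / 2))) * (S : ℝ) *
          (sc τ : ℝ) ^ Fintype.card {i // p i} := by ring
    _ ≤ (C ^ (3 * (m + 1)) * ‖mu τ‖ ^ (-((m : ℝ) + 2) / 2)) * ((S : ℝ) + 1) *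
          ((sc τ : ℝ) + 1) ^ (m + 1) := by
        gcongr
        linarith
    _ = _ := by ring

theorem gop_expand {m : ℕ} {C τ : ℝ} {G : ℝ → ℝ → ℂ} {K K' : ℤ → ℝ → ℝ≥0∞} (hC : 0 < C)
    (hD : Dec C τ G K K') {t : Fin (m + 1) → ℝ} (ht : ∀ i, 0 < t i)
    {g : (Fin (m + 1) → ℝ) → ℂ} (hg : Cc g) (x : Fin (m + 1) → ℝ) :
    gop (fun i => ker τ (t i)) g x = ∑ S : Finset (Fin (m + 1)),
      gop (fun i => if i ∈ S then dker τ G (t i) else lker τ G (t i)) g x := by
  have hi : ∀ S : Finset (Fin (m + 1)), ∀ i,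
      Integrable (if i ∈ S then dker τ G (t i) else lker τ G (t i)) := by
    intro S i
    split_ifs
    · exact dker_integrable hC hD (ht i)
    · exact lker_integrable hC hD (ht i)
  unfold gop
  rw [← integral_finsetSum _ (fun S _ => gop_integrable (hi S) hg x)]
  apply integral_congr_ae
  filter_upwards with y
  rw [← Finset.sum_mul]
  congr 1
  have h1 : ∀ i, ker τ (t i) (y i) = dker τ G (t i) (y i) + lker τ G (t i) (y i) :=
    fun i => ker_split hC.le hD (ht i) _
  simp only [h1]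
  rw [Finset.prod_add, Finset.powerset_univ]
  apply Finset.sum_congr rfl
  intro S _
  rw [← Finset.prod_mul_prod_compl S (fun i => (if i ∈ S then dker τ G (t i) else
    lker τ G (t i)) (y i))]
  congr 1
  · apply Finset.prod_congr rfl
    intro i hi
    rw [if_pos hi]
  · rw [← Finset.compl_eq_univ_sdiff]
    apply Finset.prod_congr rfl
    intro i hi
    rw [if_neg (Finset.mem_compl.1 hi)]

end L2

open L2 in
theorem specL2 (hOne : SpecOne) (hDT : SpecDT) (hSM : SpecSM) : SpecL2 := by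
  intro m
  obtain ⟨C, hC, hdec⟩ := hOne
  have hC0 : 0 < C := by linarith
  choose Cp hCp0 hCp using fun S : Finset (Fin (m + 1)) => term hDT hSM m (fun i => i ∈ S) hC
  refine ⟨2 ^ (m + 1) * ∑ S : Finset (Fin (m + 1)), Cp S, ?_, ?_⟩
  · apply mul_pos (by positivity)
    exact Finset.sum_pos (fun S _ => hCp0 S) ⟨∅, Finset.mem_univ _⟩
  intro τ A _ t ht ht0 g hg
  obtain ⟨G, K, K', hD⟩ := hdec τ
  have hM := one_le_mu τ
  have hM0 : 0 < ‖mu τ‖ := by linarith
  obtain ⟨F, hF⟩ : ∃ F : Finset (Fin (m + 1)) → (Fin (m + 1) → ℝ) → ℝ≥0∞,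
    F = fun S x => ⨆ a, ‖gop (fun i => if i ∈ S then dker τ G (t a i) else
      lker τ G (t a i)) g x‖ₑ := ⟨_, rfl⟩
  have hFm : ∀ S, Measurable (F S) := by
    intro S
    rw [hF]
    apply Measurable.iSup
    intro a
    refine (gop_meas (fun i => ?_) hg).enorm
    split_ifs
    · exact dker_meas hD (ht a i)
    · exact lker_meas hD (ht a i)
  have hpt : ∀ x, (⨆ a, ‖gop (fun i => ker τ (t a i)) g x‖ₑ) ≤ ∑ S, F S x := by
    intro x
    apply iSup_le
    intro a
    rw [gop_expand hC0 hD (ht a) hg x]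
    refine (enorm_sum_le _ _).trans ?_
    apply Finset.sum_le_sum
    intro S _
    rw [hF]
    exact le_iSup (fun a => ‖gop (fun i => if i ∈ S then dker τ G (t a i) else
      lker τ G (t a i)) g x‖ₑ) a
  have hcard : (((Finset.univ : Finset (Finset (Fin (m + 1)))).card : ℝ≥0∞)) ^ ((2 : ℝ) - 1) =
      ENNReal.ofReal (2 ^ (m + 1)) := by
    have e1 : (2 : ℝ) - 1 = 1 := by norm_num
    rw [e1, ENNReal.rpow_one, Finset.card_univ, Fintype.card_finset, Fintype.card_fin,
      ← ENNReal.ofReal_natCast]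
    push_cast
    rfl
  calc ∫⁻ x, (⨆ a, ‖gop (fun i => ker τ (t a i)) g x‖ₑ) ^ 2
      ≤ ∫⁻ x, ENNReal.ofReal (2 ^ (m + 1)) * ∑ S, F S x ^ 2 := by
        apply lintegral_mono
        intro x
        have h1 := ENNReal.rpow_sum_le_const_mul_sum_rpow (s := Finset.univ)
          (f := fun S => F S x) (p := 2) (by norm_num)
        rw [hcard] at h1
        simp only [ENNReal.rpow_ofNat] at h1
        exact le_trans (pow_le_pow_left' (hpt x) 2) h1
    _ = ENNReal.ofReal (2 ^ (m + 1)) * ∑ S, ∫⁻ x, F S x ^ 2 := by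
        rw [lintegral_const_mul _ (Finset.measurable_sum _ (fun S _ => (hFm S).pow_const 2)),
          lintegral_finsetSum _ (fun S _ => (hFm S).pow_const 2)]
    _ ≤ ENNReal.ofReal (2 ^ (m + 1)) * ∑ S, ENNReal.ofReal (Cp S *
          ‖mu τ‖ ^ (-((m : ℝ) + 2) / 2) * ((sc τ : ℝ) + 1) ^ (m + 1)) * ∫⁻ x, ‖g x‖ₑ ^ 2 := by
        gcongr with S _
        rw [hF]
        exact hCp S τ G K K' hD A t ht ht0 g hg
    _ = _ := by
        rw [← Finset.sum_mul, ← ENNReal.ofReal_sum_of_nonneg, ← mul_assoc,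
          ← ENNReal.ofReal_mul (by positivity)]
        · congr 2
          rw [← Finset.sum_mul, ← Finset.sum_mul]
          ring
        · intro S _
          have := (hCp0 S).le
          positivity

end Pool.Agent.MP_bb1b7e
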