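import Pool.Agent.Lib.MP_bb1b7e_an.Int

/-!
# Module MAIN: assembly
-/

namespace Pool.Agent.MP_bb1b7e

open MeasureTheory
open scoped ENNReal NNReal

variable {n : ℕ}

theorem norm_ellMean_le (r : Fin n → ℝ) (f : E n → ℂ) (x : E n) :
    ‖ellMean r f x‖ₑ ≤ ‖ellMean r (fun y => ((‖f y‖ : ℝ) : ℂ)) x‖ₑ := by
  unfold ellMean
  rw [← ofReal_norm, ← ofReal_norm]
  apply ENNReal.ofReal_le_ofReal
  rw [average_eq, average_eq, norm_smul, norm_smul]
  apply mul_le_mul_of_nonneg_left _ (norm_nonneg _)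
  beta_reduce
  rw [integral_complex_ofReal, Complex.norm_real,
    Real.norm_of_nonneg (integral_nonneg fun ω => norm_nonneg _)]
  exact norm_integral_le_integral_norm _

theorem Mst_le_norm (f : E n → ℂ) (x : E n) :
    Mst f x ≤ Mst (fun y => ((‖f y‖ : ℝ) : ℂ)) x :=
  iSup_mono fun r => norm_ellMean_le r.1 f x

theorem cc_norm {f : E n → ℂ} (hf : Cc f) : Cc fun y : E n => ‖f y‖ :=
  ⟨hf.1.norm, hf.2.norm⟩

/-- The scale of a half-length. -/
noncomputable def scl (r : ℝ) : ℝ := r / 2 ^ Int.log 2 r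

theorem one_le_scl {r : ℝ} (hr : 0 < r) : 1 ≤ scl r := by
  unfold scl
  rw [one_le_div (by positivity)]
  exact_mod_cast Int.zpow_log_le_self (b := 2) (by norm_num) hr

theorem scl_le_two (r : ℝ) : scl r ≤ 2 := by
  unfold scl
  rw [div_le_iff₀ (by positivity)]
  have h := Int.lt_zpow_succ_log_self (b := 2) (by norm_num) r
  rw [zpow_add₀ (by norm_num)] at h
  push_cast at h
  rw [zpow_one] at h
  linarith

theorem div_scl {r : ℝ} (hr : 0 < r) : r / scl r = 2 ^ Int.log 2 r := by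
  unfold scl
  rw [div_div_eq_mul_div, mul_comm, mul_div_assoc, div_self hr.ne', mul_one]

theorem ofLp_cc {f : E n → ℂ} (hf : Cc f) :
    CcP fun y : Fin n → ℝ => ‖f (WithLp.toLp 2 y)‖ := by
  have h1 : Continuous (WithLp.toLp 2 : (Fin n → ℝ) → E n) := PiLp.continuous_toLp 2 _
  refine ⟨⟨(hf.1.comp h1).norm, ?_⟩, fun y => norm_nonneg _⟩
  exact (hf.2.comp_homeomorph (PiLp.homeomorph 2 fun _ : Fin n => ℝ).symm).norm

/-- The main theorem for `p ≤ 2`. -/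
theorem bounded_small (hI : SpecInt) (hR : SpecRep) (hC : SpecCont) {m : ℕ} (hm : 3 ≤ m) {p : ℝ}
    (hp : ((m : ℝ) + 2) / m < p) (hp2 : p ≤ 2) : BoundedOn (m + 1) p := by
  obtain ⟨C, hI⟩ := hI m hm p hp hp2
  obtain ⟨C1, hR⟩ := hR (m + 1) (by omega)
  have hp0 : 0 < p := lt_trans (by positivity) hp
  refine ⟨C1 * C ^ (1 / p), fun f hf1 hf2 => ?_⟩
  have hf : Cc f := ⟨hf1, hf2⟩
  -- the family of parameters
  let A := {r : Fin (m + 1) → ℚ // ∀ i, 0 < r i}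
  let t : A → Fin (m + 1) → ℝ := fun r i => (r.1 i : ℝ) / scl (r.1 0 : ℝ)
  have hr0 : ∀ (r : A) i, (0 : ℝ) < (r.1 i : ℝ) := fun r i => by exact_mod_cast r.2 i
  have ht : ∀ a i, 0 < t a i := fun a i =>
    div_pos (hr0 a i) (zero_lt_one.trans_le (one_le_scl (hr0 a 0)))
  have ht0 : ∀ a, ∃ k : ℤ, t a 0 = 2 ^ k := fun a => ⟨_, div_scl (hr0 a 0)⟩
  let g : (Fin (m + 1) → ℝ) → ℝ := fun y => ‖f (WithLp.toLp 2 y)‖
  have hg : CcP g := ofLp_cc hf
  let Φ : (Fin (m + 1) → ℝ) → ℝ≥0∞ := fun z => ∫⁻ τ : ℝ, Tm t τ g z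
  have hMst : ∀ x, Mst f x ≤ C1 * Φ (WithLp.ofLp x) := by
    intro x
    refine (Mst_le_norm f x).trans ?_
    have hcc : Cc fun y : E (m + 1) => ((‖f y‖ : ℝ) : ℂ) := cc_ofReal (cc_norm hf)
    rw [(hC _ _ hcc).2 x]
    apply iSup_le
    intro r
    refine (hR _ hcc (fun i => (r.1 i : ℝ)) (scl (r.1 0 : ℝ)) (hr0 r) (one_le_scl (hr0 r 0))
      (scl_le_two _) x).trans ?_
    refine mul_le_mul_right (lintegral_mono fun τ => ?_) _
    exact le_iSup (fun a => ‖gop (fun i => ker τ (t a i)) (fun y => (g y : ℂ))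
      (WithLp.ofLp x)‖ₑ) r
  have h1 : ∫⁻ x, Mst f x ^ p ≤ C1 ^ p * (C * ∫⁻ x, ‖f x‖ₑ ^ p) := by
    have e1 : ∫⁻ x : E (m + 1), Φ (WithLp.ofLp x) ^ p = ∫⁻ z, Φ z ^ p :=
      (PiLp.volume_preserving_ofLp (Fin (m + 1))).lintegral_comp_emb
        (MeasurableEquiv.toLp 2 (Fin (m + 1) → ℝ)).symm.measurableEmbedding fun z => Φ z ^ p
    have e2 : ∫⁻ x : E (m + 1), ‖f x‖ₑ ^ p = ∫⁻ z, ENNReal.ofReal (g z) ^ p := by
      rw [← (PiLp.volume_preserving_toLp (Fin (m + 1))).lintegral_comp_emb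
        (MeasurableEquiv.toLp 2 (Fin (m + 1) → ℝ)).measurableEmbedding fun x => ‖f x‖ₑ ^ p]
      refine lintegral_congr fun z => ?_
      rw [← ofReal_norm]
    calc ∫⁻ x, Mst f x ^ p ≤ ∫⁻ x : E (m + 1), (C1 * Φ (WithLp.ofLp x)) ^ p := by
          gcongr with x
          exact hMst x
      _ = C1 ^ p * ∫⁻ x : E (m + 1), Φ (WithLp.ofLp x) ^ p := by
          rw [← lintegral_const_mul']
          · refine lintegral_congr fun x => ?_
            rw [ENNReal.mul_rpow_of_nonneg _ _ hp0.le]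
          · exact ENNReal.rpow_ne_top_of_nonneg hp0.le ENNReal.coe_ne_top
      _ ≤ _ := by
          rw [e1, e2]
          gcongr
          exact hI A t ht ht0 g hg
  calc (∫⁻ x, Mst f x ^ p) ^ (1 / p) ≤ (C1 ^ p * (C * ∫⁻ x, ‖f x‖ₑ ^ p)) ^ (1 / p) := by
        gcongr
    _ = _ := by
        rw [ENNReal.mul_rpow_of_nonneg _ _ (by positivity),
          ENNReal.mul_rpow_of_nonneg _ _ (by positivity), ← ENNReal.rpow_mul,
          mul_one_div_cancel hp0.ne', ENNReal.rpow_one, ← mul_assoc, ENNReal.coe_mul,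
          ENNReal.coe_rpow_of_nonneg _ (by positivity)]

/-- The strong spherical maximal function is bounded on `L^p (ℝⁿ)` for all `n ≥ 4` and
`p > (n + 1) / (n - 1)`. -/
theorem specMain (hI : SpecInt) (hR : SpecRep) (hC : SpecCont) (hB : SpecBig) : SpecMain := by
  intro n hn p hp
  obtain ⟨m, rfl⟩ : ∃ m, n = m + 1 := ⟨n - 1, by omega⟩
  have hm : 3 ≤ m := by omega
  have hm0 : (3 : ℝ) ≤ m := by exact_mod_cast hm
  have h1 : (((m + 1 : ℕ) : ℝ) + 1) / ((m + 1 : ℕ) - 1) = ((m : ℝ) + 2) / m := by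
    push_cast
    congr 1 <;> ring
  rw [h1] at hp
  rcases le_total p 2 with h2 | h2
  · exact bounded_small hI hR hC hm hp h2
  · apply hB (m + 1) (by omega) _ p h2
    apply bounded_small hI hR hC hm _ le_rfl
    rw [div_lt_iff₀ (by linarith)]
    linarith

end Pool.Agent.MP_bb1b7e
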