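import Pool.Agent.Lib.MP_bb1b7e_an.Spec
import Pool.Agent.Lib.MP_bb1b7e_an.LayerCake

/-!
# Module MARC: interpolation between `L^q` and `L²`
-/

namespace Pool.Agent.MP_bb1b7e

open MeasureTheory Set
open scoped ENNReal NNReal

namespace Marc

theorem CcP.comp_max {X : Type} [TopologicalSpace X] {g : X → ℝ} (hg : CcP g) {c : ℝ}
    (hc : 0 ≤ c) : CcP (fun x => max (g x - c) 0) := by
  refine ⟨⟨?_, ?_⟩, fun x => le_max_right _ _⟩
  · have := hg.1.1
    fun_prop
  · have : HasCompactSupport ((fun y : ℝ => max (y - c) 0) ∘ g) := by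
      refine hg.1.2.comp_left ?_
      simp [hc]
    exact this

theorem CcP.comp_min {X : Type} [TopologicalSpace X] {g : X → ℝ} (hg : CcP g) {c : ℝ}
    (hc : 0 ≤ c) : CcP (fun x => min (g x) c) := by
  refine ⟨⟨?_, ?_⟩, fun x => le_min (hg.2 x) hc⟩
  · have := hg.1.1
    fun_prop
  · have : HasCompactSupport ((fun y : ℝ => min y c) ∘ g) := by
      refine hg.1.2.comp_left ?_
      simp [hc]
    exact this

theorem CcP.lintegral_lt_top {ι : Type} [Fintype ι] {g : (ι → ℝ) → ℝ} (hg : CcP g) {q : ℝ}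
    (hq : 0 < q) : ∫⁻ x, ENNReal.ofReal (g x) ^ q < ∞ := by
  have h1 : Continuous fun x => g x ^ q := hg.1.1.rpow_const fun x => Or.inr hq.le
  have h2 : HasCompactSupport ((fun y : ℝ => y ^ q) ∘ g) := by
    refine hg.1.2.comp_left ?_
    exact Real.zero_rpow hq.ne'
  have h3 : Integrable (fun x => g x ^ q) := h1.integrable_of_hasCompactSupport h2
  have h4 : ∫⁻ x, ENNReal.ofReal (g x) ^ q = ∫⁻ x, ENNReal.ofReal (g x ^ q) := by
    refine lintegral_congr fun x => ?_
    rw [ENNReal.ofReal_rpow_of_nonneg (hg.2 x) hq.le]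
  rw [h4]
  exact h3.lintegral_lt_top

/-- The estimate of the super level sets. -/
theorem level {ι : Type} [Fintype ι] {T : ((ι → ℝ) → ℝ) → (ι → ℝ) → ℝ≥0∞} {q p : ℝ} (hq : 1 < q)
    (A B : ℝ≥0)
    (hT : ∀ g, CcP g → Measurable (T g))
    (hadd : ∀ g h, CcP g → CcP h → ∀ x, T (g + h) x ≤ T g x + T h x)
    (hA : ∀ g, CcP g → ∫⁻ x, T g x ^ q ≤ A * ∫⁻ x, ENNReal.ofReal (g x) ^ q)
    (hB : ∀ g, CcP g → ∫⁻ x, T g x ^ (2 : ℝ) ≤ B * ∫⁻ x, ENNReal.ofReal (g x) ^ (2 : ℝ))
    {g : (ι → ℝ) → ℝ} (hg : CcP g) {β : ℝ} (hβ : 0 < β) {t : ℝ} (ht : 0 < t) :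
    volume {x | ENNReal.ofReal t < T g x} * ENNReal.ofReal (t ^ (p - 1)) ≤
      ENNReal.ofReal (2 ^ q) * A * (∫⁻ x, ENNReal.ofReal (t ^ (p - q - 1)) *
        ENNReal.ofReal (max (g x - β * t) 0) ^ q) +
      ENNReal.ofReal 4 * B * ∫⁻ x, ENNReal.ofReal (t ^ (p - 3)) *
        ENNReal.ofReal (min (g x) (β * t)) ^ (2 : ℝ) := by
  have hβt : 0 ≤ β * t := by positivity
  set v : (ι → ℝ) → ℝ := fun x => max (g x - β * t) 0 with hv
  set u : (ι → ℝ) → ℝ := fun x => min (g x) (β * t) with hu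
  have hvC : CcP v := CcP.comp_max hg hβt
  have huC : CcP u := CcP.comp_min hg hβt
  have huv : g = v + u := by
    funext x
    simp only [hv, hu, Pi.add_apply]
    rcases le_total (g x) (β * t) with h | h
    · rw [max_eq_right (by linarith), min_eq_left h]; ring
    · rw [max_eq_left (by linarith), min_eq_right h]; ring
  have hsub : {x | ENNReal.ofReal t < T g x} ⊆
      {x | ENNReal.ofReal (t / 2) < T v x} ∪ {x | ENNReal.ofReal (t / 2) < T u x} := by
    intro x hx
    have hx' : ENNReal.ofReal t < T g x := hx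
    by_contra hcon
    have hc1 : T v x ≤ ENNReal.ofReal (t / 2) := by
      by_contra h
      exact hcon (Or.inl (not_le.1 h))
    have hc2 : T u x ≤ ENNReal.ofReal (t / 2) := by
      by_contra h
      exact hcon (Or.inr (not_le.1 h))
    have h1 : T g x ≤ ENNReal.ofReal (t / 2) + ENNReal.ofReal (t / 2) := by
      rw [huv]
      exact (hadd v u hvC huC x).trans (add_le_add hc1 hc2)
    rw [← ENNReal.ofReal_add (by positivity) (by positivity), add_halves] at h1
    exact absurd hx' (not_lt.2 h1)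
  have hV : volume {x | ENNReal.ofReal (t / 2) < T v x} * ENNReal.ofReal (t ^ (p - 1)) ≤
      ENNReal.ofReal (2 ^ q) * A * ∫⁻ x, ENNReal.ofReal (t ^ (p - q - 1)) *
        ENNReal.ofReal (v x) ^ q := by
    have h1 := LC.cheb volume (hT v hvC) (half_pos ht) (by linarith : 0 < q)
    calc volume {x | ENNReal.ofReal (t / 2) < T v x} * ENNReal.ofReal (t ^ (p - 1))
        ≤ (ENNReal.ofReal ((t / 2) ^ (-q)) * (A * ∫⁻ x, ENNReal.ofReal (v x) ^ q)) *
          ENNReal.ofReal (t ^ (p - 1)) := by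
          gcongr
          refine h1.trans ?_
          gcongr
          exact hA v hvC
      _ = (ENNReal.ofReal ((t / 2) ^ (-q)) * ENNReal.ofReal (t ^ (p - 1))) *
          (A * ∫⁻ x, ENNReal.ofReal (v x) ^ q) := by ring
      _ = (ENNReal.ofReal (2 ^ q) * ENNReal.ofReal (t ^ (p - q - 1))) *
          (A * ∫⁻ x, ENNReal.ofReal (v x) ^ q) := by
          congr 1
          rw [← ENNReal.ofReal_mul (by positivity), ← ENNReal.ofReal_mul (by positivity)]
          congr 1
          rw [Real.div_rpow ht.le (by norm_num), Real.rpow_neg (by norm_num : (0 : ℝ) ≤ 2),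
            show p - q - 1 = -q + (p - 1) by ring, Real.rpow_add ht]
          field_simp
      _ = ENNReal.ofReal (2 ^ q) * A * ∫⁻ x, ENNReal.ofReal (t ^ (p - q - 1)) *
          ENNReal.ofReal (v x) ^ q := by
          rw [lintegral_const_mul' _ _ ENNReal.ofReal_ne_top]
          ring
  have hU : volume {x | ENNReal.ofReal (t / 2) < T u x} * ENNReal.ofReal (t ^ (p - 1)) ≤
      ENNReal.ofReal 4 * B * ∫⁻ x, ENNReal.ofReal (t ^ (p - 3)) *
        ENNReal.ofReal (u x) ^ (2 : ℝ) := by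
    have h1 := LC.cheb volume (hT u huC) (half_pos ht) (by norm_num : (0 : ℝ) < 2)
    calc volume {x | ENNReal.ofReal (t / 2) < T u x} * ENNReal.ofReal (t ^ (p - 1))
        ≤ (ENNReal.ofReal ((t / 2) ^ (-2 : ℝ)) * (B * ∫⁻ x, ENNReal.ofReal (u x) ^ (2 : ℝ))) *
          ENNReal.ofReal (t ^ (p - 1)) := by
          gcongr
          refine h1.trans ?_
          gcongr
          exact hB u huC
      _ = (ENNReal.ofReal ((t / 2) ^ (-2 : ℝ)) * ENNReal.ofReal (t ^ (p - 1))) *
          (B * ∫⁻ x, ENNReal.ofReal (u x) ^ (2 : ℝ)) := by ring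
      _ = (ENNReal.ofReal 4 * ENNReal.ofReal (t ^ (p - 3))) *
          (B * ∫⁻ x, ENNReal.ofReal (u x) ^ (2 : ℝ)) := by
          congr 1
          rw [← ENNReal.ofReal_mul (by positivity), ← ENNReal.ofReal_mul (by positivity)]
          congr 1
          rw [Real.div_rpow ht.le (by norm_num), Real.rpow_neg (by norm_num : (0 : ℝ) ≤ 2),
            show p - 3 = -2 + (p - 1) by ring, Real.rpow_add ht]
          norm_num
          field_simp
      _ = ENNReal.ofReal 4 * B * ∫⁻ x, ENNReal.ofReal (t ^ (p - 3)) *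
          ENNReal.ofReal (u x) ^ (2 : ℝ) := by
          rw [lintegral_const_mul' _ _ ENNReal.ofReal_ne_top]
          ring
  calc volume {x | ENNReal.ofReal t < T g x} * ENNReal.ofReal (t ^ (p - 1))
      ≤ (volume {x | ENNReal.ofReal (t / 2) < T v x} +
          volume {x | ENNReal.ofReal (t / 2) < T u x}) * ENNReal.ofReal (t ^ (p - 1)) := by
        have := (measure_mono hsub).trans (measure_union_le (μ := volume) _ _)
        gcongr
    _ = volume {x | ENNReal.ofReal (t / 2) < T v x} * ENNReal.ofReal (t ^ (p - 1)) +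
          volume {x | ENNReal.ofReal (t / 2) < T u x} * ENNReal.ofReal (t ^ (p - 1)) := add_mul _ _ _
    _ ≤ _ := add_le_add hV hU

end Marc

open Marc in
/-- Module MARC. -/
theorem specMarc : SpecMarc := by
  intro q p hq hqp hp2 A
  refine ⟨Real.toNNReal (p * (2 ^ q * A / (p - q) + 4 * (1 / p + 1 / (2 - p)))), ?_⟩
  intro ι _ T B hBpos hT hadd hA hB g hg
  have hq0 : 0 < q := by linarith
  have hp0 : 0 < p := by linarith
  have hpq : 0 < p - q := by linarith
  have h2p : 0 < 2 - p := by linarith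
  have h2q : 0 < 2 - q := by linarith
  have hBr : (0 : ℝ) < B := by exact_mod_cast hBpos
  set β : ℝ := (B : ℝ) ^ (-1 / (2 - q)) with hβdef
  have hβ : 0 < β := Real.rpow_pos_of_pos hBr _
  have hfin : ∀ᵐ x, T g x < ∞ := by
    have h1 : ∫⁻ x, T g x ^ q ≠ ∞ := by
      refine ((hA g hg).trans_lt ?_).ne
      exact ENNReal.mul_lt_top ENNReal.coe_lt_top (CcP.lintegral_lt_top hg hq0)
    filter_upwards [ae_lt_top ((hT g hg).pow_const q) h1] with x hx
    by_contra hcon
    rw [not_lt, top_le_iff] at hcon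
    rw [hcon, ENNReal.top_rpow_of_pos hq0] at hx
    exact lt_irrefl _ hx
  have hgm : Measurable g := hg.1.1.measurable
  have hswap1 : ∫⁻ t in Ioi (0 : ℝ), ∫⁻ x, ENNReal.ofReal (t ^ (p - q - 1)) *
        ENNReal.ofReal (max (g x - β * t) 0) ^ q ≤
      ENNReal.ofReal (β ^ (q - p) / (p - q)) * ∫⁻ x, ENNReal.ofReal (g x) ^ p := by
    rw [lintegral_lintegral_swap (by fun_prop)]
    rw [← lintegral_const_mul' _ _ ENNReal.ofReal_ne_top]
    exact lintegral_mono fun x => LC.upper hq0 hqp hβ (hg.2 x)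
  have hswap2 : ∫⁻ t in Ioi (0 : ℝ), ∫⁻ x, ENNReal.ofReal (t ^ (p - 3)) *
        ENNReal.ofReal (min (g x) (β * t)) ^ (2 : ℝ) ≤
      ENNReal.ofReal (β ^ (2 - p) * (1 / p + 1 / (2 - p))) * ∫⁻ x, ENNReal.ofReal (g x) ^ p := by
    rw [lintegral_lintegral_swap (by fun_prop)]
    rw [← lintegral_const_mul' _ _ ENNReal.ofReal_ne_top]
    exact lintegral_mono fun x => LC.lower hp0 hp2 hβ (hg.2 x)
  have hm1 : AEMeasurable (fun t : ℝ => ENNReal.ofReal (2 ^ q) * A *
      ∫⁻ x, ENNReal.ofReal (t ^ (p - q - 1)) * ENNReal.ofReal (max (g x - β * t) 0) ^ q)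
      (volume.restrict (Ioi 0)) := by
    refine AEMeasurable.const_mul ?_ _
    refine Measurable.aemeasurable ?_
    exact Measurable.lintegral_prod_right' (f := fun z : ℝ × (ι → ℝ) =>
      ENNReal.ofReal (z.1 ^ (p - q - 1)) * ENNReal.ofReal (max (g z.2 - β * z.1) 0) ^ q)
      (by fun_prop)
  have hβ1 : β ^ (q - p) = (B : ℝ) ^ ((p - q) / (2 - q)) := by
    rw [hβdef, ← Real.rpow_mul hBr.le]
    congr 1
    field_simp
    ring
  have hβ2 : (B : ℝ) * β ^ (2 - p) = (B : ℝ) ^ ((p - q) / (2 - q)) := by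
    rw [hβdef, ← Real.rpow_mul hBr.le]
    nth_rewrite 1 [← Real.rpow_one (B : ℝ)]
    rw [← Real.rpow_add hBr]
    congr 1
    field_simp
    ring
  calc ∫⁻ x, T g x ^ p
      ≤ ENNReal.ofReal p * ∫⁻ t in Ioi (0 : ℝ),
          volume {x | ENNReal.ofReal t < T g x} * ENNReal.ofReal (t ^ (p - 1)) :=
        LC.lc_le volume (hT g hg) hfin hp0
    _ ≤ ENNReal.ofReal p * ∫⁻ t in Ioi (0 : ℝ),
          (ENNReal.ofReal (2 ^ q) * A * (∫⁻ x, ENNReal.ofReal (t ^ (p - q - 1)) *
            ENNReal.ofReal (max (g x - β * t) 0) ^ q) +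
          ENNReal.ofReal 4 * B * ∫⁻ x, ENNReal.ofReal (t ^ (p - 3)) *
            ENNReal.ofReal (min (g x) (β * t)) ^ (2 : ℝ)) := by
        gcongr ENNReal.ofReal p * ?_
        exact setLIntegral_mono' measurableSet_Ioi fun t ht =>
          level hq A B hT hadd hA hB hg hβ ht
    _ = ENNReal.ofReal p *
          (ENNReal.ofReal (2 ^ q) * A * (∫⁻ t in Ioi (0 : ℝ), ∫⁻ x,
            ENNReal.ofReal (t ^ (p - q - 1)) * ENNReal.ofReal (max (g x - β * t) 0) ^ q) +
          ENNReal.ofReal 4 * B * ∫⁻ t in Ioi (0 : ℝ), ∫⁻ x, ENNReal.ofReal (t ^ (p - 3)) *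
            ENNReal.ofReal (min (g x) (β * t)) ^ (2 : ℝ)) := by
        rw [lintegral_add_left' hm1, lintegral_const_mul' _ _
          (ENNReal.mul_ne_top ENNReal.ofReal_ne_top ENNReal.coe_ne_top),
          lintegral_const_mul' _ _ (ENNReal.mul_ne_top ENNReal.ofReal_ne_top ENNReal.coe_ne_top)]
    _ ≤ ENNReal.ofReal p *
          (ENNReal.ofReal (2 ^ q) * A * (ENNReal.ofReal (β ^ (q - p) / (p - q)) *
            ∫⁻ x, ENNReal.ofReal (g x) ^ p) +
          ENNReal.ofReal 4 * B * (ENNReal.ofReal (β ^ (2 - p) * (1 / p + 1 / (2 - p))) *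
            ∫⁻ x, ENNReal.ofReal (g x) ^ p)) := by
        gcongr
    _ = ENNReal.ofReal (p * (2 ^ q * A * (β ^ (q - p) / (p - q)) +
          4 * B * (β ^ (2 - p) * (1 / p + 1 / (2 - p))))) *
            ∫⁻ x, ENNReal.ofReal (g x) ^ p := by
        have e1 : (A : ℝ≥0∞) = ENNReal.ofReal (A : ℝ) := (ENNReal.ofReal_coe_nnreal).symm
        have e2 : (B : ℝ≥0∞) = ENNReal.ofReal (B : ℝ) := (ENNReal.ofReal_coe_nnreal).symm
        rw [e1, e2, ← mul_assoc, ← mul_assoc, ← add_mul, ← mul_assoc,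
          ← ENNReal.ofReal_mul (by positivity), ← ENNReal.ofReal_mul (by positivity),
          ← ENNReal.ofReal_mul (by positivity), ← ENNReal.ofReal_mul (by positivity),
          ← ENNReal.ofReal_add (by positivity) (by positivity), ← ENNReal.ofReal_mul hp0.le]
    _ = _ := by
        have e3 : (B : ℝ≥0∞) ^ ((p - q) / (2 - q)) = ENNReal.ofReal ((B : ℝ) ^ ((p - q) / (2 - q))) := by
          rw [← ENNReal.ofReal_rpow_of_pos hBr, ENNReal.ofReal_coe_nnreal]
        rw [e3]
        congr 1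
        change _ = ENNReal.ofReal _ * _
        rw [← ENNReal.ofReal_mul (by positivity)]
        congr 1
        have : 4 * (B : ℝ) * (β ^ (2 - p) * (1 / p + 1 / (2 - p))) =
          4 * (B * β ^ (2 - p)) * (1 / p + 1 / (2 - p)) := by ring
        rw [this, hβ1, hβ2]
        ring

end Pool.Agent.MP_bb1b7e
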