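import Pool.Agent.Lib.MP_bb1b7e_an.Spec

/-!
# Module ONE: complex Gaussians in one variable
-/

set_option autoImplicit false

namespace Pool.Agent.MP_bb1b7e

open MeasureTheory
open scoped ENNReal NNReal ComplexConjugate

namespace ModOne

/-! ## general facts on complex Gaussians -/

lemma re_ne {z : ℂ} (hz : 0 < z.re) : z ≠ 0 := by
  rintro rfl
  simp at hz

lemma sqrt_inv {z : ℂ} (hz : 0 < z.re) : z ^ (1 / 2 : ℂ) * (z⁻¹) ^ (1 / 2 : ℂ) = 1 := by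
  have harg : z.arg ≠ Real.pi := by
    intro h
    have h1 := (Complex.arg_eq_pi_iff.1 h).1
    linarith
  rw [Complex.inv_cpow z _ harg]
  apply mul_inv_cancel₀
  rw [Ne, Complex.cpow_eq_zero_iff]
  push Not
  intro h
  exact absurd h (re_ne hz)

/-- the real part of the inverse -/
lemma inv_re' (z : ℂ) : (z⁻¹).re = z.re / ‖z‖ ^ 2 := by
  rw [Complex.inv_re, Complex.normSq_eq_norm_sq]

lemma norm_gauss (z : ℂ) (y : ℝ) :
    ‖Complex.exp (-((y : ℂ) ^ 2 / (4 * z)))‖ = Real.exp (-(y ^ 2 / 4 * (z.re / ‖z‖ ^ 2))) := by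
  rw [Complex.norm_exp]
  congr 1
  have e : (-((y : ℂ) ^ 2 / (4 * z))) = ((-(y ^ 2 / 4) : ℝ) : ℂ) * z⁻¹ := by
    push_cast
    rw [div_mul_eq_div_div, div_eq_mul_inv ((y : ℂ) ^ 2 / 4)]
    ring
  rw [e, Complex.re_ofReal_mul, inv_re']
  ring

lemma ofReal_mul_cpow {r : ℝ} (hr : 0 < r) {w : ℂ} (hw : w ≠ 0) :
    ((r : ℂ) * w) ^ (1 / 2 : ℂ) = ((√r : ℝ) : ℂ) * w ^ (1 / 2 : ℂ) := by
  have hr0 : (r : ℂ) ≠ 0 := by exact_mod_cast hr.ne'
  rw [Complex.cpow_def_of_ne_zero (mul_ne_zero hr0 hw), Complex.log_ofReal_mul hr hw, add_mul,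
    Complex.exp_add, Complex.cpow_def_of_ne_zero hw]
  congr 1
  rw [Real.sqrt_eq_rpow, Real.rpow_def_of_pos hr, Complex.ofReal_exp]
  congr 1
  push_cast
  rfl

/-- convolution with a heat kernel -/
lemma conv_eq {z : ℂ} (hz : 0 < z.re) {c : ℝ} (hc : 0 < c) (y : ℝ) :
    ∫ v : ℝ, Complex.exp (-(((y - v : ℝ) : ℂ) ^ 2 / (4 * z))) * (heat c v : ℂ) =
      (z / (z + c)) ^ (1 / 2 : ℂ) * Complex.exp (-((y : ℂ) ^ 2 / (4 * (z + c)))) := by
  have hz0 := re_ne hz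
  have hc0 : (c : ℂ) ≠ 0 := by exact_mod_cast hc.ne'
  have hzc : 0 < (z + c).re := by simp; linarith
  have hzc0 := re_ne hzc
  set b : ℂ := -((4 * z)⁻¹ + (4 * (c : ℂ))⁻¹) with hb
  have hbre : b.re < 0 := by
    have e1 : ((4 * z)⁻¹).re = z.re / ‖z‖ ^ 2 / 4 := by
      rw [mul_inv, ← inv_re']
      have : (4 : ℂ)⁻¹ = (((4 : ℝ)⁻¹ : ℝ) : ℂ) := by push_cast; rfl
      rw [this, Complex.re_ofReal_mul]
      ring
    have e2 : ((4 * (c : ℂ))⁻¹).re = (4 * c)⁻¹ := by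
      have : (4 * (c : ℂ))⁻¹ = (((4 * c)⁻¹ : ℝ) : ℂ) := by push_cast; rfl
      rw [this, Complex.ofReal_re]
    rw [hb, Complex.neg_re, Complex.add_re, e1, e2]
    have h1 : 0 < ‖z‖ := norm_pos_iff.2 hz0
    have h2 : 0 < z.re / ‖z‖ ^ 2 / 4 := by positivity
    have h3 : 0 < (4 * c)⁻¹ := by positivity
    linarith
  have h1 := integral_cexp_quadratic hbre ((y : ℂ) / (2 * z)) (-((y : ℂ) ^ 2 / (4 * z)))
  have e1 : ∀ v : ℝ, Complex.exp (-(((y - v : ℝ) : ℂ) ^ 2 / (4 * z))) * (heat c v : ℂ) =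
      (((√(4 * Real.pi * c))⁻¹ : ℝ) : ℂ) *
        Complex.exp (b * (v : ℂ) ^ 2 + (y : ℂ) / (2 * z) * v + -((y : ℂ) ^ 2 / (4 * z))) := by
    intro v
    unfold heat
    push_cast
    rw [mul_comm, mul_assoc, ← Complex.exp_add]
    congr 2
    rw [hb]
    field_simp
    ring
  have e2 : (Real.pi : ℂ) / -b = ((4 * Real.pi * c : ℝ) : ℂ) * (z / (z + c)) := by
    rw [hb]
    push_cast
    have : (z + (c : ℂ)) ≠ 0 := hzc0
    have h4 : (4 * z)⁻¹ + (4 * (c : ℂ))⁻¹ = (z + c) / (4 * z * c) := by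
      field_simp
      ring
    rw [neg_neg, h4]
    field_simp
  have e3 : -((y : ℂ) ^ 2 / (4 * z)) - ((y : ℂ) / (2 * z)) ^ 2 / (4 * b) =
      -((y : ℂ) ^ 2 / (4 * (z + c))) := by
    have h4 : b = -((z + c) / (4 * z * c)) := by
      rw [hb]
      congr 1
      field_simp
      ring
    rw [h4]
    field_simp
    ring
  have hpos : (0 : ℝ) < 4 * Real.pi * c := by positivity
  have e4 : (((4 * Real.pi * c : ℝ) : ℂ) * (z / (z + c))) ^ (1 / 2 : ℂ) =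
      ((√(4 * Real.pi * c) : ℝ) : ℂ) * (z / (z + c)) ^ (1 / 2 : ℂ) :=
    ofReal_mul_cpow hpos (div_ne_zero hz0 hzc0)
  simp_rw [e1]
  rw [integral_const_mul, h1, e2, e3, e4]
  have h5 : (((√(4 * Real.pi * c))⁻¹ : ℝ) : ℂ) * ((√(4 * Real.pi * c) : ℝ) : ℂ) = 1 := by
    rw [← Complex.ofReal_mul, inv_mul_cancel₀ (Real.sqrt_pos.2 hpos).ne']
    simp
  rw [← mul_assoc, ← mul_assoc, h5, one_mul]

/-- the correlation of two Gaussians -/
lemma corr_eq {z z' : ℂ} (hz : 0 < z.re) (hz' : 0 < z'.re) (w : ℝ) :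
    ∫ y : ℝ, conj (Complex.exp (-((y : ℂ) ^ 2 / (4 * z)))) *
        Complex.exp (-(((y + w : ℝ) : ℂ) ^ 2 / (4 * z'))) =
      ((4 * Real.pi) * (conj z * z' / (conj z + z'))) ^ (1 / 2 : ℂ) *
        Complex.exp (-((w : ℂ) ^ 2 / (4 * (conj z + z')))) := by
  have hcz : 0 < (conj z).re := by simpa using hz
  have hz0 := re_ne hz
  have hcz0 := re_ne hcz
  have hz'0 := re_ne hz'
  have hA : 0 < (conj z + z').re := by rw [Complex.add_re]; linarith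
  have hA0 := re_ne hA
  set u := conj z with hu
  set b : ℂ := -((4 * u)⁻¹ + (4 * z')⁻¹) with hb
  have hinv : ∀ x : ℂ, 0 < x.re → 0 < ((4 * x)⁻¹).re := by
    intro x hx
    rw [mul_inv]
    have : (4 : ℂ)⁻¹ = (((4 : ℝ)⁻¹ : ℝ) : ℂ) := by push_cast; rfl
    rw [this, Complex.re_ofReal_mul, inv_re']
    have h1 : 0 < ‖x‖ := norm_pos_iff.2 (re_ne hx)
    positivity
  have hbre : b.re < 0 := by
    rw [hb, Complex.neg_re, Complex.add_re]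
    linarith [hinv u hcz, hinv z' hz']
  have h1 := integral_cexp_quadratic hbre (-((w : ℂ) / (2 * z'))) (-((w : ℂ) ^ 2 / (4 * z')))
  have e1 : ∀ y : ℝ, conj (Complex.exp (-((y : ℂ) ^ 2 / (4 * z)))) *
        Complex.exp (-(((y + w : ℝ) : ℂ) ^ 2 / (4 * z'))) =
      Complex.exp (b * (y : ℂ) ^ 2 + -((w : ℂ) / (2 * z')) * y + -((w : ℂ) ^ 2 / (4 * z'))) := by
    intro y
    have e0 : conj (Complex.exp (-((y : ℂ) ^ 2 / (4 * z)))) =
        Complex.exp (-((y : ℂ) ^ 2 / (4 * u))) := by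
      rw [← Complex.exp_conj]
      congr 1
      rw [map_neg, map_div₀, map_pow, map_mul, Complex.conj_ofReal, hu]
      congr 3
      exact Complex.conj_ofReal 4
    rw [e0, ← Complex.exp_add]
    congr 1
    rw [hb]
    push_cast
    field_simp
    ring
  have h4 : (4 * u)⁻¹ + (4 * z')⁻¹ = (u + z') / (4 * u * z') := by
    field_simp
    ring
  have e2 : (Real.pi : ℂ) / -b = (4 * Real.pi) * (u * z' / (u + z')) := by
    rw [hb, neg_neg, h4]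
    field_simp
  have e3 : -((w : ℂ) ^ 2 / (4 * z')) - (-((w : ℂ) / (2 * z'))) ^ 2 / (4 * b) =
      -((w : ℂ) ^ 2 / (4 * (u + z'))) := by
    rw [hb, h4]
    field_simp
    ring
  simp_rw [e1]
  rw [h1, e2, e3]

/-! ## the parameters -/

/-- `t² / (4 μ)` -/
noncomputable def be (τ t : ℝ) : ℂ := (t : ℂ) ^ 2 / (4 * mu τ)

/-- `a_k` -/
noncomputable def aa (τ t : ℝ) : ℝ := cc τ * 4 ^ Int.log 2 t

/-- `α = t² / (4 μ) - a_k` -/
noncomputable def al (τ t : ℝ) : ℂ := be τ t - aa τ t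

/-- the kernel `G` -/
noncomputable def GG (τ t y : ℝ) : ℂ :=
  (t : ℂ)⁻¹ * (be τ t / al τ t) ^ (1 / 2 : ℂ) * Complex.exp (-((y : ℂ) ^ 2 / (4 * al τ t)))

lemma mu_re (τ : ℝ) : (mu τ).re = 1 := by simp [mu]

lemma mu_im (τ : ℝ) : (mu τ).im = τ := by simp [mu]

lemma mu_ne (τ : ℝ) : mu τ ≠ 0 := re_ne (by rw [mu_re]; norm_num)

lemma norm_mu_sq (τ : ℝ) : ‖mu τ‖ ^ 2 = 1 + τ ^ 2 := by
  rw [← Complex.normSq_eq_norm_sq, Complex.normSq_apply, mu_re, mu_im]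
  ring

lemma one_le_norm_mu (τ : ℝ) : 1 ≤ ‖mu τ‖ := by
  have h1 := norm_mu_sq τ
  nlinarith [norm_nonneg (mu τ), sq_nonneg τ]

lemma norm_mu_pos (τ : ℝ) : 0 < ‖mu τ‖ := lt_of_lt_of_le one_pos (one_le_norm_mu τ)

lemma be_eq (τ t : ℝ) : be τ t = ((t ^ 2 / (4 * ‖mu τ‖ ^ 2) : ℝ) : ℂ) * conj (mu τ) := by
  have h1 : mu τ * conj (mu τ) = ((‖mu τ‖ ^ 2 : ℝ) : ℂ) := by
    rw [Complex.mul_conj, Complex.normSq_eq_norm_sq]
  have h2 : (‖mu τ‖ : ℂ) ≠ 0 := by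
    have := norm_mu_pos τ
    exact_mod_cast this.ne'
  unfold be
  rw [div_eq_iff (mul_ne_zero (by norm_num) (mu_ne τ))]
  have e : ((t ^ 2 / (4 * ‖mu τ‖ ^ 2) : ℝ) : ℂ) * conj (mu τ) * (4 * mu τ) =
      ((t ^ 2 / (4 * ‖mu τ‖ ^ 2) : ℝ) : ℂ) * 4 * (mu τ * conj (mu τ)) := by ring
  rw [e, h1]
  push_cast
  field_simp

lemma be_re (τ t : ℝ) : (be τ t).re = t ^ 2 / (4 * ‖mu τ‖ ^ 2) := by
  rw [be_eq, Complex.re_ofReal_mul, Complex.conj_re, mu_re, mul_one]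

lemma be_im (τ t : ℝ) : (be τ t).im = -(t ^ 2 / (4 * ‖mu τ‖ ^ 2)) * τ := by
  rw [be_eq, Complex.im_ofReal_mul, Complex.conj_im, mu_im]
  ring

lemma norm_be {τ t : ℝ} (ht : 0 < t) : ‖be τ t‖ = t ^ 2 / (4 * ‖mu τ‖) := by
  have h := norm_mu_pos τ
  rw [be_eq, norm_mul, Complex.norm_real, Real.norm_eq_abs, abs_of_nonneg (by positivity),
    RCLike.norm_conj]
  field_simp

lemma log_le {t : ℝ} (ht : 0 < t) : (4 : ℝ) ^ Int.log 2 t ≤ t ^ 2 := by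
  have h1 : ((2 : ℕ) : ℝ) ^ Int.log 2 t ≤ t := Int.zpow_log_le_self (by norm_num) ht
  push_cast at h1
  have e : (4 : ℝ) ^ Int.log 2 t = ((2 : ℝ) ^ Int.log 2 t) ^ 2 := by
    rw [← zpow_natCast, ← zpow_mul, mul_comm, zpow_mul]
    norm_num
  rw [e]
  exact pow_le_pow_left₀ (by positivity) h1 2

lemma lt_log {t : ℝ} (ht : 0 < t) : t ^ 2 ≤ 4 * (4 : ℝ) ^ Int.log 2 t := by
  have h1 : t < ((2 : ℕ) : ℝ) ^ (Int.log 2 t + 1) := Int.lt_zpow_succ_log_self (by norm_num) t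
  push_cast at h1
  have e : 4 * (4 : ℝ) ^ Int.log 2 t = ((2 : ℝ) ^ (Int.log 2 t + 1)) ^ 2 := by
    rw [← zpow_natCast, ← zpow_mul, mul_comm (Int.log 2 t + 1) _, zpow_mul, zpow_add₀ (by norm_num)]
    norm_num
    ring
  rw [e]
  exact pow_le_pow_left₀ ht.le h1.le 2

lemma aa_eq (τ t : ℝ) : aa τ t = 4 ^ Int.log 2 t / (8 * ‖mu τ‖ ^ 2) := by
  unfold aa cc
  ring

lemma aa_pos (τ t : ℝ) : 0 < aa τ t := by
  rw [aa_eq]
  have := norm_mu_pos τ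
  positivity

lemma aa_le {τ t : ℝ} (ht : 0 < t) : aa τ t ≤ t ^ 2 / (8 * ‖mu τ‖ ^ 2) := by
  rw [aa_eq]
  have := norm_mu_pos τ
  exact div_le_div_of_nonneg_right (log_le ht) (by positivity)

lemma al_re_ge {τ t : ℝ} (ht : 0 < t) : t ^ 2 / (8 * ‖mu τ‖ ^ 2) ≤ (al τ t).re := by
  unfold al
  rw [Complex.sub_re, be_re, Complex.ofReal_re]
  have h := aa_le (τ := τ) ht
  have e : t ^ 2 / (4 * ‖mu τ‖ ^ 2) = 2 * (t ^ 2 / (8 * ‖mu τ‖ ^ 2)) := by ring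
  rw [e]; linarith

lemma al_im (τ t : ℝ) : (al τ t).im = -(t ^ 2 / (4 * ‖mu τ‖ ^ 2)) * τ := by
  unfold al
  rw [Complex.sub_im, be_im, Complex.ofReal_im, sub_zero]

lemma al_re_pos {τ t : ℝ} (ht : 0 < t) : 0 < (al τ t).re := by
  have h := norm_mu_pos τ
  exact lt_of_lt_of_le (by positivity) (al_re_ge ht)

lemma norm_al_ge {τ t : ℝ} (ht : 0 < t) : t ^ 2 / (8 * ‖mu τ‖) ≤ ‖al τ t‖ := by
  have h := norm_mu_pos τ
  apply le_of_sq_le_sq _ (norm_nonneg _)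
  rw [← Complex.normSq_eq_norm_sq, Complex.normSq_apply, al_im]
  have h1 := al_re_ge (τ := τ) ht
  have h2 : (t ^ 2 / (8 * ‖mu τ‖ ^ 2)) * (t ^ 2 / (8 * ‖mu τ‖ ^ 2)) ≤
      (al τ t).re * (al τ t).re := mul_le_mul h1 h1 (by positivity) (al_re_pos ht).le
  have h3 : (t ^ 2 / (8 * ‖mu τ‖)) ^ 2 = (t ^ 2 / (8 * ‖mu τ‖ ^ 2)) * (t ^ 2 / (8 * ‖mu τ‖ ^ 2)) *
      ‖mu τ‖ ^ 2 := by
    field_simp
  rw [h3, norm_mu_sq]
  have h4 : (-(t ^ 2 / (4 * (1 + τ ^ 2))) * τ) * (-(t ^ 2 / (4 * (1 + τ ^ 2))) * τ) =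
      4 * ((t ^ 2 / (8 * (1 + τ ^ 2))) * (t ^ 2 / (8 * (1 + τ ^ 2))) * τ ^ 2) := by
    field_simp
    ring
  rw [h4]
  rw [norm_mu_sq] at h2
  have h5 : 0 ≤ (t ^ 2 / (8 * (1 + τ ^ 2))) * (t ^ 2 / (8 * (1 + τ ^ 2))) * τ ^ 2 := by positivity
  nlinarith

lemma norm_al_le {τ t : ℝ} (ht : 0 < t) : ‖al τ t‖ ≤ 3 * t ^ 2 / (8 * ‖mu τ‖) := by
  have h := norm_mu_pos τ
  have h1 := one_le_norm_mu τ
  unfold al
  refine (norm_sub_le _ _).trans ?_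
  rw [norm_be ht, Complex.norm_real, Real.norm_eq_abs, abs_of_pos (aa_pos τ t)]
  have h2 := aa_le (τ := τ) ht
  have h3 : t ^ 2 / (8 * ‖mu τ‖ ^ 2) ≤ t ^ 2 / (8 * ‖mu τ‖) := by
    apply div_le_div_of_nonneg_left (by positivity) (by positivity)
    nlinarith
  have e : 3 * t ^ 2 / (8 * ‖mu τ‖) = t ^ 2 / (4 * ‖mu τ‖) + t ^ 2 / (8 * ‖mu τ‖) := by
    field_simp
    ring
  rw [e]; linarith

/-! ## the four properties -/

lemma continuous_GG (τ t : ℝ) : Continuous (GG τ t) := by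
  unfold GG
  fun_prop

lemma norm_sqrt_le {τ t : ℝ} (ht : 0 < t) : ‖(be τ t / al τ t) ^ (1 / 2 : ℂ)‖ ≤ √2 := by
  have h := norm_mu_pos τ
  have e : (1 / 2 : ℂ) = (((1 / 2 : ℝ)) : ℂ) := by push_cast; rfl
  rw [e, Complex.norm_cpow_real, norm_div, norm_be ht, Real.sqrt_eq_rpow]
  apply Real.rpow_le_rpow (by positivity) _ (by norm_num)
  have h1 := norm_al_ge (τ := τ) ht
  have h2 : 0 < t ^ 2 / (8 * ‖mu τ‖) := by positivity
  rw [div_le_iff₀ (lt_of_lt_of_le h2 h1)]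
  have e2 : t ^ 2 / (4 * ‖mu τ‖) = 2 * (t ^ 2 / (8 * ‖mu τ‖)) := by ring
  rw [e2]; linarith

lemma bound_GG {τ t : ℝ} (ht : 0 < t) (y : ℝ) :
    ‖GG τ t y‖ ≤ √2 * t⁻¹ * Real.exp (-(y / t) ^ 2 / 5) := by
  have h := norm_mu_pos τ
  unfold GG
  rw [norm_mul, norm_mul, norm_gauss, norm_inv, Complex.norm_real, Real.norm_eq_abs,
    abs_of_pos ht]
  have h1 := norm_sqrt_le (τ := τ) ht
  have h2 : Real.exp (-(y ^ 2 / 4 * ((al τ t).re / ‖al τ t‖ ^ 2))) ≤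
      Real.exp (-(y / t) ^ 2 / 5) := by
    apply Real.exp_le_exp.2
    have h3 : 8 / (9 * t ^ 2) ≤ (al τ t).re / ‖al τ t‖ ^ 2 := by
      have h4 := norm_al_le (τ := τ) ht
      have h5 := al_re_ge (τ := τ) ht
      have h6 := norm_al_ge (τ := τ) ht
      have h7 : 0 < ‖al τ t‖ := lt_of_lt_of_le (by positivity) h6
      rw [le_div_iff₀ (by positivity)]
      calc 8 / (9 * t ^ 2) * ‖al τ t‖ ^ 2 ≤ 8 / (9 * t ^ 2) * (3 * t ^ 2 / (8 * ‖mu τ‖)) ^ 2 := by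
            apply mul_le_mul_of_nonneg_left _ (by positivity)
            exact pow_le_pow_left₀ h7.le h4 2
        _ = t ^ 2 / (8 * ‖mu τ‖ ^ 2) := by field_simp; norm_num
        _ ≤ (al τ t).re := h5
    have h8 : y ^ 2 / 4 * (8 / (9 * t ^ 2)) ≤ y ^ 2 / 4 * ((al τ t).re / ‖al τ t‖ ^ 2) :=
      mul_le_mul_of_nonneg_left h3 (by positivity)
    have h9 : y ^ 2 / 4 * (8 / (9 * t ^ 2)) = 2 / 9 * (y / t) ^ 2 := by
      field_simp
      ring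
    have h10 : 0 ≤ (y / t) ^ 2 := by positivity
    linarith
  calc t⁻¹ * ‖(be τ t / al τ t) ^ (1 / 2 : ℂ)‖ *
        Real.exp (-(y ^ 2 / 4 * ((al τ t).re / ‖al τ t‖ ^ 2)))
      ≤ t⁻¹ * √2 * Real.exp (-(y / t) ^ 2 / 5) := by
        apply mul_le_mul _ h2 (Real.exp_pos _).le (by positivity)
        exact mul_le_mul_of_nonneg_left h1 (by positivity)
    _ = √2 * t⁻¹ * Real.exp (-(y / t) ^ 2 / 5) := by ring

/-- the convolution of `G` with a heat kernel -/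
lemma conv_GG {τ t : ℝ} (ht : 0 < t) {c : ℝ} (hc : 0 < c) (y : ℝ) :
    ∫ v, GG τ t (y - v) * (heat c v : ℂ) =
      (t : ℂ)⁻¹ * (be τ t / al τ t) ^ (1 / 2 : ℂ) *
        ((al τ t / (al τ t + c)) ^ (1 / 2 : ℂ) *
          Complex.exp (-((y : ℂ) ^ 2 / (4 * (al τ t + c))))) := by
  rw [← conv_eq (al_re_pos ht) hc y, ← integral_const_mul]
  congr 1
  funext v
  unfold GG
  ring

lemma ker_GG {τ t : ℝ} (ht : 0 < t) (y : ℝ) :
    ker τ t y = ∫ v, GG τ t (y - v) * (heat (cc τ * 4 ^ Int.log 2 t) v : ℂ) := by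
  have h := norm_mu_pos τ
  have haa : 0 < cc τ * 4 ^ Int.log 2 t := aa_pos τ t
  rw [conv_GG ht haa]
  have e1 : al τ t + ((cc τ * 4 ^ Int.log 2 t : ℝ) : ℂ) = be τ t := by
    unfold al aa
    ring
  rw [e1]
  have hal := re_ne (al_re_pos (τ := τ) ht)
  have e2 : al τ t / be τ t = (be τ t / al τ t)⁻¹ := (inv_div _ _).symm
  have hre : 0 < (be τ t / al τ t).re := by
    have e3 : be τ t / al τ t = 1 + (aa τ t : ℂ) * (al τ t)⁻¹ := by
      have : be τ t = al τ t + aa τ t := by unfold al; ring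
      rw [this, add_div, div_self hal]
      rfl
    rw [e3, Complex.add_re, Complex.re_ofReal_mul, inv_re', Complex.one_re]
    have h1 := aa_pos τ t
    have h2 := al_re_pos (τ := τ) ht
    positivity
  rw [e2, mul_assoc, ← mul_assoc ((be τ t / al τ t) ^ (1 / 2 : ℂ)), sqrt_inv hre, one_mul]
  unfold ker
  congr 2
  have ht0 : (t : ℂ) ≠ 0 := by exact_mod_cast ht.ne'
  have hm := mu_ne τ
  unfold be
  push_cast
  field_simp

lemma sc_ge (τ : ℝ) : ‖mu τ‖ ≤ (4 : ℝ) ^ sc τ := by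
  unfold sc
  refine (Nat.le_ceil _).trans ?_
  exact_mod_cast Nat.le_pow_clog (by norm_num) _

lemma sc_le (τ : ℝ) : (4 : ℝ) ^ sc τ ≤ 8 * ‖mu τ‖ := by
  have h1 := one_le_norm_mu τ
  unfold sc
  set n := ⌈‖mu τ‖⌉₊ with hn
  have hn1 : (n : ℝ) ≤ ‖mu τ‖ + 1 := (Nat.ceil_lt_add_one (by linarith)).le
  rcases Nat.lt_or_ge 1 n with h | h
  · have h2 := Nat.pow_pred_clog_lt_self (b := 4) (by norm_num) h
    have h3 : 0 < Nat.clog 4 n := Nat.clog_pos (by norm_num) h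
    have h4 : 4 ^ Nat.clog 4 n = 4 * 4 ^ (Nat.clog 4 n).pred := by
      rw [← Nat.succ_pred_eq_of_pos h3, pow_succ]
      simp
      ring
    have h5 : 4 ^ Nat.clog 4 n ≤ 4 * n := by rw [h4]; omega
    have h6 : ((4 : ℝ)) ^ Nat.clog 4 n ≤ 4 * n := by exact_mod_cast h5
    linarith
  · have h2 : Nat.clog 4 n = 0 := Nat.clog_of_right_le_one h _
    rw [h2, pow_zero]
    linarith

lemma low_GG {τ t : ℝ} (ht : 0 < t) (y : ℝ) :
    ‖∫ v, GG τ t (y - v) * (heat (cc τ * 4 ^ (Int.log 2 t + sc τ)) v : ℂ)‖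
      ≤ 3 * t⁻¹ * Real.exp (-‖mu τ‖ * (y / t) ^ 2 / 250) := by
  have h := norm_mu_pos τ
  set b : ℝ := cc τ * 4 ^ (Int.log 2 t + sc τ) with hb
  have hb1 : b = aa τ t * 4 ^ sc τ := by
    rw [hb]
    unfold aa
    rw [zpow_add₀ (by norm_num), zpow_natCast]
    ring
  have hbpos : 0 < b := by
    rw [hb1]
    have := aa_pos τ t
    positivity
  have hbge : t ^ 2 / (32 * ‖mu τ‖) ≤ b := by
    rw [hb1, aa_eq]
    have h1 := lt_log ht
    have h2 := sc_ge τ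
    calc t ^ 2 / (32 * ‖mu τ‖) = (t ^ 2 / 4) / (8 * ‖mu τ‖ ^ 2) * ‖mu τ‖ := by
          field_simp
          ring
      _ ≤ 4 ^ Int.log 2 t / (8 * ‖mu τ‖ ^ 2) * 4 ^ sc τ := by
          apply mul_le_mul _ h2 h.le (by positivity)
          apply div_le_div_of_nonneg_right _ (by positivity)
          linarith
  have hble : b ≤ t ^ 2 / ‖mu τ‖ := by
    rw [hb1]
    have h1 := aa_le (τ := τ) ht
    have h2 := sc_le τ
    calc aa τ t * 4 ^ sc τ ≤ (t ^ 2 / (8 * ‖mu τ‖ ^ 2)) * (8 * ‖mu τ‖) :=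
          mul_le_mul h1 h2 (by positivity) (by positivity)
      _ = t ^ 2 / ‖mu τ‖ := by field_simp
  rw [conv_GG ht hbpos]
  set z := al τ t + b with hz
  have hzre : b ≤ z.re := by
    rw [hz, Complex.add_re, Complex.ofReal_re]
    linarith [al_re_pos (τ := τ) ht]
  have hzn : z.re ≤ ‖z‖ := (le_abs_self _).trans (Complex.abs_re_le_norm _)
  have hzpos : 0 < ‖z‖ := by linarith
  have hzle : ‖z‖ ≤ 11 / 8 * (t ^ 2 / ‖mu τ‖) := by
    rw [hz]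
    refine (norm_add_le _ _).trans ?_
    rw [Complex.norm_real, Real.norm_eq_abs, abs_of_pos hbpos]
    have h1 := norm_al_le (τ := τ) ht
    have e : 3 * t ^ 2 / (8 * ‖mu τ‖) = 3 / 8 * (t ^ 2 / ‖mu τ‖) := by
      field_simp
    rw [e] at h1
    linarith
  -- the constant
  have hal0 : 0 < ‖al τ t‖ := norm_pos_iff.2 (re_ne (al_re_pos ht))
  have hconst : ‖(be τ t / al τ t) ^ (1 / 2 : ℂ)‖ * ‖(al τ t / z) ^ (1 / 2 : ℂ)‖ ≤ 3 := by
    have e : (1 / 2 : ℂ) = (((1 / 2 : ℝ)) : ℂ) := by push_cast; rfl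
    rw [e, Complex.norm_cpow_real, Complex.norm_cpow_real,
      ← Real.mul_rpow (norm_nonneg _) (norm_nonneg _), norm_div, norm_div,
      div_mul_div_cancel₀ hal0.ne', norm_be ht]
    have h1 : t ^ 2 / (4 * ‖mu τ‖) / ‖z‖ ≤ 9 := by
      rw [div_le_iff₀ hzpos]
      have e2 : t ^ 2 / (4 * ‖mu τ‖) = 8 * (t ^ 2 / (32 * ‖mu τ‖)) := by
        field_simp
        norm_num
      rw [e2]
      linarith
    calc (t ^ 2 / (4 * ‖mu τ‖) / ‖z‖) ^ (1 / 2 : ℝ) ≤ 9 ^ (1 / 2 : ℝ) :=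
          Real.rpow_le_rpow (by positivity) h1 (by norm_num)
      _ = 3 := by
          rw [← Real.sqrt_eq_rpow]
          rw [show (9 : ℝ) = 3 ^ 2 by norm_num]
          exact Real.sqrt_sq (by norm_num)
  have hexp : Real.exp (-(y ^ 2 / 4 * (z.re / ‖z‖ ^ 2))) ≤
      Real.exp (-‖mu τ‖ * (y / t) ^ 2 / 250) := by
    apply Real.exp_le_exp.2
    have h3 : 2 * ‖mu τ‖ / (121 * t ^ 2) ≤ z.re / ‖z‖ ^ 2 := by
      rw [le_div_iff₀ (by positivity)]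
      calc 2 * ‖mu τ‖ / (121 * t ^ 2) * ‖z‖ ^ 2
          ≤ 2 * ‖mu τ‖ / (121 * t ^ 2) * (11 / 8 * (t ^ 2 / ‖mu τ‖)) ^ 2 := by
            apply mul_le_mul_of_nonneg_left _ (by positivity)
            exact pow_le_pow_left₀ hzpos.le hzle 2
        _ = t ^ 2 / (32 * ‖mu τ‖) := by
            field_simp
            norm_num
        _ ≤ z.re := hbge.trans hzre
    have h8 : y ^ 2 / 4 * (2 * ‖mu τ‖ / (121 * t ^ 2)) ≤
        y ^ 2 / 4 * (z.re / ‖z‖ ^ 2) := mul_le_mul_of_nonneg_left h3 (by positivity)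
    have h9 : y ^ 2 / 4 * (2 * ‖mu τ‖ / (121 * t ^ 2)) =
        ‖mu τ‖ * (y / t) ^ 2 / 242 := by
      field_simp
      ring
    have h10 : 0 ≤ ‖mu τ‖ * (y / t) ^ 2 := by positivity
    linarith
  rw [norm_mul, norm_mul, norm_mul, norm_gauss, norm_inv, Complex.norm_real, Real.norm_eq_abs,
    abs_of_pos ht]
  calc t⁻¹ * ‖(be τ t / al τ t) ^ (1 / 2 : ℂ)‖ * (‖(al τ t / z) ^ (1 / 2 : ℂ)‖ *
        Real.exp (-(y ^ 2 / 4 * (z.re / ‖z‖ ^ 2))))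
      = (‖(be τ t / al τ t) ^ (1 / 2 : ℂ)‖ * ‖(al τ t / z) ^ (1 / 2 : ℂ)‖) * t⁻¹ *
        Real.exp (-(y ^ 2 / 4 * (z.re / ‖z‖ ^ 2))) := by ring
    _ ≤ 3 * t⁻¹ * Real.exp (-‖mu τ‖ * (y / t) ^ 2 / 250) := by
        apply mul_le_mul _ hexp (Real.exp_pos _).le (by positivity)
        exact mul_le_mul_of_nonneg_right hconst (by positivity)

/-! ## correlations -/

/-- the correlation, in terms of `A = conj α + α'` -/
lemma corr_GG {τ t t' : ℝ} (ht : 0 < t) (ht' : 0 < t') (w : ℝ) :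
    ‖∫ y, conj (GG τ t y) * GG τ t' (y + w)‖ ≤
      3 * (‖mu τ‖ * √(‖conj (al τ t) + al τ t'‖))⁻¹ *
        Real.exp (-(w ^ 2 / 4 * ((conj (al τ t) + al τ t').re /
          ‖conj (al τ t) + al τ t'‖ ^ 2))) := by
  have h := norm_mu_pos τ
  have hz := al_re_pos (τ := τ) ht
  have hz' := al_re_pos (τ := τ) ht'
  set A := conj (al τ t) + al τ t' with hA
  have hAre : 0 < A.re := by
    rw [hA, Complex.add_re, Complex.conj_re]; linarith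
  have hA0 : 0 < ‖A‖ := norm_pos_iff.2 (re_ne hAre)
  have e1 : ∀ y : ℝ, conj (GG τ t y) * GG τ t' (y + w) =
      (conj ((t : ℂ)⁻¹ * (be τ t / al τ t) ^ (1 / 2 : ℂ)) *
        ((t' : ℂ)⁻¹ * (be τ t' / al τ t') ^ (1 / 2 : ℂ))) *
      (conj (Complex.exp (-((y : ℂ) ^ 2 / (4 * al τ t)))) *
        Complex.exp (-(((y + w : ℝ) : ℂ) ^ 2 / (4 * al τ t')))) := by
    intro y
    unfold GG
    rw [map_mul]
    ring
  simp_rw [e1]
  rw [integral_const_mul, corr_eq hz hz' w, ← hA, norm_mul, norm_mul, norm_mul, RCLike.norm_conj,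
    norm_mul, norm_mul, norm_gauss, norm_inv, norm_inv, Complex.norm_real, Complex.norm_real,
    Real.norm_eq_abs, Real.norm_eq_abs, abs_of_pos ht, abs_of_pos ht']
  rw [← mul_assoc]
  apply mul_le_mul_of_nonneg_right _ (Real.exp_pos _).le
  have h1 := norm_sqrt_le (τ := τ) ht
  have h2 := norm_sqrt_le (τ := τ) ht'
  have h3 := norm_al_le (τ := τ) ht
  have h4 := norm_al_le (τ := τ) ht'
  have hs2 : √2 * √2 = (2 : ℝ) := Real.mul_self_sqrt (by norm_num)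
  have h5 : ‖((4 * Real.pi) * (conj (al τ t) * al τ t' / A)) ^ (1 / 2 : ℂ)‖ ≤
      3 / 2 * (t * t') * (‖mu τ‖ * √‖A‖)⁻¹ := by
    have e : (1 / 2 : ℂ) = (((1 / 2 : ℝ)) : ℂ) := by push_cast; rfl
    rw [e, Complex.norm_cpow_real, ← Real.sqrt_eq_rpow]
    have e2 : 3 / 2 * (t * t') * (‖mu τ‖ * √‖A‖)⁻¹ =
        √(9 / 4 * (t * t') ^ 2 / (‖mu τ‖ ^ 2 * ‖A‖)) := by
      rw [Real.sqrt_div (by positivity), Real.sqrt_mul (by positivity : (0:ℝ) ≤ ‖mu τ‖ ^ 2),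
        Real.sqrt_sq h.le, Real.sqrt_mul (by norm_num), Real.sqrt_sq (by positivity)]
      have : √(9 / 4 : ℝ) = 3 / 2 := by
        rw [show (9 / 4 : ℝ) = (3 / 2) ^ 2 by norm_num]
        exact Real.sqrt_sq (by norm_num)
      rw [this]
      rfl
    rw [e2]
    apply Real.sqrt_le_sqrt
    rw [norm_mul, norm_div, norm_mul, norm_mul, RCLike.norm_conj, Complex.norm_real,
      Real.norm_eq_abs, abs_of_pos Real.pi_pos]
    have hpi : Real.pi ≤ 4 := Real.pi_le_four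
    have hn4 : ‖(4 : ℂ)‖ = 4 := by simp
    rw [hn4]
    have h6 : ‖al τ t‖ * ‖al τ t'‖ ≤ (3 * t ^ 2 / (8 * ‖mu τ‖)) * (3 * t' ^ 2 / (8 * ‖mu τ‖)) :=
      mul_le_mul h3 h4 (norm_nonneg _) (by positivity)
    calc 4 * Real.pi * (‖al τ t‖ * ‖al τ t'‖ / ‖A‖)
        ≤ 4 * 4 * ((3 * t ^ 2 / (8 * ‖mu τ‖)) * (3 * t' ^ 2 / (8 * ‖mu τ‖)) / ‖A‖) := by
          apply mul_le_mul _ _ (by positivity) (by norm_num)
          · linarith
          · exact div_le_div_of_nonneg_right h6 hA0.le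
      _ = 9 / 4 * (t * t') ^ 2 / (‖mu τ‖ ^ 2 * ‖A‖) := by
          field_simp
          norm_num
  calc t⁻¹ * ‖(be τ t / al τ t) ^ (1 / 2 : ℂ)‖ * (t'⁻¹ * ‖(be τ t' / al τ t') ^ (1 / 2 : ℂ)‖) *
        ‖((4 * Real.pi) * (conj (al τ t) * al τ t' / A)) ^ (1 / 2 : ℂ)‖
      ≤ t⁻¹ * √2 * (t'⁻¹ * √2) * (3 / 2 * (t * t') * (‖mu τ‖ * √‖A‖)⁻¹) := by
        apply mul_le_mul _ h5 (norm_nonneg _) (by positivity)
        apply mul_le_mul _ _ (by positivity) (by positivity)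
        · exact mul_le_mul_of_nonneg_left h1 (by positivity)
        · exact mul_le_mul_of_nonneg_left h2 (by positivity)
    _ = (√2 * √2) * (t⁻¹ * t) * (t'⁻¹ * t') * (3 / 2 * (‖mu τ‖ * √‖A‖)⁻¹) := by ring
    _ = 3 * (‖mu τ‖ * √‖A‖)⁻¹ := by
        rw [hs2, inv_mul_cancel₀ ht.ne', inv_mul_cancel₀ ht'.ne']
        ring

/-- the elementary inequality behind the kernel `K` -/
lemma elem {m x : ℝ} (hm : 0 < m) (hx : 0 < x) :
    (√m)⁻¹ * Real.exp (-(x ^ 2 / (32 * m ^ 2))) ≤ 3 * (√x)⁻¹ := by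
  have h1 : √m = √x * √(m / x) := by
    rw [← Real.sqrt_mul hx.le, mul_div_cancel₀ _ hx.ne']
  have hmx : 0 < m / x := by positivity
  have hsx : 0 < √x := Real.sqrt_pos.2 hx
  have hsmx : 0 < √(m / x) := Real.sqrt_pos.2 hmx
  rw [h1, mul_inv, mul_assoc, mul_comm 3]
  apply mul_le_mul_of_nonneg_left _ (by positivity)
  -- now `exp(-(x/m)^2/32) ≤ 3 sqrt (m/x)`
  rw [inv_mul_le_iff₀ hsmx]
  have e1 : x ^ 2 / (32 * m ^ 2) = ((m / x) ^ 2)⁻¹ / 32 := by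
    field_simp
  rw [e1]
  set u := m / x with hu
  have h2 : Real.exp (-((u ^ 2)⁻¹ / 32)) ≤ (1 + (u ^ 2)⁻¹ / 32)⁻¹ := by
    rw [Real.exp_neg]
    apply inv_anti₀ (by positivity)
    have := Real.add_one_le_exp ((u ^ 2)⁻¹ / 32)
    linarith
  refine h2.trans ?_
  set s := √u with hs
  have hsu : s ^ 2 = u := Real.sq_sqrt hmx.le
  have e2 : (1 + (u ^ 2)⁻¹ / 32)⁻¹ = 32 * s ^ 4 / (32 * s ^ 4 + 1) := by
    rw [← hsu]
    field_simp
  rw [e2, div_le_iff₀ (by positivity)]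
  nlinarith [sq_nonneg (s - 1), sq_nonneg (s ^ 2 - s), sq_nonneg (s ^ 2), sq_nonneg s,
    mul_pos hsmx hsmx, pow_pos hsmx 3, pow_pos hsmx 4, pow_pos hsmx 5]

/-! ## the kernels `K` and `K'` -/

/-- the profile -/
noncomputable def f0 (x : ℝ) : ℝ := (√|x|)⁻¹ * Real.exp (-(x ^ 2 / 288))

lemma f0_nonneg (x : ℝ) : 0 ≤ f0 x := by unfold f0; positivity

lemma integrable_f0 : Integrable f0 := by
  set g : ℝ → ℝ := fun x => x ^ (-(1 / 2) : ℝ) * Real.exp (-(1 / 288) * x ^ 2) with hg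
  have h1 : Integrable g := integrable_rpow_mul_exp_neg_mul_sq (by norm_num) (by norm_num)
  have h2 := h1.add h1.comp_neg
  have hneg : ∀ x : ℝ, x < 0 → x ^ (-(1 / 2) : ℝ) = 0 := by
    intro x hx
    rw [Real.rpow_def_of_neg hx]
    have : Real.cos (-(1 / 2) * Real.pi) = 0 := by
      rw [show (-(1 / 2) * Real.pi) = -(Real.pi / 2) by ring, Real.cos_neg, Real.cos_pi_div_two]
    rw [this, mul_zero]
  have hpos : ∀ x : ℝ, 0 < x → x ^ (-(1 / 2) : ℝ) = (√x)⁻¹ := by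
    intro x hx
    rw [Real.rpow_neg hx.le, Real.sqrt_eq_rpow]
  refine h2.congr (Filter.Eventually.of_forall fun x => ?_)
  simp only [Pi.add_apply, hg]
  unfold f0
  have e : Real.exp (-(x ^ 2 / 288)) = Real.exp (-(1 / 288) * x ^ 2) := by
    congr 1; ring
  rcases lt_trichotomy x 0 with hx | hx | hx
  · rw [hneg x hx, hpos (-x) (by linarith), abs_of_neg hx, e, neg_sq]
    ring
  · rw [hx]
    have : (0 : ℝ) ^ (-(1 / 2) : ℝ) = 0 := Real.zero_rpow (by norm_num)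
    simp only [neg_zero, this, abs_zero, Real.sqrt_zero, inv_zero, zero_mul, add_zero]
  · rw [hneg (-x) (by linarith), hpos x hx, abs_of_pos hx, e]
    ring

/-- the kernel `K` -/
noncomputable def KK (τ : ℝ) (k : ℤ) (w : ℝ) : ℝ≥0∞ :=
  if w = 0 then ⊤ else
    ENNReal.ofReal (9 * (√‖mu τ‖)⁻¹ * (((2 : ℝ) ^ k)⁻¹ * f0 (w / 2 ^ k)))

/-- the kernel `K'` -/
noncomputable def KK' (τ : ℝ) (k : ℤ) (w : ℝ) : ℝ≥0∞ :=
  ENNReal.ofReal (6 * (((2 : ℝ) ^ k)⁻¹ * Real.exp (-(‖mu τ‖ ^ 2) * (w / 2 ^ k) ^ 2)))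

lemma measurable_f0 : Measurable f0 := by
  unfold f0
  fun_prop

lemma measurable_KK (τ : ℝ) (k : ℤ) : Measurable (KK τ k) := by
  unfold KK
  apply Measurable.ite (measurableSet_singleton 0) measurable_const
  apply Measurable.ennreal_ofReal
  apply Measurable.const_mul
  apply Measurable.const_mul
  exact measurable_f0.comp (measurable_id.div_const _)

lemma measurable_KK' (τ : ℝ) (k : ℤ) : Measurable (KK' τ k) := by
  unfold KK'
  fun_prop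

lemma scale_integral {f : ℝ → ℝ} (hf : Integrable f) (h0 : ∀ x, 0 ≤ f x) {c : ℝ} (hc : 0 ≤ c)
    (k : ℤ) : ∫⁻ w, ENNReal.ofReal (c * (((2 : ℝ) ^ k)⁻¹ * f (w / 2 ^ k))) =
      ENNReal.ofReal (c * ∫ x, f x) := by
  have h2 : (0 : ℝ) < 2 ^ k := by positivity
  rw [← ofReal_integral_eq_lintegral_ofReal]
  · congr 1
    rw [integral_const_mul, integral_const_mul, Measure.integral_comp_div, abs_of_pos h2,
      smul_eq_mul, ← mul_assoc ((2 : ℝ) ^ k)⁻¹, inv_mul_cancel₀ h2.ne', one_mul]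
  · exact ((hf.comp_div h2.ne').const_mul _).const_mul _
  · refine Filter.Eventually.of_forall fun w => ?_
    have := h0 (w / 2 ^ k)
    show 0 ≤ c * (((2 : ℝ) ^ k)⁻¹ * f (w / 2 ^ k))
    positivity

lemma int_KK (τ : ℝ) (k : ℤ) :
    ∫⁻ w, KK τ k w ≤ ENNReal.ofReal (9 * (∫ x, f0 x) * ‖mu τ‖ ^ (-(1 / 2) : ℝ)) := by
  have h : ∫⁻ w, KK τ k w =
      ∫⁻ w, ENNReal.ofReal (9 * (√‖mu τ‖)⁻¹ * (((2 : ℝ) ^ k)⁻¹ * f0 (w / 2 ^ k))) := by
    apply lintegral_congr_ae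
    have h0 : ∀ᵐ w : ℝ, w ≠ 0 := by
      rw [ae_iff]
      simp
    filter_upwards [h0] with w hw
    unfold KK
    rw [if_neg hw]
  rw [h, scale_integral integrable_f0 f0_nonneg (by positivity)]
  apply ENNReal.ofReal_le_ofReal
  rw [Real.rpow_neg (norm_nonneg _), Real.sqrt_eq_rpow]
  exact le_of_eq (by ring)

lemma int_KK' (τ : ℝ) (k : ℤ) :
    ∫⁻ w, KK' τ k w ≤ ENNReal.ofReal (12 * ‖mu τ‖ ^ (-1 : ℝ)) := by
  have hn := norm_mu_pos τ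
  unfold KK'
  have h1 := scale_integral (f := fun x => Real.exp (-(‖mu τ‖ ^ 2) * x ^ 2))
    (integrable_exp_neg_mul_sq (by positivity)) (fun x => (Real.exp_pos _).le)
    (c := 6) (by norm_num) k
  rw [h1, integral_gaussian]
  apply ENNReal.ofReal_le_ofReal
  rw [Real.sqrt_div Real.pi_pos.le, Real.sqrt_sq hn.le, Real.rpow_neg_one]
  have h2 : √Real.pi ≤ 2 := by
    rw [Real.sqrt_le_left (by norm_num)]
    have := Real.pi_le_four
    linarith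
  have h3 : √Real.pi / ‖mu τ‖ ≤ 2 / ‖mu τ‖ := div_le_div_of_nonneg_right h2 hn.le
  have e : 12 * ‖mu τ‖⁻¹ = 6 * (2 / ‖mu τ‖) := by ring
  rw [e]
  linarith

lemma four_zpow (k : ℤ) : (4 : ℝ) ^ k = ((2 : ℝ) ^ k) ^ 2 := by
  rw [← zpow_natCast, ← zpow_mul, mul_comm, zpow_mul]
  norm_num

lemma corr_KK {τ t t' : ℝ} (ht : 0 < t) (ht' : 0 < t') (hk : Int.log 2 t = Int.log 2 t')
    (w : ℝ) : ‖∫ y, conj (GG τ t y) * GG τ t' (y + w)‖ₑ ≤ KK τ (Int.log 2 t) w := by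
  unfold KK
  by_cases hw : w = 0
  · rw [if_pos hw]; exact le_top
  rw [if_neg hw, ← ofReal_norm]
  apply ENNReal.ofReal_le_ofReal
  have hn := norm_mu_pos τ
  refine (corr_GG ht ht' w).trans ?_
  set k := Int.log 2 t with hkdef
  have h2k : (0 : ℝ) < 2 ^ k := by positivity
  set A := conj (al τ t) + al τ t' with hA
  have hz := al_re_pos (τ := τ) ht
  have hz' := al_re_pos (τ := τ) ht'
  have hAre : (2 ^ k) ^ 2 / (4 * ‖mu τ‖ ^ 2) ≤ A.re := by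
    rw [hA, Complex.add_re, Complex.conj_re]
    have h1 := al_re_ge (τ := τ) ht
    have h2 := al_re_ge (τ := τ) ht'
    have h3 := log_le ht
    have h4 := log_le ht'
    rw [← hk, four_zpow] at h4
    rw [← hkdef, four_zpow] at h3
    have h5 : (2 ^ k) ^ 2 / (8 * ‖mu τ‖ ^ 2) ≤ t ^ 2 / (8 * ‖mu τ‖ ^ 2) :=
      div_le_div_of_nonneg_right h3 (by positivity)
    have h6 : (2 ^ k) ^ 2 / (8 * ‖mu τ‖ ^ 2) ≤ t' ^ 2 / (8 * ‖mu τ‖ ^ 2) :=
      div_le_div_of_nonneg_right h4 (by positivity)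
    have e : ((2 : ℝ) ^ k) ^ 2 / (4 * ‖mu τ‖ ^ 2) = (2 ^ k) ^ 2 / (8 * ‖mu τ‖ ^ 2) +
        (2 ^ k) ^ 2 / (8 * ‖mu τ‖ ^ 2) := by
      field_simp
      ring
    rw [e]; linarith
  have hAle : ‖A‖ ≤ 3 * (2 ^ k) ^ 2 / ‖mu τ‖ := by
    rw [hA]
    refine (norm_add_le _ _).trans ?_
    rw [RCLike.norm_conj]
    have h1 := norm_al_le (τ := τ) ht
    have h2 := norm_al_le (τ := τ) ht'
    have h3 := lt_log ht
    have h4 := lt_log ht'
    rw [← hk, four_zpow] at h4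
    rw [← hkdef, four_zpow] at h3
    have h5 : 3 * t ^ 2 / (8 * ‖mu τ‖) ≤ 3 * (4 * (2 ^ k) ^ 2) / (8 * ‖mu τ‖) :=
      div_le_div_of_nonneg_right (by linarith) (by positivity)
    have h6 : 3 * t' ^ 2 / (8 * ‖mu τ‖) ≤ 3 * (4 * (2 ^ k) ^ 2) / (8 * ‖mu τ‖) :=
      div_le_div_of_nonneg_right (by linarith) (by positivity)
    have e : 3 * ((2 : ℝ) ^ k) ^ 2 / ‖mu τ‖ = 3 * (4 * (2 ^ k) ^ 2) / (8 * ‖mu τ‖) +
        3 * (4 * (2 ^ k) ^ 2) / (8 * ‖mu τ‖) := by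
      field_simp
      ring
    rw [e]; linarith
  have hA0 : 0 < ‖A‖ := by
    have h1 : A.re ≤ ‖A‖ := (le_abs_self _).trans (Complex.abs_re_le_norm _)
    have h2 : 0 < ((2 : ℝ) ^ k) ^ 2 / (4 * ‖mu τ‖ ^ 2) := by positivity
    linarith
  set m : ℝ := ‖A‖ * ‖mu τ‖ ^ 2 / (2 ^ k) ^ 2 with hm
  have hm0 : 0 < m := by positivity
  have hmle : m ≤ 3 * ‖mu τ‖ := by
    rw [hm, div_le_iff₀ (by positivity)]
    calc ‖A‖ * ‖mu τ‖ ^ 2 ≤ 3 * (2 ^ k) ^ 2 / ‖mu τ‖ * ‖mu τ‖ ^ 2 :=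
          mul_le_mul_of_nonneg_right hAle (by positivity)
      _ = 3 * ‖mu τ‖ * (2 ^ k) ^ 2 := by field_simp
  have hAm : ‖A‖ = m * (2 ^ k / ‖mu τ‖) ^ 2 := by
    rw [hm]; field_simp
  have hsA : √‖A‖ = √m * (2 ^ k / ‖mu τ‖) := by
    rw [hAm, Real.sqrt_mul hm0.le, Real.sqrt_sq (by positivity)]
  have hc : (‖mu τ‖ * √‖A‖)⁻¹ = (2 ^ k)⁻¹ * (√m)⁻¹ := by
    rw [hsA]
    have : 0 < √m := Real.sqrt_pos.2 hm0
    field_simp
  set W := w / 2 ^ k with hW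
  have hW0 : 0 < |W| := abs_pos.2 (div_ne_zero hw h2k.ne')
  set x := ‖mu τ‖ * |W| with hx
  have hx0 : 0 < x := by positivity
  have hexp : Real.exp (-(w ^ 2 / 4 * (A.re / ‖A‖ ^ 2))) ≤
      Real.exp (-(x ^ 2 / (32 * m ^ 2))) * Real.exp (-(W ^ 2 / 288)) := by
    rw [← Real.exp_add]
    apply Real.exp_le_exp.2
    have h1 : (2 ^ k) ^ 2 / (4 * ‖mu τ‖ ^ 2) / ‖A‖ ^ 2 ≤ A.re / ‖A‖ ^ 2 :=
      div_le_div_of_nonneg_right hAre (by positivity)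
    have h2 : w ^ 2 / 4 * ((2 ^ k) ^ 2 / (4 * ‖mu τ‖ ^ 2) / ‖A‖ ^ 2) ≤
        w ^ 2 / 4 * (A.re / ‖A‖ ^ 2) := mul_le_mul_of_nonneg_left h1 (by positivity)
    have h3 : w ^ 2 / 4 * ((2 ^ k) ^ 2 / (4 * ‖mu τ‖ ^ 2) / ‖A‖ ^ 2) =
        2 * (x ^ 2 / (32 * m ^ 2)) := by
      have hw2 : w ^ 2 = (|W| * 2 ^ k) ^ 2 := by
        rw [hW, abs_div, abs_of_pos h2k, div_mul_cancel₀ _ h2k.ne', sq_abs]
      rw [hAm, hw2, hx]
      field_simp
      norm_num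
    have h4 : W ^ 2 / 288 ≤ x ^ 2 / (32 * m ^ 2) := by
      rw [div_le_div_iff₀ (by norm_num) (by positivity), hx, mul_pow, sq_abs]
      have h5 : m ^ 2 ≤ (3 * ‖mu τ‖) ^ 2 := pow_le_pow_left₀ hm0.le hmle 2
      have h6 : 0 ≤ W ^ 2 := by positivity
      nlinarith
    linarith
  have hel := elem hm0 hx0
  have hsx : (√x)⁻¹ = (√‖mu τ‖)⁻¹ * (√|W|)⁻¹ := by
    rw [hx, Real.sqrt_mul hn.le, mul_inv]
  calc 3 * (‖mu τ‖ * √‖A‖)⁻¹ * Real.exp (-(w ^ 2 / 4 * (A.re / ‖A‖ ^ 2)))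
      ≤ 3 * ((2 ^ k)⁻¹ * (√m)⁻¹) *
          (Real.exp (-(x ^ 2 / (32 * m ^ 2))) * Real.exp (-(W ^ 2 / 288))) := by
        rw [hc]
        exact mul_le_mul_of_nonneg_left hexp (by positivity)
    _ = 3 * (2 ^ k)⁻¹ * ((√m)⁻¹ * Real.exp (-(x ^ 2 / (32 * m ^ 2)))) *
          Real.exp (-(W ^ 2 / 288)) := by ring
    _ ≤ 3 * (2 ^ k)⁻¹ * (3 * (√x)⁻¹) * Real.exp (-(W ^ 2 / 288)) := by
        apply mul_le_mul_of_nonneg_right _ (Real.exp_pos _).le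
        exact mul_le_mul_of_nonneg_left hel (by positivity)
    _ = 9 * (√‖mu τ‖)⁻¹ * ((2 ^ k)⁻¹ * f0 W) := by
        rw [hsx]
        unfold f0
        ring

lemma corr_KK' (τ : ℝ) (k : ℤ) (w : ℝ) :
    ‖∫ y, conj (GG τ ((2 : ℝ) ^ k) y) * GG τ ((2 : ℝ) ^ k) (y + w)‖ₑ ≤ KK' τ k w := by
  unfold KK'
  rw [← ofReal_norm]
  apply ENNReal.ofReal_le_ofReal
  have hn := norm_mu_pos τ
  have ht : (0 : ℝ) < 2 ^ k := by positivity
  refine (corr_GG ht ht w).trans ?_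
  have hlog : Int.log 2 ((2 : ℝ) ^ k) = k := by
    have := Int.log_zpow (R := ℝ) (b := 2) (by norm_num) k
    push_cast at this
    exact this
  have hre : (al τ (2 ^ k)).re = (2 ^ k) ^ 2 / (8 * ‖mu τ‖ ^ 2) := by
    unfold al
    rw [Complex.sub_re, be_re, Complex.ofReal_re, aa_eq, hlog, four_zpow]
    field_simp
    norm_num
  have hA : conj (al τ (2 ^ k)) + al τ (2 ^ k) =
      (((2 ^ k) ^ 2 / (4 * ‖mu τ‖ ^ 2) : ℝ) : ℂ) := by
    rw [add_comm, Complex.add_conj, hre]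
    congr 1
    field_simp
    norm_num
  rw [hA, Complex.norm_real, Real.norm_eq_abs, abs_of_pos (by positivity), Complex.ofReal_re]
  have hs : √((2 ^ k) ^ 2 / (4 * ‖mu τ‖ ^ 2)) = 2 ^ k / (2 * ‖mu τ‖) := by
    have : ((2 : ℝ) ^ k) ^ 2 / (4 * ‖mu τ‖ ^ 2) = (2 ^ k / (2 * ‖mu τ‖)) ^ 2 := by
      rw [div_pow, mul_pow]; norm_num
    rw [this]
    exact Real.sqrt_sq (by positivity)
  rw [hs]
  apply le_of_eq
  have e1 : 3 * (‖mu τ‖ * (2 ^ k / (2 * ‖mu τ‖)))⁻¹ = 6 * ((2 : ℝ) ^ k)⁻¹ := by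
    field_simp
    norm_num
  have e2 : -(w ^ 2 / 4 * ((2 ^ k) ^ 2 / (4 * ‖mu τ‖ ^ 2) /
      ((2 ^ k) ^ 2 / (4 * ‖mu τ‖ ^ 2)) ^ 2)) = -(‖mu τ‖ ^ 2) * (w / 2 ^ k) ^ 2 := by
    field_simp
  rw [e1, e2, mul_assoc]

end ModOne

open ModOne in
/-- Module ONE. -/
theorem specOne : SpecOne := by
  set I0 := ∫ x, f0 x with hI0
  have hI : 0 ≤ I0 := integral_nonneg f0_nonneg
  refine ⟨300 + 9 * I0, by linarith, ?_⟩
  intro τ
  have hn := norm_mu_pos τ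
  have hC : (300 : ℝ) ≤ 300 + 9 * I0 := by linarith
  set C := 300 + 9 * I0 with hCdef
  refine ⟨GG τ, KK τ, KK' τ, ?_⟩
  constructor
  · intro t _
    exact continuous_GG τ t
  · intro t ht y
    refine (bound_GG ht y).trans ?_
    have h1 : √2 ≤ C := by
      have : √2 ≤ 2 := by
        rw [Real.sqrt_le_left (by norm_num)]; norm_num
      linarith
    apply mul_le_mul _ _ (Real.exp_pos _).le (by positivity)
    · exact mul_le_mul_of_nonneg_right h1 (by positivity)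
    · apply Real.exp_le_exp.2
      have h2 : (y / t) ^ 2 / C ≤ (y / t) ^ 2 / 5 :=
        div_le_div_of_nonneg_left (by positivity) (by norm_num) (by linarith)
      rw [neg_div, neg_div]
      linarith
  · intro t ht y
    exact ker_GG ht y
  · intro t ht y
    refine (low_GG ht y).trans ?_
    apply mul_le_mul _ _ (Real.exp_pos _).le (by positivity)
    · exact mul_le_mul_of_nonneg_right (by linarith) (by positivity)
    · apply Real.exp_le_exp.2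
      have h0 : 0 ≤ ‖mu τ‖ * (y / t) ^ 2 := by positivity
      have h2 : ‖mu τ‖ * (y / t) ^ 2 / C ≤ ‖mu τ‖ * (y / t) ^ 2 / 250 :=
        div_le_div_of_nonneg_left h0 (by norm_num) (by linarith)
      rw [neg_mul, neg_div, neg_div]
      linarith
  · exact measurable_KK τ
  · intro k
    refine (int_KK τ k).trans (ENNReal.ofReal_le_ofReal ?_)
    apply mul_le_mul_of_nonneg_right _ (by positivity)
    rw [← hI0]; linarith
  · intro t t' ht ht' hk w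
    exact corr_KK ht ht' hk w
  · exact measurable_KK' τ
  · intro k
    refine (int_KK' τ k).trans (ENNReal.ofReal_le_ofReal ?_)
    exact mul_le_mul_of_nonneg_right (by linarith) (by positivity)
  · exact corr_KK' τ

end Pool.Agent.MP_bb1b7e
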