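import Pool.Agent.Lib.MP_bb1b7e_an.Spec

/-!
# REP: the surface measure of an ellipsoid as a superposition of complex Gaussians
-/

set_option autoImplicit false

namespace Pool.Agent.MP_bb1b7e

open MeasureTheory Set
open scoped ENNReal NNReal FourierTransform

/-- Polar coordinates. -/
lemma rep_polar {n : ℕ} (hn : 1 ≤ n) (Φ : E n → ℂ) (hΦ : Integrable Φ) :
    ∫ z, Φ z = ∫ ρ in Ioi (0 : ℝ), ((ρ ^ (n - 1) : ℝ) : ℂ) *
      ∫ ω : Metric.sphere (0 : E n) 1, Φ (ρ • (ω : E n)) ∂(volume : Measure (E n)).toSphere := by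
  have : Nonempty (Fin n) := ⟨⟨0, hn⟩⟩
  have : Nontrivial (E n) := inferInstance
  set μ : Measure (E n) := volume with hμ
  have hdim : Module.finrank ℝ (E n) = n := by simp
  have hmp := μ.measurePreserving_homeomorphUnitSphereProd
  rw [hdim] at hmp
  have hemb := (homeomorphUnitSphereProd (E n)).measurableEmbedding
  set g : Metric.sphere (0 : E n) 1 × Ioi (0 : ℝ) → ℂ := fun p => Φ ((p.2 : ℝ) • (p.1 : E n))
    with hg
  have hcomp : ∀ z : ({(0)}ᶜ : Set (E n)), g (homeomorphUnitSphereProd (E n) z) = Φ z := by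
    intro z
    have h0 : ‖(z : E n)‖ ≠ 0 := by
      rw [norm_ne_zero_iff]
      exact z.2
    simp only [hg]
    congr 1
    simp [smul_smul, h0]
  have h1 : ∫ z, Φ z ∂μ = ∫ z : ({(0)}ᶜ : Set (E n)), Φ z ∂(μ.comap (↑)) := by
    rw [integral_subtype_comap (measurableSet_singleton _).compl fun x ↦ Φ x,
      restrict_compl_singleton]
  have h2 : ∫ z : ({(0)}ᶜ : Set (E n)), Φ z ∂(μ.comap (↑)) =
      ∫ p, g p ∂(μ.toSphere.prod (Measure.volumeIoiPow (n - 1))) := by
    rw [← hmp.integral_comp hemb g]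
    simp only [hcomp]
  have hgi : Integrable g (μ.toSphere.prod (Measure.volumeIoiPow (n - 1))) := by
    rw [← hmp.integrable_comp_emb hemb]
    have h3 : g ∘ (homeomorphUnitSphereProd (E n)) = fun z : ({(0)}ᶜ : Set (E n)) => Φ z := by
      funext z; exact hcomp z
    rw [h3]
    have h4 : IntegrableOn Φ ({(0)}ᶜ : Set (E n)) μ := hΦ.integrableOn
    rwa [integrableOn_iff_comap_subtypeVal (measurableSet_singleton _).compl] at h4
  rw [h1, h2, integral_prod_symm _ hgi]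
  simp only [hg]
  simp only [Measure.volumeIoiPow, ENNReal.ofReal]
  rw [integral_withDensity_eq_integral_smul]
  · rw [integral_subtype_comap measurableSet_Ioi fun a : ℝ ↦ Real.toNNReal (a ^ (n - 1)) •
      ∫ x : Metric.sphere (0 : E n) 1, Φ (a • (x : E n)) ∂μ.toSphere]
    refine setIntegral_congr_fun measurableSet_Ioi fun x hx ↦ ?_
    show Real.toNNReal (x ^ (n - 1)) • _ = _
    rw [NNReal.smul_def, Real.coe_toNNReal _ (pow_nonneg (le_of_lt hx) _), Complex.real_smul]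
  · exact (measurable_subtype_coe.pow_const _).real_toNNReal

/-- Dilations of the integral over `ℝ^n`. -/
lemma rep_dil {n : ℕ} (r : Fin n → ℝ) (hr : ∀ i, 0 < r i) (k : (Fin n → ℝ) → ℂ)
    (hk : Continuous k) :
    ∫ y, k y = ((∏ i, r i : ℝ) : ℂ) * ∫ z : Fin n → ℝ, k (fun i => r i * z i) := by
  classical
  have hdet : Matrix.det (Matrix.diagonal r) = ∏ i, r i := Matrix.det_diagonal
  have hpos : 0 < ∏ i, r i := Finset.prod_pos fun i _ => hr i
  have h := Real.smul_map_diagonal_volume_pi (D := r) (by rw [hdet]; exact hpos.ne')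
  rw [hdet, abs_of_pos hpos] at h
  have h1 : ∫ y, k y = ∫ y, k y ∂(ENNReal.ofReal (∏ i, r i) •
      Measure.map (Matrix.toLin' (Matrix.diagonal r)) volume) := by rw [h]
  rw [h1, integral_smul_measure, integral_map]
  · rw [ENNReal.toReal_ofReal hpos.le, Complex.real_smul]
    congr 1
    refine integral_congr_ae (Filter.Eventually.of_forall fun z => ?_)
    simp only
    congr 1
    funext i
    simp [Matrix.mulVec_diagonal]
  · exact (LinearMap.continuous_on_pi _).measurable.aemeasurable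
  · exact hk.aestronglyMeasurable

lemma continuous_dil {n : ℕ} (r : Fin n → ℝ) : Continuous (dil r : E n → E n) := by
  unfold dil
  exact (PiLp.continuous_toLp 2 _).comp (continuous_pi fun i => by fun_prop)

/-- the function `z ↦ g (x - r z)` has compact support -/
lemma rep_supp {n : ℕ} (r : Fin n → ℝ) (hr : ∀ i, 0 < r i) (g : E n → ℂ)
    (hg : HasCompactSupport g) (x : E n) : ∃ R : ℝ, 0 < R ∧ ∀ z : E n, R < ‖z‖ →
      g (x - dil r z) = 0 := by
  obtain ⟨B, hB⟩ := hg.isCompact.isBounded.exists_norm_le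
  rcases Nat.eq_zero_or_pos n with rfl | hn
  · refine ⟨1, one_pos, fun z hz => ?_⟩
    have : z = 0 := Subsingleton.elim _ _
    rw [this, norm_zero] at hz
    linarith
  have : Nonempty (Fin n) := ⟨⟨0, hn⟩⟩
  obtain ⟨i₀, hi₀⟩ := Finite.exists_min r
  have h0 := hr i₀
  refine ⟨(|B| + ‖x‖ + 1) / r i₀, by positivity, fun z hz => ?_⟩
  by_contra hne
  have h1 : x - dil r z ∈ tsupport g := subset_tsupport _ hne
  have h2 := hB _ h1
  have h3 : r i₀ * ‖z‖ ≤ ‖dil r z‖ := by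
    rw [EuclideanSpace.norm_eq, EuclideanSpace.norm_eq]
    have h4 : r i₀ * √(∑ i, ‖z i‖ ^ 2) = √(∑ i, r i₀ ^ 2 * ‖z i‖ ^ 2) := by
      rw [← Finset.mul_sum, Real.sqrt_mul (sq_nonneg _), Real.sqrt_sq h0.le]
    rw [h4]
    apply Real.sqrt_le_sqrt
    refine Finset.sum_le_sum fun i _ => ?_
    simp only [dil, norm_mul, mul_pow, Real.norm_eq_abs, sq_abs]
    gcongr
    exact hi₀ i
  have h4 : ‖dil r z‖ ≤ ‖x‖ + ‖x - dil r z‖ := by
    calc ‖dil r z‖ = ‖x - (x - dil r z)‖ := by congr 1; abel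
      _ ≤ _ := norm_sub_le _ _
  rw [div_lt_iff₀ h0] at hz
  have := le_abs_self B
  linarith

/-- the spherical means of `z ↦ g (x - r z)` -/
noncomputable def sphm {n : ℕ} (r : Fin n → ℝ) (g : E n → ℂ) (x : E n) (ρ : ℝ) : ℂ :=
  ∫ ω : Metric.sphere (0 : E n) 1, g (x - dil r (ρ • (ω : E n)))
    ∂(volume : Measure (E n)).toSphere

lemma continuous_sphm {n : ℕ} (r : Fin n → ℝ) (g : E n → ℂ) (hg : Cc g) (x : E n) :
    Continuous (sphm r g x) := by
  obtain ⟨B, hB⟩ := hg.1.bounded_above_of_compact_support hg.2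
  unfold sphm
  have hc : Continuous fun p : ℝ × Metric.sphere (0 : E n) 1 =>
      g (x - dil r (p.1 • (p.2 : E n))) :=
    hg.1.comp (continuous_const.sub ((continuous_dil r).comp
      (continuous_fst.smul (continuous_subtype_val.comp continuous_snd))))
  refine continuous_of_dominated (bound := fun _ => B) (fun ρ => ?_) (fun ρ => ?_) ?_ ?_
  · exact (hc.comp (Continuous.prodMk_right ρ)).aestronglyMeasurable
  · exact Filter.Eventually.of_forall fun ω => hB _
  · exact integrable_const _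
  · exact Filter.Eventually.of_forall fun ω => hc.comp (Continuous.prodMk_left ω)

lemma sphm_eq_zero {n : ℕ} (r : Fin n → ℝ) (g : E n → ℂ) (x : E n) {R : ℝ} (hR0 : 0 < R)
    (hR : ∀ z : E n, R < ‖z‖ → g (x - dil r z) = 0) {ρ : ℝ} (hρ : R < ρ) : sphm r g x ρ = 0 := by
  unfold sphm
  have : ∀ ω : Metric.sphere (0 : E n) 1, g (x - dil r (ρ • (ω : E n))) = 0 := by
    intro ω
    apply hR
    have h1 : ‖(ω : E n)‖ = 1 := by simp
    rw [norm_smul, h1, mul_one, Real.norm_eq_abs, abs_of_pos (by linarith)]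
    exact hρ
  simp [this]

/-- The operator with a product of complex Gaussians in polar coordinates. -/
lemma rep_gop {n : ℕ} (hn : 1 ≤ n) (g : E n → ℂ) (hg : Cc g) (r : Fin n → ℝ) (s : ℝ)
    (hr : ∀ i, 0 < r i) (hs : 0 < s) (x : E n) (τ : ℝ) :
    gop (fun i => ker τ (r i / s)) (fun y => g (WithLp.toLp 2 y)) (WithLp.ofLp x) =
      ((s ^ n : ℝ) : ℂ) * ∫ ρ in Ioi (0 : ℝ), ((ρ ^ (n - 1) : ℝ) : ℂ) *
        (Complex.exp (-mu τ * ((s ^ 2 * ρ ^ 2 : ℝ) : ℂ)) * sphm r g x ρ) := by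
  have hgc := hg.1
  have hkc : ∀ t : ℝ, Continuous (ker τ t) := by
    intro t
    unfold ker
    fun_prop
  have hc : Continuous fun y : Fin n → ℝ => (∏ i, ker τ (r i / s) (y i)) *
      g (WithLp.toLp 2 (WithLp.ofLp x - y)) := by
    refine Continuous.mul ?_ ?_
    · exact continuous_finsetProd _ fun i _ => (hkc _).comp (continuous_apply i)
    · exact hgc.comp ((PiLp.continuous_toLp 2 _).comp (continuous_const.sub continuous_id))
  unfold gop
  rw [rep_dil r hr _ hc]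
  have hprod0 : (∏ i, (r i : ℂ)) ≠ 0 := Finset.prod_ne_zero_iff.2 fun i _ => by
    exact_mod_cast (hr i).ne'
  have h1 : ∀ z : Fin n → ℝ, (∏ i, ker τ (r i / s) (r i * z i)) *
      g (WithLp.toLp 2 (WithLp.ofLp x - fun i => r i * z i)) =
      (∏ i, (r i : ℂ))⁻¹ * ((s ^ n : ℝ) : ℂ) *
        (Complex.exp (-mu τ * ((s ^ 2 * ‖(WithLp.toLp 2 z : E n)‖ ^ 2 : ℝ) : ℂ)) *
          g (x - dil r (WithLp.toLp 2 z))) := by
    intro z
    have h2 : ∀ i, ker τ (r i / s) (r i * z i) =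
        ((r i : ℂ)⁻¹ * (s : ℂ)) * Complex.exp (-mu τ * ((s ^ 2 * z i ^ 2 : ℝ) : ℂ)) := by
      intro i
      have hri : (r i : ℂ) ≠ 0 := by exact_mod_cast (hr i).ne'
      have hsi : (s : ℂ) ≠ 0 := by exact_mod_cast hs.ne'
      unfold ker
      have h3 : r i * z i / (r i / s) = s * z i := by
        have := (hr i).ne'
        field_simp
      rw [h3]
      push_cast
      congr 1
      · field_simp
      · congr 1
        ring
    have h3 : g (WithLp.toLp 2 (WithLp.ofLp x - fun i => r i * z i)) =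
        g (x - dil r (WithLp.toLp 2 z)) := rfl
    rw [h3, Finset.prod_congr rfl fun i _ => h2 i, Finset.prod_mul_distrib,
      Finset.prod_mul_distrib, ← Complex.exp_sum, Finset.prod_inv_distrib, Finset.prod_const,
      Finset.card_univ, Fintype.card_fin, EuclideanSpace.norm_sq_eq]
    simp only [Real.norm_eq_abs, sq_abs]
    rw [← Finset.mul_sum, ← Complex.ofReal_sum, ← Finset.mul_sum]
    push_cast
    ring
  simp only [h1]
  rw [integral_const_mul]
  have h4 : ∫ z : Fin n → ℝ, Complex.exp (-mu τ * ((s ^ 2 * ‖(WithLp.toLp 2 z : E n)‖ ^ 2 : ℝ) : ℂ))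
        * g (x - dil r (WithLp.toLp 2 z)) =
      ∫ z : E n, Complex.exp (-mu τ * ((s ^ 2 * ‖z‖ ^ 2 : ℝ) : ℂ)) * g (x - dil r z) :=
    (PiLp.volume_preserving_toLp (Fin n)).integral_comp
      (MeasurableEquiv.toLp 2 (Fin n → ℝ)).measurableEmbedding
      (fun z : E n => Complex.exp (-mu τ * ((s ^ 2 * ‖z‖ ^ 2 : ℝ) : ℂ)) * g (x - dil r z))
  rw [h4]
  obtain ⟨R, hR0, hR⟩ := rep_supp r hr g hg.2 x
  have hint : Integrable fun z : E n =>
      Complex.exp (-mu τ * ((s ^ 2 * ‖z‖ ^ 2 : ℝ) : ℂ)) * g (x - dil r z) := by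
    apply Continuous.integrable_of_hasCompactSupport
    · refine Continuous.mul (by fun_prop) ?_
      exact hgc.comp (continuous_const.sub (continuous_dil r))
    · refine HasCompactSupport.intro (isCompact_closedBall (0 : E n) R) fun z hz => ?_
      rw [Metric.mem_closedBall, dist_zero_right, not_le] at hz
      rw [hR z hz, mul_zero]
  rw [rep_polar hn _ hint]
  push_cast
  rw [← mul_assoc, ← mul_assoc, mul_inv_cancel₀ hprod0, one_mul]
  congr 1
  refine setIntegral_congr_fun measurableSet_Ioi fun ρ hρ ↦ ?_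
  have hρ' : 0 < ρ := hρ
  congr 1
  have h5 : ∀ ω : Metric.sphere (0 : E n) 1, Complex.exp (-mu τ * ((s : ℂ) ^ 2 *
      (‖ρ • (ω : E n)‖ : ℂ) ^ 2)) * g (x - dil r (ρ • (ω : E n))) =
      Complex.exp (-mu τ * ((s : ℂ) ^ 2 * (ρ : ℂ) ^ 2)) * g (x - dil r (ρ • (ω : E n))) := by
    intro ω
    have h6 : ‖(ω : E n)‖ = 1 := by simp
    have h7 : ‖ρ • (ω : E n)‖ = ρ := by
      rw [norm_smul, h6, mul_one, Real.norm_eq_abs, abs_of_pos hρ']
    rw [h7]
  simp only [h5]
  rw [integral_const_mul]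
  rfl

/-- the density on the half line -/
noncomputable def dens {n : ℕ} (r : Fin n → ℝ) (g : E n → ℂ) (x : E n) (s q : ℝ) : ℂ :=
  ((√q ^ (n - 2) / 2 * Real.exp (-q) : ℝ) : ℂ) * sphm r g x (√q / s)

lemma continuous_dens {n : ℕ} (r : Fin n → ℝ) (g : E n → ℂ) (hg : Cc g) (x : E n) (s : ℝ) :
    Continuous (dens r g x s) := by
  unfold dens
  refine Continuous.mul (by fun_prop) ?_
  exact (continuous_sphm r g hg x).comp (by fun_prop)

/-- The Fourier transform of the density. -/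
lemma fourier_dens {n : ℕ} (hn : 2 ≤ n) (g : E n → ℂ) (r : Fin n → ℝ) (s : ℝ)
    (hs : 0 < s) (x : E n) (w : ℝ) :
    𝓕 (indicator (Ioi 0) (dens r g x s)) w =
      ((s ^ n : ℝ) : ℂ) * ∫ ρ in Ioi (0 : ℝ), ((ρ ^ (n - 1) : ℝ) : ℂ) *
        (Complex.exp (-mu (2 * Real.pi * w) * ((s ^ 2 * ρ ^ 2 : ℝ) : ℂ)) * sphm r g x ρ) := by
  rw [Real.fourier_real_eq_integral_exp_smul]
  have h1 : ∀ v : ℝ, Complex.exp (↑(-2 * Real.pi * v * w) * Complex.I) •
      indicator (Ioi 0) (dens r g x s) v =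
      indicator (Ioi 0) (fun v => Complex.exp (↑(-2 * Real.pi * v * w) * Complex.I) *
        dens r g x s v) v := by
    intro v
    by_cases hv : v ∈ Ioi (0 : ℝ)
    · rw [indicator_of_mem hv, indicator_of_mem hv, smul_eq_mul]
    · rw [indicator_of_notMem hv, indicator_of_notMem hv, smul_zero]
  simp only [h1]
  rw [integral_indicator measurableSet_Ioi]
  have himg : (fun ρ : ℝ => s ^ 2 * ρ ^ 2) '' Ioi 0 = Ioi 0 := by
    ext q
    constructor
    · rintro ⟨ρ, hρ, rfl⟩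
      have hρ' : 0 < ρ := hρ
      show 0 < s ^ 2 * ρ ^ 2
      positivity
    · intro hq
      have hq' : 0 < q := hq
      refine ⟨√q / s, ?_, ?_⟩
      · show 0 < √q / s
        positivity
      · simp only
        rw [div_pow, Real.sq_sqrt hq'.le]
        field_simp
  have h2 := integral_image_eq_integral_abs_deriv_smul (f := fun ρ : ℝ => s ^ 2 * ρ ^ 2)
    (f' := fun ρ : ℝ => s ^ 2 * (2 * ρ)) (s := Ioi (0 : ℝ)) measurableSet_Ioi
    (fun ρ _ => by
      have := ((hasDerivAt_pow 2 ρ).const_mul (s ^ 2)).hasDerivWithinAt (s := Ioi (0 : ℝ))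
      simpa using this)
    (by
      intro a ha b hb hab
      have ha' : 0 < a := ha
      have hb' : 0 < b := hb
      have h3 : s ^ 2 ≠ 0 := by positivity
      have h4 : a ^ 2 = b ^ 2 := mul_left_cancel₀ h3 hab
      exact (pow_left_inj₀ ha'.le hb'.le two_ne_zero).1 h4)
    (fun v => Complex.exp (↑(-2 * Real.pi * v * w) * Complex.I) * dens r g x s v)
  rw [himg] at h2
  rw [h2, ← integral_const_mul]
  refine setIntegral_congr_fun measurableSet_Ioi fun ρ hρ ↦ ?_
  have hρ' : 0 < ρ := hρ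
  have hsq : √(s ^ 2 * ρ ^ 2) = s * ρ := by
    rw [← mul_pow, Real.sqrt_sq (by positivity)]
  have h5 : |s ^ 2 * (2 * ρ)| = s ^ 2 * (2 * ρ) := abs_of_pos (by positivity)
  simp only [dens]
  rw [h5, hsq, Complex.real_smul]
  have h6 : s * ρ / s = ρ := by field_simp
  rw [h6]
  obtain ⟨m, rfl⟩ : ∃ m, n = m + 2 := ⟨n - 2, by omega⟩
  have h7 : Complex.exp (-mu (2 * Real.pi * w) * ((s ^ 2 * ρ ^ 2 : ℝ) : ℂ)) =
      Complex.exp (((-2 * Real.pi * (s ^ 2 * ρ ^ 2) * w : ℝ) : ℂ) * Complex.I) *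
        Complex.exp (((-(s ^ 2 * ρ ^ 2) : ℝ)) : ℂ) := by
    rw [← Complex.exp_add]
    congr 1
    unfold mu
    push_cast
    ring
  rw [h7]
  rw [show m + 2 - 1 = m + 1 by omega, show m + 2 - 2 = m by omega]
  push_cast
  ring

lemma integrable_dens {n : ℕ} (r : Fin n → ℝ) (g : E n → ℂ) (hg : Cc g) (hr : ∀ i, 0 < r i)
    (x : E n) (s : ℝ) (hs : 0 < s) : Integrable (indicator (Ioi 0) (dens r g x s)) := by
  obtain ⟨R, hR0, hR⟩ := rep_supp r hr g hg.2 x
  rw [integrable_indicator_iff measurableSet_Ioi]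
  have hc := continuous_dens r g hg x s
  have h1 : IntegrableOn (dens r g x s) (Ioc 0 ((s * R) ^ 2)) :=
    (hc.integrableOn_Icc (a := 0) (b := (s * R) ^ 2)).mono_set Ioc_subset_Icc_self
  have h2 : IntegrableOn (dens r g x s) (Ioi ((s * R) ^ 2)) := by
    refine IntegrableOn.congr_fun (f := fun _ => (0 : ℂ)) integrableOn_zero (fun q hq => ?_)
      measurableSet_Ioi
    have hq' : (s * R) ^ 2 < q := hq
    have h3 : R < √q / s := by
      rw [lt_div_iff₀ hs, mul_comm R s]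
      exact Real.lt_sqrt_of_sq_lt hq'
    simp only [dens]
    rw [sphm_eq_zero r g x hR0 hR h3, mul_zero]
  have h3 : Ioi (0 : ℝ) = Ioc 0 ((s * R) ^ 2) ∪ Ioi ((s * R) ^ 2) := by
    rw [Ioc_union_Ioi_eq_Ioi (by positivity)]
  rw [h3]
  exact h1.union h2

theorem specRep : SpecRep := by
  intro n hn
  set σ : ℝ := ((volume : Measure (E n)).toSphere).real univ with hσ
  have : Nonempty (Fin n) := ⟨⟨0, by omega⟩⟩
  have : Nontrivial (E n) := inferInstance
  have hσ0 : 0 < σ := by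
    rw [hσ, measureReal_def]
    apply ENNReal.toReal_pos
    · rw [Ne, Measure.measure_univ_eq_zero]
      exact Measure.toSphere_ne_zero _
    · exact measure_ne_top _ _
  set C : ℝ := Real.exp 4 / (Real.pi * σ) with hC
  have hC0 : 0 < C := by positivity
  refine ⟨C.toNNReal, ?_⟩
  intro g hg r s hr hs1 hs2 x
  have hs : 0 < s := by linarith
  set H : ℝ → ℂ := fun τ => gop (fun i => ker τ (r i / s)) (fun y => g (WithLp.toLp 2 y))
    (WithLp.ofLp x) with hH
  set f : ℝ → ℂ := indicator (Ioi 0) (dens r g x s) with hf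
  have hfi : Integrable f := integrable_dens r g hg hr x s hs
  have hFH : ∀ w : ℝ, 𝓕 f w = H (2 * Real.pi * w) := by
    intro w
    rw [hf, fourier_dens hn g r s hs x w, hH]
    simp only
    rw [rep_gop (by omega) g hg r s hr hs x]
  have hFc : Continuous (𝓕 f) :=
    VectorFourier.fourierIntegral_continuous Real.continuous_fourierChar
      (by exact continuous_inner) hfi
  have hHc : Continuous H := by
    have h1 : H = fun τ => 𝓕 f (τ / (2 * Real.pi)) := by
      funext τ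
      rw [hFH]
      congr 1
      field_simp
    rw [h1]
    exact hFc.comp (by fun_prop)
  by_cases hA : ∫⁻ τ, ‖H τ‖ₑ = ∞
  · rw [hA, ENNReal.mul_top]
    · exact le_top
    · simpa using hC0
  have hHi : Integrable H := ⟨hHc.aestronglyMeasurable, lt_top_iff_ne_top.2 hA⟩
  have hFi : Integrable (𝓕 f) := by
    have h1 : 𝓕 f = fun w => H (2 * Real.pi * w) := funext hFH
    rw [h1]
    exact hHi.comp_mul_left' (by positivity)
  have hq : (0 : ℝ) < s ^ 2 := by positivity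
  have hcont : ContinuousAt f (s ^ 2) := by
    have h1 : f =ᶠ[nhds (s ^ 2)] dens r g x s := by
      filter_upwards [Ioi_mem_nhds hq] with q hq'
      rw [hf, indicator_of_mem hq']
    exact (continuous_dens r g hg x s).continuousAt.congr h1.symm
  have hinv := hfi.fourierInv_fourier_eq hFi hcont
  have h1 : ‖f (s ^ 2)‖ ≤ ∫ w, ‖𝓕 f w‖ := by
    rw [← hinv, Real.fourierInv_eq]
    refine (norm_integral_le_integral_norm _).trans (le_of_eq ?_)
    refine integral_congr_ae (Filter.Eventually.of_forall fun w => ?_)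
    simp only [Circle.norm_smul]
  have h2 : ∫ w, ‖𝓕 f w‖ = (2 * Real.pi)⁻¹ * ∫ τ, ‖H τ‖ := by
    simp only [hFH]
    rw [Measure.integral_comp_mul_left (fun τ => ‖H τ‖) (2 * Real.pi)]
    rw [abs_of_pos (by positivity), smul_eq_mul]
  have h3 : f (s ^ 2) = ((s ^ (n - 2) / 2 * Real.exp (-s ^ 2) : ℝ) : ℂ) * sphm r g x 1 := by
    rw [hf, indicator_of_mem (show s ^ 2 ∈ Ioi (0 : ℝ) from hq)]
    simp only [dens]
    rw [Real.sqrt_sq hs.le, div_self hs.ne']
  have h4 : ellMean r g x = (σ : ℂ)⁻¹ * sphm r g x 1 := by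
    unfold ellMean sphm
    rw [average_eq]
    rw [← hσ, Complex.real_smul]
    push_cast
    simp only [one_smul]
  have h5 : Real.exp (-4) / 2 ≤ s ^ (n - 2) / 2 * Real.exp (-s ^ 2) := by
    have h6 : (1 : ℝ) ≤ s ^ (n - 2) := one_le_pow₀ hs1
    have h7 : Real.exp (-4) ≤ Real.exp (-s ^ 2) := by
      apply Real.exp_le_exp.2
      nlinarith
    calc Real.exp (-4) / 2 = 1 / 2 * Real.exp (-4) := by ring
      _ ≤ s ^ (n - 2) / 2 * Real.exp (-s ^ 2) := by gcongr
  have h6 : Real.exp (-4) / 2 * ‖sphm r g x 1‖ ≤ (2 * Real.pi)⁻¹ * ∫ τ, ‖H τ‖ := by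
    rw [← h2]
    refine le_trans ?_ h1
    rw [h3, norm_mul, Complex.norm_real, Real.norm_eq_abs, abs_of_pos (by positivity)]
    gcongr
  have h7 : ‖ellMean r g x‖ ≤ C * ∫ τ, ‖H τ‖ := by
    rw [h4, norm_mul, norm_inv, Complex.norm_real, Real.norm_eq_abs, abs_of_pos hσ0]
    have h8 : ‖sphm r g x 1‖ ≤ Real.exp 4 / Real.pi * ∫ τ, ‖H τ‖ := by
      have h9 : Real.exp (-4) = (Real.exp 4)⁻¹ := Real.exp_neg 4
      rw [h9] at h6
      have h10 : 0 < Real.exp 4 := Real.exp_pos 4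
      calc ‖sphm r g x 1‖ = (2 * Real.exp 4) * ((Real.exp 4)⁻¹ / 2 * ‖sphm r g x 1‖) := by
            field_simp
        _ ≤ (2 * Real.exp 4) * ((2 * Real.pi)⁻¹ * ∫ τ, ‖H τ‖) := by gcongr
        _ = _ := by field_simp
    calc σ⁻¹ * ‖sphm r g x 1‖ ≤ σ⁻¹ * (Real.exp 4 / Real.pi * ∫ τ, ‖H τ‖) := by gcongr
      _ = _ := by rw [hC]; field_simp
  have h8 : ∫⁻ τ, ‖H τ‖ₑ = ENNReal.ofReal (∫ τ, ‖H τ‖) :=
    (ofReal_integral_norm_eq_lintegral_enorm hHi).symm
  have h9 : ((C.toNNReal : ℝ≥0) : ℝ≥0∞) = ENNReal.ofReal C := rfl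
  rw [h8, ← ofReal_norm, h9, ← ENNReal.ofReal_mul hC0.le]
  exact ENNReal.ofReal_le_ofReal h7

end Pool.Agent.MP_bb1b7e
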