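import Pool.Agent.Lib.MP_bb1b7e_an.Spec

/-!
# Modules SM and LQ: the strong maximal theorem for Gaussian averages
-/

namespace Pool.Agent.MP_bb1b7e

open MeasureTheory
open scoped ENNReal NNReal

namespace SM

/-- The Gaussian weight at scale `s`. -/
noncomputable def ph (s y : ℝ) : ℝ≥0∞ := ENNReal.ofReal (s⁻¹ * Real.exp (-(y / s) ^ 2))

lemma ph_real_nonneg {s : ℝ} (hs : 0 < s) (y : ℝ) : 0 ≤ s⁻¹ * Real.exp (-(y / s) ^ 2) := by
  positivity

lemma measurable_ph (s : ℝ) : Measurable (ph s) := by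
  unfold ph
  fun_prop

lemma gav_eq {ι : Type} [Fintype ι] (s : ι → ℝ) (hs : ∀ i, 0 < s i) (Φ : (ι → ℝ) → ℝ≥0∞)
    (x : ι → ℝ) : gav s Φ x = ∫⁻ y : ι → ℝ, (∏ i, ph (s i) (y i)) * Φ (x - y) := by
  unfold gav ph
  refine lintegral_congr fun y => ?_
  rw [ENNReal.ofReal_prod_of_nonneg fun i _ => ph_real_nonneg (hs i) (y i)]

lemma measurable_gavJ {ι : Type} [Fintype ι] {Y : Type} [MeasurableSpace Y] (s : ι → ℝ)
    (hs : ∀ i, 0 < s i) (Φ : Y → (ι → ℝ) → ℝ≥0∞) (hΦ : Measurable (Function.uncurry Φ)) :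
    Measurable fun p : Y × (ι → ℝ) => gav s (Φ p.1) p.2 := by
  simp only [gav_eq s hs]
  refine Measurable.lintegral_prod_right' (f := fun q : (Y × (ι → ℝ)) × (ι → ℝ) =>
    (∏ i, ph (s i) (q.2 i)) * Φ q.1.1 (q.1.2 - q.2)) ?_
  refine Measurable.mul ?_ ?_
  · refine Finset.measurable_prod _ fun i _ => ?_
    exact (measurable_ph (s i)).comp ((measurable_pi_apply i).comp measurable_snd)
  · exact hΦ.comp ((measurable_fst.comp measurable_fst).prodMk
      ((measurable_snd.comp measurable_fst).sub measurable_snd))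

lemma measurable_gav {ι : Type} [Fintype ι] (s : ι → ℝ)
    (hs : ∀ i, 0 < s i) (Φ : (ι → ℝ) → ℝ≥0∞) (hΦ : Measurable Φ) : Measurable (gav s Φ) := by
  have h := measurable_gavJ (Y := Unit) s hs (fun _ => Φ) (hΦ.comp measurable_snd)
  exact h.comp (g := fun p : Unit × (ι → ℝ) => gav s Φ p.2) (f := fun x : ι → ℝ => ((), x))
    (measurable_const.prodMk measurable_id)

lemma measurable_cons {n : ℕ} :
    Measurable fun p : ℝ × (Fin n → ℝ) => (Fin.cons p.1 p.2 : Fin (n + 1) → ℝ) := by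
  refine measurable_pi_lambda _ fun i => ?_
  refine Fin.cases ?_ (fun j => ?_) i
  · simpa using measurable_fst
  · simp only [Fin.cons_succ]
    exact (measurable_pi_apply j).comp measurable_snd

/-- Integration over `ℝ^(n+1)`. -/
lemma lintegral_succ {n : ℕ} (F : (Fin (n + 1) → ℝ) → ℝ≥0∞) (hF : Measurable F) :
    ∫⁻ y, F y = ∫⁻ u : ℝ, ∫⁻ v : Fin n → ℝ, F (Fin.cons u v) := by
  have hmp := volume_preserving_piFinSuccAbove (fun _ : Fin (n + 1) => ℝ) 0
  have h1 := hmp.symm.lintegral_comp hF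
  have h2 : ∀ p : ℝ × (Fin n → ℝ),
      (MeasurableEquiv.piFinSuccAbove (fun _ : Fin (n + 1) => ℝ) 0).symm p
        = (Fin.cons p.1 p.2 : Fin (n + 1) → ℝ) := by
    intro p
    simp [MeasurableEquiv.piFinSuccAbove, Fin.consEquiv, Fin.insertNthEquiv]
  rw [← h1]
  simp only [h2]
  rw [MeasureTheory.Measure.volume_eq_prod, lintegral_prod]
  exact (hF.comp measurable_cons).aemeasurable

lemma sub_cons {n : ℕ} (a b : ℝ) (x y : Fin n → ℝ) :
    (Fin.cons a x : Fin (n + 1) → ℝ) - Fin.cons b y = Fin.cons (a - b) (x - y) := by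
  ext i
  refine Fin.cases ?_ (fun j => ?_) i
  · simp
  · simp

lemma gav_cons {n : ℕ} (s : Fin (n + 1) → ℝ) (hs : ∀ i, 0 < s i)
    (Φ : (Fin (n + 1) → ℝ) → ℝ≥0∞) (hΦ : Measurable Φ) (x₀ : ℝ) (x : Fin n → ℝ) :
    gav s Φ (Fin.cons x₀ x)
      = ∫⁻ u, ph (s 0) u * gav (fun i => s i.succ) (fun z => Φ (Fin.cons (x₀ - u) z)) x := by
  rw [gav_eq s hs, lintegral_succ]
  · refine lintegral_congr fun u => ?_
    rw [gav_eq (fun i : Fin n => s i.succ) (fun i => hs i.succ), ← lintegral_const_mul]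
    · refine lintegral_congr fun v => ?_
      rw [Fin.prod_univ_succ, sub_cons]
      simp only [Fin.cons_zero, Fin.cons_succ]
      rw [mul_assoc]
    · refine Measurable.mul ?_ ?_
      · refine Finset.measurable_prod _ fun i _ => ?_
        exact (measurable_ph _).comp (measurable_pi_apply i)
      · exact hΦ.comp (measurable_cons.comp (measurable_const.prodMk
          (measurable_const.sub measurable_id)))
  · refine Measurable.mul ?_ ?_
    · refine Finset.measurable_prod _ fun i _ => ?_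
      exact (measurable_ph _).comp (measurable_pi_apply i)
    · exact hΦ.comp (measurable_const.sub measurable_id)

theorem smFin (hHL : SpecHL) (q : ℝ) (hq : 1 < q) : ∀ n : ℕ, ∃ C : ℝ≥0,
    ∀ (A : Type) [Countable A] (s : A → Fin n → ℝ), (∀ a i, 0 < s a i) →
    ∀ Φ : (Fin n → ℝ) → ℝ≥0∞, Measurable Φ →
      ∫⁻ x, (⨆ a, gav (s a) Φ x) ^ q ≤ C * ∫⁻ x, Φ x ^ q := by
  intro n
  induction n with
  | zero =>
    refine ⟨1, fun A _ s hs Φ hΦ => ?_⟩
    rw [ENNReal.coe_one, one_mul]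
    refine lintegral_mono fun x => ?_
    refine ENNReal.rpow_le_rpow ?_ (by linarith)
    refine iSup_le fun a => ?_
    rw [gav_eq _ (hs a)]
    have h1 : ∀ y : Fin 0 → ℝ, (∏ i, ph (s a i) (y i)) * Φ (x - y) = Φ x := by
      intro y
      rw [Finset.univ_eq_empty, Finset.prod_empty, one_mul]
      congr 1
      exact Subsingleton.elim _ _
    simp only [h1]
    rw [lintegral_const]
    have h2 : (volume : Measure (Fin 0 → ℝ)) Set.univ = 1 := by
      rw [volume_pi, Measure.pi_of_empty (x := default)]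
      simp
    rw [h2, mul_one]
  | succ n ih =>
    obtain ⟨C₁, hC₁⟩ := ih
    obtain ⟨C₀, hC₀⟩ := hHL q hq
    refine ⟨C₀ * C₁, fun A _ s hs Φ hΦ => ?_⟩
    have hΦc : Measurable fun p : ℝ × (Fin n → ℝ) => Φ (Fin.cons p.1 p.2) :=
      hΦ.comp measurable_cons
    -- the inner maximal function
    set Ψ : ℝ → (Fin n → ℝ) → ℝ≥0∞ := fun y z =>
      ⨆ a, gav (fun i => s a i.succ) (fun w => Φ (Fin.cons y w)) z with hΨ
    have hΨm : Measurable (Function.uncurry Ψ) := by
      have : Function.uncurry Ψ = fun p : ℝ × (Fin n → ℝ) =>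
          ⨆ a, gav (fun i => s a i.succ) (fun w => Φ (Fin.cons p.1 w)) p.2 := rfl
      rw [this]
      refine Measurable.iSup fun a => ?_
      exact measurable_gavJ (fun i => s a i.succ) (fun i => hs a i.succ)
        (fun (y : ℝ) (w : Fin n → ℝ) => Φ (Fin.cons y w)) hΦc
    have hm : Measurable fun x => (⨆ a, gav (s a) Φ x) ^ q :=
      (Measurable.iSup fun a => measurable_gav (s a) (hs a) Φ hΦ).pow_const q
    rw [lintegral_succ _ hm]
    -- pointwise bound
    have hpt : ∀ (x₀ : ℝ) (x : Fin n → ℝ), (⨆ a, gav (s a) Φ (Fin.cons x₀ x))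
        ≤ ⨆ a, ∫⁻ u, ph (s a 0) u * Ψ (x₀ - u) x := by
      intro x₀ x
      refine iSup_mono fun a => ?_
      rw [gav_cons _ (hs a) _ hΦ]
      refine lintegral_mono fun u => ?_
      refine mul_le_mul_right (le_iSup (fun a => gav (fun i => s a i.succ)
        (fun w => Φ (Fin.cons (x₀ - u) w)) x) a) _
    calc ∫⁻ x₀ : ℝ, ∫⁻ x : Fin n → ℝ, (⨆ a, gav (s a) Φ (Fin.cons x₀ x)) ^ q
        ≤ ∫⁻ x₀ : ℝ, ∫⁻ x : Fin n → ℝ, (⨆ a, ∫⁻ u, ph (s a 0) u * Ψ (x₀ - u) x) ^ q := by
          refine lintegral_mono fun x₀ => lintegral_mono fun x => ?_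
          exact ENNReal.rpow_le_rpow (hpt x₀ x) (by linarith)
      _ = ∫⁻ x : Fin n → ℝ, ∫⁻ x₀ : ℝ, (⨆ a, ∫⁻ u, ph (s a 0) u * Ψ (x₀ - u) x) ^ q := by
          refine lintegral_lintegral_swap ?_
          refine Measurable.aemeasurable ?_
          refine Measurable.pow_const ?_ q
          refine Measurable.iSup fun a => ?_
          refine Measurable.lintegral_prod_right' (f := fun r : (ℝ × (Fin n → ℝ)) × ℝ =>
            ph (s a 0) r.2 * Ψ (r.1.1 - r.2) r.1.2) ?_
          refine Measurable.mul ((measurable_ph _).comp measurable_snd) ?_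
          exact hΨm.comp (((measurable_fst.comp measurable_fst).sub measurable_snd).prodMk
            (measurable_snd.comp measurable_fst))
      _ ≤ ∫⁻ x : Fin n → ℝ, C₀ * ∫⁻ x₀ : ℝ, Ψ x₀ x ^ q := by
          refine lintegral_mono fun x => ?_
          exact hC₀ A (fun a => s a 0) (fun a => hs a 0) (fun y => Ψ y x)
            (hΨm.comp (measurable_id.prodMk measurable_const))
      _ = C₀ * ∫⁻ x : Fin n → ℝ, ∫⁻ x₀ : ℝ, Ψ x₀ x ^ q := by
          rw [lintegral_const_mul]
          refine Measurable.lintegral_prod_right' (f := fun r : (Fin n → ℝ) × ℝ =>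
            Ψ r.2 r.1 ^ q) ?_
          exact (hΨm.comp (measurable_snd.prodMk measurable_fst)).pow_const q
      _ = C₀ * ∫⁻ x₀ : ℝ, ∫⁻ x : Fin n → ℝ, Ψ x₀ x ^ q := by
          rw [lintegral_lintegral_swap]
          exact ((hΨm.comp (measurable_snd.prodMk measurable_fst)).pow_const q).aemeasurable
      _ ≤ C₀ * ∫⁻ x₀ : ℝ, C₁ * ∫⁻ x : Fin n → ℝ, Φ (Fin.cons x₀ x) ^ q := by
          refine mul_le_mul_right (lintegral_mono fun x₀ => ?_) _
          exact hC₁ A (fun a i => s a i.succ) (fun a i => hs a i.succ)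
            (fun w => Φ (Fin.cons x₀ w)) (hΦc.comp (measurable_const.prodMk measurable_id))
      _ = (C₀ * C₁ : ℝ≥0) * ∫⁻ x, Φ x ^ q := by
          rw [lintegral_const_mul, lintegral_succ _ (hΦ.pow_const q), ← mul_assoc]
          · push_cast
            rfl
          · exact Measurable.lintegral_prod_right' (f := fun r : ℝ × (Fin n → ℝ) =>
              Φ (Fin.cons r.1 r.2) ^ q) (hΦc.pow_const q)

end SM

open SM in
/-- Module SM: the strong maximal theorem for Gaussian averages. -/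
theorem specSM (hHL : SpecHL) : SpecSM := by
  intro ι _ q hq
  obtain ⟨C, hC⟩ := smFin hHL q hq (Fintype.card ι)
  refine ⟨C, fun A _ s hs Φ hΦ => ?_⟩
  set e : Fin (Fintype.card ι) ≃ ι := (Fintype.equivFin ι).symm with he
  set m := MeasurableEquiv.piCongrLeft (fun _ : ι => ℝ) e with hm
  have hmp : MeasurePreserving m volume volume :=
    volume_measurePreserving_piCongrLeft (fun _ : ι => ℝ) e
  have hmi : ∀ (y : Fin (Fintype.card ι) → ℝ) (j : Fin (Fintype.card ι)), m y (e j) = y j := by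
    intro y j
    exact MeasurableEquiv.piCongrLeft_apply_apply (β := fun _ : ι => ℝ) e y j
  have hmsub : ∀ y z, m y - m z = m (y - z) := by
    intro y z
    ext i
    obtain ⟨j, rfl⟩ := e.surjective i
    rw [Pi.sub_apply, hmi, hmi, hmi, Pi.sub_apply]
  have hgav : ∀ a x, gav (s a) Φ (m x) = gav (fun j => s a (e j)) (fun z => Φ (m z)) x := by
    intro a x
    rw [gav_eq _ (hs a), gav_eq _ (fun j => hs a (e j))]
    have h1 : Measurable fun y : ι → ℝ => (∏ i, ph (s a i) (y i)) * Φ (m x - y) := by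
      refine Measurable.mul ?_ ?_
      · refine Finset.measurable_prod _ fun i _ => ?_
        exact (measurable_ph _).comp (measurable_pi_apply i)
      · exact hΦ.comp (measurable_const.sub measurable_id)
    rw [← hmp.lintegral_comp h1]
    refine lintegral_congr fun y => ?_
    rw [hmsub, ← Equiv.prod_comp e]
    simp only [hmi]
  have h1 : Measurable fun x => (⨆ a, gav (s a) Φ x) ^ q :=
    (Measurable.iSup fun a => measurable_gav (s a) (hs a) Φ hΦ).pow_const q
  rw [← hmp.lintegral_comp h1, ← hmp.lintegral_comp (hΦ.pow_const q)]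
  simp only [hgav]
  exact hC A (fun a j => s a (e j)) (fun a j => hs a (e j)) (fun z => Φ (m z))
    (hΦ.comp m.measurable)

lemma SM.norm_ker {τ t : ℝ} (ht : 0 < t) (y : ℝ) : ‖ker τ t y‖ₑ = SM.ph t y := by
  unfold ker SM.ph
  rw [← ofReal_norm, norm_mul, Complex.norm_exp, norm_inv, Complex.norm_real,
    Real.norm_eq_abs, abs_of_pos ht]
  congr 3
  have h1 : -mu τ * ((y / t : ℝ) : ℂ) ^ 2 = (((-(y / t) ^ 2 : ℝ) : ℂ))
      + ((-(τ * (y / t) ^ 2) : ℝ) : ℂ) * Complex.I := by
    unfold mu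
    push_cast
    ring
  rw [h1, Complex.add_re, Complex.ofReal_re, Complex.re_ofReal_mul, Complex.I_re, mul_zero,
    add_zero]

open SM in
/-- Module LQ. -/
theorem specLq (hSM : SpecSM) : SpecLq := by
  intro ι _ q hq
  obtain ⟨C, hC⟩ := hSM ι q hq
  refine ⟨C, fun τ A _ t ht g hg => ?_⟩
  have hgm : Measurable fun z => ‖g z‖ₑ := hg.1.measurable.enorm
  refine le_trans (lintegral_mono fun x => ?_) (hC A t ht (fun z => ‖g z‖ₑ) hgm)
  refine ENNReal.rpow_le_rpow (iSup_mono fun a => ?_) (by linarith)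
  rw [gav_eq _ (ht a)]
  unfold gop
  refine (enorm_integral_le_lintegral_enorm _).trans (le_of_eq ?_)
  refine lintegral_congr fun y => ?_
  rw [enorm_mul]
  congr 1
  rw [← ofReal_norm, norm_prod, ENNReal.ofReal_prod_of_nonneg fun i _ => norm_nonneg _]
  refine Finset.prod_congr rfl fun i _ => ?_
  rw [ofReal_norm, norm_ker (ht a i)]

end Pool.Agent.MP_bb1b7e
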