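import Pool.Agent.Lib.MP_bb1b7e_an.Defs

/-!
# The strong spherical maximal function: specifications of the modules

The paper proof of every module is in `/team-store/MP_bb1b7e_an_PROOF.md`.
-/

namespace Pool.Agent.MP_bb1b7e

open MeasureTheory
open scoped ENNReal NNReal

/-- Continuous functions with compact support. -/
def Cc {X Y : Type} [TopologicalSpace X] [TopologicalSpace Y] [Zero Y] (g : X → Y) : Prop :=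
  Continuous g ∧ HasCompactSupport g

/-- Non-negative continuous functions with compact support. -/
def CcP {X : Type} [TopologicalSpace X] (g : X → ℝ) : Prop := Cc g ∧ ∀ x, 0 ≤ g x

/-! ### Kernels -/

/-- `1 + iτ`. -/
noncomputable def mu (τ : ℝ) : ℂ := 1 + τ * Complex.I

/-- The complex Gaussian `t⁻¹ exp (-(1 + iτ) (y / t)²)`. -/
noncomputable def ker (τ t y : ℝ) : ℂ := (t : ℂ)⁻¹ * Complex.exp (-mu τ * ((y / t : ℝ) : ℂ) ^ 2)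

/-- Convolution with a product kernel on `ℝ^ι`. -/
noncomputable def gop {ι : Type} [Fintype ι] (φ : ι → ℝ → ℂ) (g : (ι → ℝ) → ℂ) (x : ι → ℝ) : ℂ :=
  ∫ y : ι → ℝ, (∏ i, φ i (y i)) * g (x - y)

/-- The heat kernel, with Fourier transform `exp (-c ξ²)`. -/
noncomputable def heat (c y : ℝ) : ℝ := (√(4 * Real.pi * c))⁻¹ * Real.exp (-(y ^ 2 / (4 * c)))

/-- Differences of heat kernels. -/
noncomputable def hd (c : ℝ) (M : ℕ) (k : ℤ) (y : ℝ) : ℂ :=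
  ((heat (c * 4 ^ k) y - heat (c * 4 ^ (k + M)) y : ℝ) : ℂ)

/-- The number `M` of scales: `|μ| ≤ 4 ^ M ≤ 8 |μ|`. -/
noncomputable def sc (τ : ℝ) : ℕ := Nat.clog 4 ⌈‖mu τ‖⌉₊

/-- The small time at scale `1`. -/
noncomputable def cc (τ : ℝ) : ℝ := 1 / (8 * ‖mu τ‖ ^ 2)

/-- Gaussian averages at the scales `s i`. -/
noncomputable def gav {ι : Type} [Fintype ι] (s : ι → ℝ) (Φ : (ι → ℝ) → ℝ≥0∞) (x : ι → ℝ) : ℝ≥0∞ :=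
  ∫⁻ y : ι → ℝ, ENNReal.ofReal (∏ i, (s i)⁻¹ * Real.exp (-(y i / s i) ^ 2)) * Φ (x - y)

/-! ### Module ONE: the decomposition in one variable -/

/-- `G t` is the kernel with `ker τ t = G t * heat a_k`, `k = ⌊log₂ t⌋`, `a_k = cc τ * 4 ^ k`. -/
structure Dec (C τ : ℝ) (G : ℝ → ℝ → ℂ) (K K' : ℤ → ℝ → ℝ≥0∞) : Prop where
  cont : ∀ t, 0 < t → Continuous (G t)
  bound : ∀ t, 0 < t → ∀ y, ‖G t y‖ ≤ C * t⁻¹ * Real.exp (-(y / t) ^ 2 / C)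
  ker_eq : ∀ t, 0 < t → ∀ y, ker τ t y = ∫ v, G t (y - v) * (heat (cc τ * 4 ^ Int.log 2 t) v : ℂ)
  low : ∀ t, 0 < t → ∀ y, ‖∫ v, G t (y - v) * (heat (cc τ * 4 ^ (Int.log 2 t + sc τ)) v : ℂ)‖
    ≤ C * t⁻¹ * Real.exp (-‖mu τ‖ * (y / t) ^ 2 / C)
  measK : ∀ k, Measurable (K k)
  intK : ∀ k, ∫⁻ w, K k w ≤ ENNReal.ofReal (C * ‖mu τ‖ ^ (-(1 / 2) : ℝ))
  corr : ∀ t t', 0 < t → 0 < t' → Int.log 2 t = Int.log 2 t' → ∀ w,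
    ‖∫ y, (starRingEnd ℂ) (G t y) * G t' (y + w)‖ₑ ≤ K (Int.log 2 t) w
  measK' : ∀ k, Measurable (K' k)
  intK' : ∀ k, ∫⁻ w, K' k w ≤ ENNReal.ofReal (C * ‖mu τ‖ ^ (-1 : ℝ))
  corr' : ∀ (k : ℤ) w,
    ‖∫ y, (starRingEnd ℂ) (G ((2 : ℝ) ^ k) y) * G ((2 : ℝ) ^ k) (y + w)‖ₑ ≤ K' k w

/-- Module ONE. -/
def SpecOne : Prop := ∃ C : ℝ, 1 ≤ C ∧ ∀ τ, ∃ G K K', Dec C τ G K K'

/-! ### Module HEAT: the square function -/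

/-- Module HEAT. -/
def SpecHeat : Prop := ∀ (ι : Type) [Fintype ι] (c : ℝ) (M : ℕ), 0 < c →
  ∀ g : (ι → ℝ) → ℂ, Cc g →
    ∑' κ : ι → ℤ, ∫⁻ x, ‖gop (fun i => hd c M (κ i)) g x‖ₑ ^ 2
      ≤ (M : ℝ≥0∞) ^ Fintype.card ι * ∫⁻ x, ‖g x‖ₑ ^ 2

/-! ### Module BL: the `T T*` lemma -/

/-- Module BL. -/
def SpecBL : Prop := ∀ (ι : Type) [Fintype ι] (A : Type) [Countable A]
  (Γ : A → (ι → ℝ) → ℂ) (D : (ι → ℝ) → ℝ) (K : (ι → ℝ) → ℝ≥0∞),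
  (∀ a, Continuous (Γ a)) → Integrable D → (∀ a y, ‖Γ a y‖ ≤ D y) → Measurable K →
  (∀ a a' w, ‖∫ y, (starRingEnd ℂ) (Γ a y) * Γ a' (y + w)‖ₑ ≤ K w) →
  ∀ f : (ι → ℝ) → ℂ, Continuous f → (∃ B : ℝ, ∀ x, ‖f x‖ ≤ B) → ∫⁻ x, ‖f x‖ₑ ^ 2 < ∞ →
    ∫⁻ x, (⨆ a, ‖∫ y, Γ a y * f (x - y)‖ₑ) ^ 2 ≤ (∫⁻ w, K w) * ∫⁻ x, ‖f x‖ₑ ^ 2

/-! ### Module DT: the part with cancellation -/

/-- The kernel `G t * (heat a_k - heat b_k)`. -/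
noncomputable def dker (τ : ℝ) (G : ℝ → ℝ → ℂ) (t y : ℝ) : ℂ :=
  ∫ v, G t (y - v) * hd (cc τ) (sc τ) (Int.log 2 t) v

open Classical in
/-- Module DT. For the coordinates in `F` the scales are powers of `2`. -/
def SpecDT : Prop := ∀ (C τ : ℝ) (G : ℝ → ℝ → ℂ) (K K' : ℤ → ℝ → ℝ≥0∞), 1 ≤ C →
  Dec C τ G K K' → ∀ (ι : Type) [Fintype ι] (F : Set ι) (A : Type) [Countable A] (t : A → ι → ℝ),
  (∀ a i, 0 < t a i) → (∀ a, ∀ i ∈ F, ∃ k : ℤ, t a i = 2 ^ k) → ∀ g : (ι → ℝ) → ℂ, Cc g →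
    ∫⁻ x, (⨆ a, ‖gop (fun i => dker τ G (t a i)) g x‖ₑ) ^ 2
      ≤ (sc τ : ℝ≥0∞) ^ Fintype.card ι *
        (∏ i, ENNReal.ofReal (C * ‖mu τ‖ ^ (if i ∈ F then (-1 : ℝ) else -(1 / 2)))) *
        ∫⁻ x, ‖g x‖ₑ ^ 2

/-! ### Modules HL and SM: maximal functions of Gaussian averages -/

/-- Module HL: the Hardy-Littlewood maximal theorem on the line, for Gaussian averages. -/
def SpecHL : Prop := ∀ q : ℝ, 1 < q → ∃ C : ℝ≥0, ∀ (A : Type) [Countable A] (s : A → ℝ),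
  (∀ a, 0 < s a) → ∀ Φ : ℝ → ℝ≥0∞, Measurable Φ →
    ∫⁻ x, (⨆ a, ∫⁻ y, ENNReal.ofReal ((s a)⁻¹ * Real.exp (-(y / s a) ^ 2)) * Φ (x - y)) ^ q
      ≤ C * ∫⁻ x, Φ x ^ q

/-- Module SM: the strong maximal theorem. -/
def SpecSM : Prop := ∀ (ι : Type) [Fintype ι] (q : ℝ), 1 < q → ∃ C : ℝ≥0,
  ∀ (A : Type) [Countable A] (s : A → ι → ℝ), (∀ a i, 0 < s a i) →
  ∀ Φ : (ι → ℝ) → ℝ≥0∞, Measurable Φ →
    ∫⁻ x, (⨆ a, gav (s a) Φ x) ^ q ≤ C * ∫⁻ x, Φ x ^ q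

/-! ### Modules L2 and LQ -/

/-- Module L2. The first scale is a power of `2`; the dimension is `m + 1`. -/
def SpecL2 : Prop := ∀ m : ℕ, ∃ C : ℝ, 0 < C ∧ ∀ (τ : ℝ) (A : Type) [Countable A]
  (t : A → Fin (m + 1) → ℝ), (∀ a i, 0 < t a i) → (∀ a, ∃ k : ℤ, t a 0 = 2 ^ k) →
  ∀ g : (Fin (m + 1) → ℝ) → ℂ, Cc g →
    ∫⁻ x, (⨆ a, ‖gop (fun i => ker τ (t a i)) g x‖ₑ) ^ 2
      ≤ ENNReal.ofReal (C * ‖mu τ‖ ^ (-((m : ℝ) + 2) / 2) * ((sc τ : ℝ) + 1) ^ (m + 1)) *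
        ∫⁻ x, ‖g x‖ₑ ^ 2

/-- Module LQ. -/
def SpecLq : Prop := ∀ (ι : Type) [Fintype ι] (q : ℝ), 1 < q → ∃ C : ℝ≥0,
  ∀ (τ : ℝ) (A : Type) [Countable A] (t : A → ι → ℝ), (∀ a i, 0 < t a i) →
  ∀ g : (ι → ℝ) → ℂ, Cc g →
    ∫⁻ x, (⨆ a, ‖gop (fun i => ker τ (t a i)) g x‖ₑ) ^ q ≤ C * ∫⁻ x, ‖g x‖ₑ ^ q

/-! ### Modules MARC, TAU, INT: interpolation and integration in `τ` -/

/-- Module MARC: interpolation between `L^q` and `L²`, with the dependence on the `L²` bound. -/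
def SpecMarc : Prop := ∀ q p : ℝ, 1 < q → q < p → p < 2 → ∀ A : ℝ≥0, ∃ C : ℝ≥0,
  ∀ (ι : Type) [Fintype ι] (T : ((ι → ℝ) → ℝ) → (ι → ℝ) → ℝ≥0∞) (B : ℝ≥0), 0 < B →
  (∀ g, CcP g → Measurable (T g)) →
  (∀ g h, CcP g → CcP h → ∀ x, T (g + h) x ≤ T g x + T h x) →
  (∀ g, CcP g → ∫⁻ x, T g x ^ q ≤ A * ∫⁻ x, ENNReal.ofReal (g x) ^ q) →
  (∀ g, CcP g → ∫⁻ x, T g x ^ (2 : ℝ) ≤ B * ∫⁻ x, ENNReal.ofReal (g x) ^ (2 : ℝ)) →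
  ∀ g, CcP g → ∫⁻ x, T g x ^ p
    ≤ C * (B : ℝ≥0∞) ^ ((p - q) / (2 - q)) * ∫⁻ x, ENNReal.ofReal (g x) ^ p

/-- Module TAU: integration in `τ`. -/
def SpecTau : Prop := ∀ p γ : ℝ, 1 < p → p < γ → ∀ C : ℝ≥0, ∃ C' : ℝ≥0,
  ∀ (ι : Type) [Fintype ι] (F : ℝ → (ι → ℝ) → ℝ≥0∞), Measurable (Function.uncurry F) →
  ∀ I : ℝ≥0∞, (∀ τ, ∫⁻ x, F τ x ^ p ≤ C * ENNReal.ofReal (‖mu τ‖ ^ (-γ)) * I) →
    ∫⁻ x, (∫⁻ τ, F τ x) ^ p ≤ C' * I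

/-- Module INT. -/
def SpecInt : Prop := ∀ m : ℕ, 3 ≤ m → ∀ p : ℝ, ((m : ℝ) + 2) / m < p → p ≤ 2 → ∃ C : ℝ≥0,
  ∀ (A : Type) [Countable A] (t : A → Fin (m + 1) → ℝ), (∀ a i, 0 < t a i) →
  (∀ a, ∃ k : ℤ, t a 0 = 2 ^ k) → ∀ g : (Fin (m + 1) → ℝ) → ℝ, CcP g →
    ∫⁻ x, (∫⁻ τ : ℝ, ⨆ a, ‖gop (fun i => ker τ (t a i)) (fun y => (g y : ℂ)) x‖ₑ) ^ p
      ≤ C * ∫⁻ x, ENNReal.ofReal (g x) ^ p

/-! ### Modules REP, CONT, BIG: the means over ellipsoids -/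

/-- Module REP: the surface measure of an ellipsoid as a superposition of complex Gaussians. -/
def SpecRep : Prop := ∀ n : ℕ, 2 ≤ n → ∃ C : ℝ≥0, ∀ g : E n → ℂ, Cc g →
  ∀ (r : Fin n → ℝ) (s : ℝ), (∀ i, 0 < r i) → 1 ≤ s → s ≤ 2 → ∀ x : E n,
    ‖ellMean r g x‖ₑ ≤ C * ∫⁻ τ : ℝ,
      ‖gop (fun i => ker τ (r i / s)) (fun y => g (WithLp.toLp 2 y)) (WithLp.ofLp x)‖ₑ

/-- Module CONT: rational half-lengths suffice. -/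
def SpecCont : Prop := ∀ (n : ℕ) (f : E n → ℂ), Cc f →
  (∀ r : Fin n → ℝ, Continuous (ellMean r f)) ∧
  ∀ x : E n, Mst f x
    = ⨆ r : {r : Fin n → ℚ // ∀ i, 0 < r i}, ‖ellMean (fun i => (r.1 i : ℝ)) f x‖ₑ

/-- Module BIG: from `L²` to `L^p`, `p ≥ 2`. -/
def SpecBig : Prop := ∀ n : ℕ, 2 ≤ n → BoundedOn n 2 → ∀ p : ℝ, 2 ≤ p → BoundedOn n p

/-- The final statement. -/
def SpecMain : Prop := ∀ n : ℕ, 4 ≤ n → ∀ p : ℝ, ((n : ℝ) + 1) / (n - 1) < p → BoundedOn n p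

end Pool.Agent.MP_bb1b7e
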