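import Pool.Agent.Lib.MP_bb1b7e_an.Spec

/-!
# Module TAU: integration in `τ`
-/

namespace Pool.Agent.MP_bb1b7e

open MeasureTheory
open scoped ENNReal NNReal

namespace Tau

theorem norm_mu (τ : ℝ) : ‖mu τ‖ = √(1 + ‖τ‖ ^ 2) := by
  unfold mu
  rw [Complex.norm_eq_sqrt_sq_add_sq]
  simp

theorem norm_mu_rpow (τ a : ℝ) : ‖mu τ‖ ^ (-a) = (1 + ‖τ‖ ^ 2) ^ (-a / 2) := by
  rw [norm_mu, Real.sqrt_eq_rpow, ← Real.rpow_mul (by positivity)]
  congr 1
  ring

theorem norm_mu_pos (τ : ℝ) : 0 < ‖mu τ‖ := by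
  rw [norm_mu]
  positivity

theorem measurable_mu : Measurable mu := by
  unfold mu
  fun_prop

theorem lintegral_mu_lt_top {a : ℝ} (ha : 1 < a) :
    ∫⁻ τ : ℝ, ENNReal.ofReal (‖mu τ‖ ^ (-a)) < ∞ := by
  have h : Integrable (fun τ : ℝ => ((1 : ℝ) + ‖τ‖ ^ 2) ^ (-a / 2)) volume :=
    integrable_rpow_neg_one_add_norm_sq (by simpa using ha)
  have h3 := h.lintegral_lt_top
  simp_rw [norm_mu_rpow]
  exact h3

end Tau

open Tau in
/-- Module TAU. -/
theorem specTau : SpecTau := by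
  intro p γ hp hγ C
  -- the exponent of the weight
  set β : ℝ := (p + γ - 2) / (2 * p) with hβ
  have hp0 : 0 < p := by linarith
  set p' : ℝ := p / (p - 1) with hp'
  have hp1 : 0 < p - 1 := by linarith
  have hpq : p.HolderConjugate p' := by
    rw [Real.holderConjugate_iff]
    refine ⟨hp, ?_⟩
    rw [hp']
    field_simp
    ring
  have hpp : p'.HolderConjugate p := hpq.symm
  have hβ1 : 1 < β * p' := by
    rw [hβ, hp', div_mul_div_comm, lt_div_iff₀ (by positivity)]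
    nlinarith
  have hβ2 : 1 < γ - β * p := by
    have : β * p = (p + γ - 2) / 2 := by rw [hβ]; field_simp
    rw [this]
    linarith
  set J : ℝ≥0∞ := ∫⁻ τ : ℝ, ENNReal.ofReal (‖mu τ‖ ^ (-(β * p'))) with hJ
  set J' : ℝ≥0∞ := ∫⁻ τ : ℝ, ENNReal.ofReal (‖mu τ‖ ^ (-(γ - β * p))) with hJ'
  have hJt : J < ∞ := lintegral_mu_lt_top hβ1
  have hJt' : J' < ∞ := lintegral_mu_lt_top hβ2
  have hJp : J ^ (p / p') ≠ ∞ := ENNReal.rpow_ne_top_of_nonneg (by positivity) hJt.ne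
  refine ⟨(J ^ (p / p') * (C * J')).toNNReal, fun ι _ F hF I hI => ?_⟩
  have hcoe : ((J ^ (p / p') * (C * J')).toNNReal : ℝ≥0∞) = J ^ (p / p') * (C * J') :=
    ENNReal.coe_toNNReal (ENNReal.mul_ne_top hJp (ENNReal.mul_ne_top ENNReal.coe_ne_top hJt'.ne))
  rw [hcoe]
  have hmeas : ∀ a : ℝ, Measurable (fun τ : ℝ => ENNReal.ofReal (‖mu τ‖ ^ a)) := by
    intro a
    exact ((measurable_mu.norm).pow_const a).ennreal_ofReal
  have hFτ : ∀ x, Measurable (fun τ => F τ x) := fun x =>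
    hF.comp (measurable_id.prodMk measurable_const)
  -- Hölder in `τ`
  have hH : ∀ x, (∫⁻ τ, F τ x) ^ p ≤
      J ^ (p / p') * ∫⁻ τ, ENNReal.ofReal (‖mu τ‖ ^ (β * p)) * F τ x ^ p := by
    intro x
    have h1 := ENNReal.lintegral_mul_le_Lp_mul_Lq (volume : Measure ℝ) hpp
      (f := fun τ => ENNReal.ofReal (‖mu τ‖ ^ (-β)))
      (g := fun τ => ENNReal.ofReal (‖mu τ‖ ^ β) * F τ x)
      (hmeas _).aemeasurable ((hmeas _).mul (hFτ x)).aemeasurable
    have h2 : ∀ τ, ((fun τ => ENNReal.ofReal (‖mu τ‖ ^ (-β))) *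
        (fun τ => ENNReal.ofReal (‖mu τ‖ ^ β) * F τ x)) τ = F τ x := by
      intro τ
      simp only [Pi.mul_apply]
      rw [← mul_assoc, ← ENNReal.ofReal_mul (by positivity), ← Real.rpow_add (norm_mu_pos τ)]
      simp
    have h3 : ∀ τ, ENNReal.ofReal (‖mu τ‖ ^ (-β)) ^ p' = ENNReal.ofReal (‖mu τ‖ ^ (-(β * p'))) := by
      intro τ
      rw [ENNReal.ofReal_rpow_of_nonneg (by positivity) hpp.nonneg, ← Real.rpow_mul (by positivity)]
      congr 2
      ring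
    have h4 : ∀ τ, (ENNReal.ofReal (‖mu τ‖ ^ β) * F τ x) ^ p =
        ENNReal.ofReal (‖mu τ‖ ^ (β * p)) * F τ x ^ p := by
      intro τ
      rw [ENNReal.mul_rpow_of_nonneg _ _ hp0.le, ENNReal.ofReal_rpow_of_nonneg (by positivity) hp0.le,
        ← Real.rpow_mul (by positivity)]
    rw [lintegral_congr h2, lintegral_congr h3, lintegral_congr h4] at h1
    calc (∫⁻ τ, F τ x) ^ p
        ≤ (J ^ (1 / p') * (∫⁻ τ, ENNReal.ofReal (‖mu τ‖ ^ (β * p)) * F τ x ^ p) ^ (1 / p)) ^ p :=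
          ENNReal.rpow_le_rpow h1 hp0.le
      _ = J ^ (p / p') * ∫⁻ τ, ENNReal.ofReal (‖mu τ‖ ^ (β * p)) * F τ x ^ p := by
          rw [ENNReal.mul_rpow_of_nonneg _ _ hp0.le, ← ENNReal.rpow_mul, ← ENNReal.rpow_mul]
          congr 2
          · field_simp
          · rw [one_div, inv_mul_cancel₀ hp0.ne', ENNReal.rpow_one]
  calc ∫⁻ x, (∫⁻ τ, F τ x) ^ p
      ≤ ∫⁻ x, J ^ (p / p') * ∫⁻ τ, ENNReal.ofReal (‖mu τ‖ ^ (β * p)) * F τ x ^ p :=
        lintegral_mono hH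
    _ = J ^ (p / p') * ∫⁻ x, ∫⁻ τ, ENNReal.ofReal (‖mu τ‖ ^ (β * p)) * F τ x ^ p :=
        lintegral_const_mul' _ _ hJp
    _ = J ^ (p / p') * ∫⁻ τ, ∫⁻ x, ENNReal.ofReal (‖mu τ‖ ^ (β * p)) * F τ x ^ p := by
        rw [lintegral_lintegral_swap]
        have h5 : Measurable (fun z : (ι → ℝ) × ℝ => F z.2 z.1) :=
          hF.comp (measurable_snd.prodMk measurable_fst)
        exact (((hmeas _).comp measurable_snd).mul (h5.pow_const p)).aemeasurable
    _ ≤ J ^ (p / p') * ∫⁻ τ, C * I * ENNReal.ofReal (‖mu τ‖ ^ (-(γ - β * p))) := by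
        gcongr with τ
        rw [lintegral_const_mul' _ _ ENNReal.ofReal_ne_top]
        calc ENNReal.ofReal (‖mu τ‖ ^ (β * p)) * ∫⁻ x, F τ x ^ p
            ≤ ENNReal.ofReal (‖mu τ‖ ^ (β * p)) * (C * ENNReal.ofReal (‖mu τ‖ ^ (-γ)) * I) := by
              gcongr
              exact hI τ
          _ = C * I * (ENNReal.ofReal (‖mu τ‖ ^ (β * p)) * ENNReal.ofReal (‖mu τ‖ ^ (-γ))) := by
              ring
          _ = C * I * ENNReal.ofReal (‖mu τ‖ ^ (-(γ - β * p))) := by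
              rw [← ENNReal.ofReal_mul (by positivity), ← Real.rpow_add (norm_mu_pos τ)]
              congr 3
              ring
    _ = J ^ (p / p') * (C * I * J') := by
        rw [lintegral_const_mul _ (hmeas _)]
    _ = J ^ (p / p') * (C * J') * I := by ring

end Pool.Agent.MP_bb1b7e
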